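import Mathlib.Analysis.CStarAlgebra.Module.Constructions
import Mathlib.MeasureTheory.Function.L2Space
import Mathlib.Order.CompletePartialOrder

/-!
The left regular representation, the group von Neumann algebra and the Fourier algebra.
-/

open MeasureTheory
open scoped InnerProductSpace ENNReal

namespace Pool.Agent.MP_2da52b_an

section generic

variable {G H : Type*} [NormedAddCommGroup H] [InnerProductSpace ℂ H]

/-- The coefficient function `x ↦ ⟨π(x) ξ, η⟩`. -/
noncomputable def coeff (π : G → H →L[ℂ] H) (ξ η : H) : G → ℂ :=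
  fun x => ⟪η, π x ξ⟫_ℂ

/-- The bicommutant of the operators `π x`. -/
def bicomm (π : G → H →L[ℂ] H) : Set (H →L[ℂ] H) :=
  Set.centralizer (Set.centralizer (Set.range π))

/-- The set of all coefficient functions. -/
def coeffSet (π : G → H →L[ℂ] H) : Set (G → ℂ) :=
  {u | ∃ ξ η, u = coeff π ξ η}

/-- The norm of the functional `T ↦ ⟨T ξ, η⟩` on the bicommutant, when `u` is the coefficient
function of `ξ, η`. -/
noncomputable def predualNorm (π : G → H →L[ℂ] H) (u : G → ℂ) : ℝ≥0∞ :=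
  ⨅ (ξ : H) (η : H) (_ : u = coeff π ξ η), ⨆ (T ∈ bicomm π) (_ : ‖T‖ ≤ 1), ‖⟪η, T ξ⟫_ℂ‖ₑ

end generic

variable {G : Type*} [Group G] [TopologicalSpace G] [IsTopologicalGroup G]
  [MeasurableSpace G] [BorelSpace G]

/-- The left regular representation: `(leftReg μ x ξ) y = ξ (x⁻¹ * y)` on `L²(G, μ)`. -/
noncomputable def leftReg (μ : Measure G) [μ.IsHaarMeasure] (x : G) :
    Lp ℂ 2 μ →L[ℂ] Lp ℂ 2 μ :=
  (Lp.compMeasurePreservingₗᵢ ℂ (fun y => x⁻¹ * y)
    (measurePreserving_mul_left μ x⁻¹)).toContinuousLinearMap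

/-- The Fourier algebra `A(G)`, as a set of functions. -/
def fourierAlgebra (μ : Measure G) [μ.IsHaarMeasure] : Set (G → ℂ) :=
  coeffSet (leftReg μ)

/-- The norm of `A(G)` as predual of `VN(G)`. -/
noncomputable def fourierNorm (μ : Measure G) [μ.IsHaarMeasure] : (G → ℂ) → ℝ≥0∞ :=
  predualNorm (leftReg μ)

/-- `S` is a subset of `A(G)`, closed in the norm of `A(G)`. -/
def IsFourierClosed (μ : Measure G) [μ.IsHaarMeasure] (S : Set (G → ℂ)) : Prop :=
  S ⊆ fourierAlgebra μ ∧ ∀ u ∈ fourierAlgebra μ,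
    (∀ ε : ℝ≥0∞, 0 < ε → ∃ a ∈ S, fourierNorm μ (u - a) < ε) → u ∈ S

/-- The compactly supported elements of `S` are dense in `S` in the norm of `A(G)`. -/
def IsTauberian (μ : Measure G) [μ.IsHaarMeasure] (S : Set (G → ℂ)) : Prop :=
  ∀ a ∈ S, ∀ ε : ℝ≥0∞, 0 < ε → ∃ b ∈ S, HasCompactSupport b ∧ fourierNorm μ (a - b) < ε

/-- `S` is invariant under left and right translations. -/
def IsBiInvariant {G : Type*} [Group G] (S : Set (G → ℂ)) : Prop :=
  ∀ a ∈ S, ∀ g : G, (fun x => a (g * x)) ∈ S ∧ (fun x => a (x * g)) ∈ S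

/-- Every character of `A` is a point evaluation. -/
def CharsArePoints {G : Type*} (A : NonUnitalSubalgebra ℂ (G → ℂ)) : Prop :=
  ∀ χ : A →ₙₐ[ℂ] ℂ, χ ≠ 0 → ∃ x : G, ∀ a : A, χ a = (a : G → ℂ) x

/-- Point evaluations are nonzero on `S` and pairwise distinct on `S`. -/
def SeparatesStrongly {G : Type*} (S : Set (G → ℂ)) : Prop :=
  (∀ x : G, ∃ a ∈ S, a x ≠ 0) ∧ ∀ x y : G, (∀ a ∈ S, a x = a y) → x = y

end Pool.Agent.MP_2da52b_an
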