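import Pool.Agent.MP_2da52b_an.Poisson

/-!
Twice Lipschitz vectors, and their behaviour along one-parameter subgroups.
-/

open Set Filter Topology MeasureTheory
open scoped Pointwise InnerProductSpace

namespace Pool.Agent.MP_2da52b_an

variable {G : Type*} [Group G] [TopologicalSpace G] {N : G → ℝ}
variable {H : Type*} [NormedAddCommGroup H] [InnerProductSpace ℂ H] {π : G →* (H →L[ℂ] H)}

/-- First and second differences are controlled by `N`. -/
structure IsSmooth (π : G →* (H →L[ℂ] H)) (N : G → ℝ) (C : ℝ) (η : H) : Prop where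
  nonneg : 0 ≤ C
  lip : ∀ x, ‖π x η - η‖ ≤ C * N x
  lip2 : ∀ x, ‖π x (π x η - η) - (π x η - η)‖ ≤ C * N x ^ 2

/-- The space of twice Lipschitz vectors. -/
def smooth (π : G →* (H →L[ℂ] H)) (N : G → ℝ) : Submodule ℂ H where
  carrier := {η | ∃ C, IsSmooth π N C η}
  zero_mem' := ⟨0, le_rfl, by simp, by simp⟩
  add_mem' := by
    rintro a b ⟨C, h0, h1, h2⟩ ⟨D, h0', h1', h2'⟩
    refine ⟨C + D, add_nonneg h0 h0', fun x => ?_, fun x => ?_⟩
    · rw [map_add, add_sub_add_comm, add_mul]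
      exact (norm_add_le _ _).trans (add_le_add (h1 x) (h1' x))
    · rw [map_add, add_sub_add_comm, map_add, add_sub_add_comm, add_mul]
      exact (norm_add_le _ _).trans (add_le_add (h2 x) (h2' x))
  smul_mem' := by
    rintro c a ⟨C, h0, h1, h2⟩
    refine ⟨‖c‖ * C, by positivity, fun x => ?_, fun x => ?_⟩
    · rw [map_smul, ← smul_sub, norm_smul, mul_assoc]
      exact mul_le_mul_of_nonneg_left (h1 x) (norm_nonneg _)
    · rw [map_smul, ← smul_sub, map_smul, ← smul_sub, norm_smul, mul_assoc]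
      exact mul_le_mul_of_nonneg_left (h2 x) (norm_nonneg _)

omit [TopologicalSpace G] in
lemma apply_eq_of_lip {η : H} {C : ℝ} (h : ∀ x, ‖π x η - η‖ ≤ C * N x) {z : G} (hz : N z = 0) :
    π z η = η := by
  have := h z
  rwa [hz, mul_zero, norm_le_zero_iff, sub_eq_zero] at this

omit [TopologicalSpace G] in
lemma IsOneParam.apply_add {γ : ℝ → G} (hγ : IsOneParam N γ) {η : H} {C : ℝ}
    (h : ∀ x, ‖π x η - η‖ ≤ C * N x) (s t : ℝ) : π (γ (s + t)) η = π (γ s) (π (γ t) η) := by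
  conv_lhs => rw [← apply_eq_of_lip h (hγ.hom s t)]
  rw [← IsURep.mul_apply, ← IsURep.mul_apply, mul_inv_cancel_left]

lemma smooth_apply_small (hπ : IsURep π) (hN : IsGleason N) {z : G} (hz : N z ≤ 1 / 4) {η : H}
    (hη : η ∈ smooth π N) : π z η ∈ smooth π N := by
  obtain ⟨D, hD, hc⟩ := hN.exists_conj
  obtain ⟨C, h0, h1, h2⟩ := hη
  have e : ∀ x v, π x (π z v) = π z (π (z⁻¹ * x * z) v) := fun x v => by
    rw [← IsURep.mul_apply, ← IsURep.mul_apply]
    congr 2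
    group
  refine ⟨C * (D + D ^ 2), by positivity, fun x => ?_, fun x => ?_⟩
  · rw [e, ← map_sub, hπ.norm_eq, mul_assoc C]
    refine (h1 _).trans (mul_le_mul_of_nonneg_left ((hc z hz x).trans ?_) h0)
    exact mul_le_mul_of_nonneg_right (by nlinarith) (hN.nonneg x)
  · rw [e, ← map_sub, e, ← map_sub, hπ.norm_eq, mul_assoc C]
    refine (h2 _).trans (mul_le_mul_of_nonneg_left ?_ h0)
    refine (pow_le_pow_left₀ (hN.nonneg _) (hc z hz x) 2).trans ?_
    rw [mul_pow]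
    exact mul_le_mul_of_nonneg_right (by linarith) (sq_nonneg _)

lemma smooth_apply_oneParam (hπ : IsURep π) (hN : IsGleason N) {γ : ℝ → G} (hγ : IsOneParam N γ)
    {η : H} (hη : η ∈ smooth π N) (t : ℝ) : π (γ t) η ∈ smooth π N := by
  obtain ⟨C, hC⟩ := hη
  have key : ∀ s, |s| ≤ 1 / 4 → ∀ n : ℕ, π (γ (n * s)) η ∈ smooth π N := by
    intro s hs n
    induction n with
    | zero =>
      rw [Nat.cast_zero, zero_mul, apply_eq_of_lip hC.lip hγ.zero]
      exact ⟨C, hC⟩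
    | succ n ih =>
      rw [Nat.cast_succ, add_mul, one_mul, add_comm, hγ.apply_add hC.lip]
      exact smooth_apply_small hπ hN ((hγ.le hN.toIsLength s).trans hs) ih
  obtain ⟨m, hm⟩ := exists_nat_gt (4 * |t|)
  have hm0 : (0 : ℝ) < m := lt_of_le_of_lt (by positivity) hm
  have := key (t / m) (by rw [abs_div, abs_of_pos hm0, div_le_iff₀ hm0]; linarith) m
  rwa [mul_div_cancel₀ _ hm0.ne'] at this

lemma IsURep.norm_sub_pow (hπ : IsURep π) (x : G) (v : H) (n : ℕ) :
    ‖π (x ^ n) v - v‖ ≤ n * ‖π x v - v‖ := by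
  induction n with
  | zero => simp
  | succ n ih =>
    rw [pow_succ]
    refine (hπ.norm_sub_mul _ _ _).trans ?_
    push_cast
    linarith

lemma IsURep.norm_zpow_sub (hπ : IsURep π) (x : G) (η : H) (k : ℤ) :
    ‖π (x ^ k) η - η - (k : ℂ) • (π x η - η)‖ ≤
      2 * (k : ℝ) ^ 2 * ‖π x (π x η - η) - (π x η - η)‖ := by
  have key : ∀ (x : G) (n : ℕ), ‖π (x ^ n) η - η - (n : ℂ) • (π x η - η)‖ ≤
      (n : ℝ) ^ 2 * ‖π x (π x η - η) - (π x η - η)‖ := by
    intro x n
    induction n with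
    | zero => simp
    | succ n ih =>
      have e : π (x ^ (n + 1)) η - η - ((n + 1 : ℕ) : ℂ) • (π x η - η) =
          (π (x ^ n) η - η - (n : ℂ) • (π x η - η)) + (π (x ^ n) (π x η - η) - (π x η - η)) := by
        rw [pow_succ, IsURep.mul_apply, map_sub, Nat.cast_succ, add_smul, one_smul]
        abel
      rw [e]
      have h1 := hπ.norm_sub_pow x (π x η - η) n
      have h2 := norm_nonneg (π x (π x η - η) - (π x η - η))
      have h3 : (0 : ℝ) ≤ n := Nat.cast_nonneg n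
      refine (norm_add_le _ _).trans ?_
      push_cast
      nlinarith
  have h2 := norm_nonneg (π x (π x η - η) - (π x η - η))
  obtain ⟨n, rfl | rfl⟩ := k.eq_nat_or_neg
  · have := key x n
    simp only [zpow_natCast, Int.cast_natCast]
    nlinarith [sq_nonneg (n : ℝ)]
  · have h1 := key x⁻¹ n
    have e0 : π x⁻¹ η - η = -π x⁻¹ (π x η - η) := by
      rw [map_sub, ← IsURep.mul_apply, inv_mul_cancel, IsURep.one_apply, neg_sub]
    have e1 : ‖π x⁻¹ (π x⁻¹ η - η) - (π x⁻¹ η - η)‖ = ‖π x (π x η - η) - (π x η - η)‖ := by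
      rw [e0, map_neg, neg_sub_neg, ← map_sub, hπ.norm_eq, norm_sub_rev, hπ.norm_sub_inv]
    have e2 : π (x ^ (-(n : ℤ))) η - η - ((-(n : ℤ) : ℤ) : ℂ) • (π x η - η) =
        (π (x⁻¹ ^ n) η - η - (n : ℂ) • (π x⁻¹ η - η)) -
          (n : ℂ) • (π x⁻¹ (π x η - η) - (π x η - η)) := by
      rw [e0, zpow_neg, zpow_natCast, inv_pow]
      push_cast
      module
    rw [e2]
    refine (norm_sub_le _ _).trans ?_
    rw [norm_smul, hπ.norm_sub_inv x (π x η - η), Complex.norm_natCast]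
    rw [e1] at h1
    have h3 : (n : ℝ) ≤ (n : ℝ) ^ 2 := by exact_mod_cast Nat.le_self_pow two_ne_zero n
    push_cast
    nlinarith

omit [TopologicalSpace G] in
lemma IsOneParam.apply_int_mul {γ : ℝ → G} (hγ : IsOneParam N γ) {η : H} {C : ℝ}
    (h : ∀ x, ‖π x η - η‖ ≤ C * N x) (s : ℝ) (k : ℤ) : π (γ (k * s)) η = π (γ s ^ k) η := by
  induction k using Int.induction_on with
  | zero => simp [apply_eq_of_lip h hγ.zero]
  | succ n ih =>
    rw [add_comm, zpow_add, zpow_one, IsURep.mul_apply, ← ih, ← hγ.apply_add h]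
    push_cast
    ring_nf
  | pred n ih =>
    rw [sub_eq_neg_add, zpow_add, zpow_neg_one, IsURep.mul_apply, ← ih]
    have e : ((-(n : ℤ) : ℤ) : ℝ) * s = s + ((-1 + -(n : ℤ) : ℤ) : ℝ) * s := by
      push_cast
      ring
    rw [e, hγ.apply_add h, ← IsURep.mul_apply, inv_mul_cancel, IsURep.one_apply]

lemma IsOneParam.norm_sub_le (hπ : IsURep π) {γ : ℝ → G} (hγ : IsOneParam N γ) {η : H} {C : ℝ}
    (hC : 0 ≤ C) (h : ∀ x, ‖π x η - η‖ ≤ C * N x) (s t : ℝ) :
    ‖π (γ t) η - π (γ s) η‖ ≤ C * |s - t| := by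
  rw [hπ.norm_sub_sub]
  exact (h _).trans (mul_le_mul_of_nonneg_left (hγ.lip s t) hC)

lemma IsOneParam.continuous (hπ : IsURep π) {γ : ℝ → G} (hγ : IsOneParam N γ) {η : H} {C : ℝ}
    (hC : 0 ≤ C) (h : ∀ x, ‖π x η - η‖ ≤ C * N x) : Continuous fun t => π (γ t) η := by
  refine (LipschitzWith.of_dist_le_mul (K := ⟨C, hC⟩) fun s t => ?_).continuous
  rw [dist_eq_norm, dist_comm, Real.dist_eq]
  exact hγ.norm_sub_le hπ hC h t s

lemma IsOneParam.exists_deriv [CompleteSpace H] (hπ : IsURep π) (hN : IsLength N) {γ : ℝ → G}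
    (hγ : IsOneParam N γ) {η : H} {C : ℝ} (h : IsSmooth π N C η) :
    ∃ η', ∀ t : ℝ, ‖π (γ t) η - η - (t : ℂ) • η'‖ ≤ 2 * C * t ^ 2 := by
  have hC := h.nonneg
  have key : ∀ t s : ℝ, 0 < s → ‖π (γ t) η - η - (t : ℂ) • ((s⁻¹ : ℂ) • (π (γ s) η - η))‖ ≤
      2 * C * (|t| + s) ^ 2 + 2 * C * s := by
    intro t s hs
    set k := ⌊t / s⌋
    have h1 : |(k : ℝ) * s - t| ≤ s := abs_floor_div_mul_le hs
    have h2 := hπ.norm_zpow_sub (γ s) η k
    rw [← hγ.apply_int_mul h.lip] at h2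
    have hs' : N (γ s) ≤ s := (hγ.le hN s).trans (abs_of_pos hs).le
    have h3 : ‖π (γ s) (π (γ s) η - η) - (π (γ s) η - η)‖ ≤ C * s ^ 2 :=
      (h.lip2 _).trans (mul_le_mul_of_nonneg_left (pow_le_pow_left₀ (hN.nonneg _) hs' 2) hC)
    have h4 := hγ.norm_sub_le hπ hC h.lip (k * s) t
    have h5 : ‖π (γ s) η - η‖ ≤ C * s := (h.lip _).trans (mul_le_mul_of_nonneg_left hs' hC)
    have hsC : (s : ℂ) ≠ 0 := by exact_mod_cast hs.ne'
    have e : π (γ t) η - η - (t : ℂ) • ((s⁻¹ : ℂ) • (π (γ s) η - η)) =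
        (π (γ t) η - π (γ (k * s)) η) + (π (γ (k * s)) η - η - (k : ℂ) • (π (γ s) η - η)) +
          (((k * s - t) / s : ℝ) : ℂ) • (π (γ s) η - η) := by
      have : (((k * s - t) / s : ℝ) : ℂ) = k - t * (s⁻¹ : ℂ) := by
        push_cast
        field_simp
      rw [this]
      module
    rw [e]
    refine (norm_add₃_le).trans ?_
    rw [norm_smul, Complex.norm_real, Real.norm_eq_abs, abs_div, abs_of_pos hs]
    have h6 : |(k : ℝ) * s - t| / s ≤ 1 := (div_le_one hs).2 h1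
    have h7 : |(k : ℝ) * s - t| / s * ‖π (γ s) η - η‖ ≤ 1 * (C * s) :=
      mul_le_mul h6 h5 (norm_nonneg _) zero_le_one
    have h8 : C * |(k : ℝ) * s - t| ≤ C * s := mul_le_mul_of_nonneg_left h1 hC
    have h9 : ((k : ℝ) * s) ^ 2 ≤ (|t| + s) ^ 2 := by
      rw [← sq_abs]
      refine pow_le_pow_left₀ (abs_nonneg _) ?_ 2
      linarith [abs_sub_abs_le_abs_sub ((k : ℝ) * s) t]
    have h10 : 2 * (k : ℝ) ^ 2 * ‖π (γ s) (π (γ s) η - η) - (π (γ s) η - η)‖ ≤
        2 * C * (|t| + s) ^ 2 := by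
      calc _ ≤ 2 * (k : ℝ) ^ 2 * (C * s ^ 2) := by gcongr
        _ = 2 * C * ((k : ℝ) * s) ^ 2 := by ring
        _ ≤ _ := by gcongr
    linarith
  set g : ℝ → H := fun s => (s⁻¹ : ℂ) • (π (γ s) η - η) with hg
  have hlim : ∀ t : ℝ, Tendsto (fun s : ℝ => 2 * C * (|t| + s) ^ 2 + 2 * C * s) (𝓝[>] 0)
      (𝓝 (2 * C * t ^ 2)) := fun t => by
    have : Continuous fun s : ℝ => 2 * C * (|t| + s) ^ 2 + 2 * C * s := by fun_prop
    have := this.tendsto 0
    simp only [add_zero, sq_abs, mul_zero] at this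
    exact tendsto_nhdsWithin_of_tendsto_nhds this
  have hcauchy : Cauchy (map g (𝓝[>] 0)) := by
    refine Metric.cauchy_iff.2 ⟨inferInstance, fun ε hε => ?_⟩
    set t : ℝ := ε / (8 * (C + 1))
    have ht : 0 < t := by positivity
    have h1 : 2 * C * t ^ 2 < ε / 2 * t := by
      have : t * (8 * (C + 1)) = ε := by simp only [t]; field_simp
      nlinarith
    refine ⟨Metric.ball (g t) (ε / 2), ?_, fun a ha b hb => ?_⟩
    · rw [mem_map]
      filter_upwards [(hlim t).eventually (gt_mem_nhds h1), self_mem_nhdsWithin] with s hs hs0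
      have h2 := (key t s hs0).trans_lt hs
      have htC : (t : ℂ) ≠ 0 := by exact_mod_cast ht.ne'
      have e : π (γ t) η - η = (t : ℂ) • g t := by
        rw [hg, smul_smul, mul_inv_cancel₀ htC, one_smul]
      rw [e, ← smul_sub, norm_smul, Complex.norm_real, Real.norm_of_nonneg ht.le, mul_comm,
        mul_lt_mul_iff_left₀ ht] at h2
      rwa [mem_preimage, mem_ball_iff_norm']
    · have := dist_triangle_right a b (g t)
      rw [Metric.mem_ball] at ha hb
      linarith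
  obtain ⟨η', hη'⟩ := CompleteSpace.complete hcauchy
  refine ⟨η', fun t => ?_⟩
  have h1 : Tendsto g (𝓝[>] 0) (𝓝 η') := hη'
  refine le_of_tendsto_of_tendsto ((h1.const_smul (t : ℂ)).const_sub (π (γ t) η - η)).norm
    (hlim t) ?_
  filter_upwards [self_mem_nhdsWithin] with s hs using key t s hs

lemma hasDerivAt_of_sq_bound {E : Type*} [NormedAddCommGroup E] [NormedSpace ℝ E] {f : ℝ → E}
    {f' : E} {t C : ℝ} (h : ∀ s, ‖f (t + s) - f t - s • f'‖ ≤ C * s ^ 2) : HasDerivAt f f' t := by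
  rw [hasDerivAt_iff_isLittleO_nhds_zero]
  exact (Asymptotics.IsBigO.of_bound C (Eventually.of_forall fun s => by
    simpa using h s)).trans_isLittleO (Asymptotics.isLittleO_pow_id one_lt_two)

/-- Nonnegative slopes force one-sided spectrum along the one-parameter subgroup. -/
theorem oneSided_of_slope [CompleteSpace H] (hπ : IsURep π) (hN : IsGleason N) {γ : ℝ → G}
    (hγ : IsOneParam N γ) (hs : ∀ η ∈ smooth π N, ∃ a, 0 ≤ a ∧ HasSlope π η γ a)
    {η : H} (hη : η ∈ smooth π N) {w : ℂ} (hw : w.im < 0) :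
    ∫ t, cker w t ^ 2 • π (γ t) η = 0 := by
  obtain ⟨C, hC⟩ := id hη
  obtain ⟨η', hη'⟩ := hγ.exists_deriv hπ hN.toIsLength hC
  have hb : ∀ t s : ℝ, ‖π (γ (t + s)) η - π (γ t) η - s • π (γ t) η'‖ ≤ 2 * C * s ^ 2 := by
    intro t s
    rw [hγ.apply_add hC.lip, ← Complex.coe_smul, ← map_smul, ← map_sub, ← map_sub, hπ.norm_eq]
    exact hη' s
  have hd : ∀ t, HasDerivAt (fun t => π (γ t) η) (π (γ t) η') t := fun t =>
    hasDerivAt_of_sq_bound (hb t)
  have hfc := hγ.continuous hπ hC.nonneg hC.lip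
  have hc : Continuous fun t => π (γ t) η' := by
    refine continuous_of_uniform_approx_of_continuous fun u hu => ?_
    obtain ⟨ε, hε, hu⟩ := Metric.mem_uniformity_dist.1 hu
    have hC0 := hC.nonneg
    set s : ℝ := ε / (2 * C + 1)
    have hs0 : 0 < s := by positivity
    refine ⟨fun t => s⁻¹ • (π (γ (t + s)) η - π (γ t) η),
      ((hfc.comp (continuous_add_const s)).sub hfc).const_smul _, fun t => hu ?_⟩
    have h1 := hb t s
    have e : π (γ (t + s)) η - π (γ t) η - s • π (γ t) η' =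
        s • (s⁻¹ • (π (γ (t + s)) η - π (γ t) η) - π (γ t) η') := by
      rw [smul_sub s, smul_smul, mul_inv_cancel₀ hs0.ne', one_smul]
    rw [e, norm_smul, Real.norm_of_nonneg hs0.le] at h1
    rw [dist_comm, dist_eq_norm]
    have h2 : s * (2 * C + 1) = ε := by simp only [s]; field_simp
    refine lt_of_mul_lt_mul_left (h1.trans_lt ?_) hs0.le
    nlinarith
  let S : Submodule ℂ (H × H) :=
    { carrier := {p | p.1 ∈ smooth π N ∧ HasDerivAt (fun τ => π (γ τ) p.1) p.2 0}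
      zero_mem' := ⟨zero_mem _, by simpa using hasDerivAt_const (0 : ℝ) (0 : H)⟩
      add_mem' := fun {a b} ha hb => ⟨add_mem ha.1 hb.1, by simpa using ha.2.fun_add hb.2⟩
      smul_mem' := fun c a ha => ⟨Submodule.smul_mem _ c ha.1, by
        simpa using ha.2.fun_const_smul c⟩ }
  refine integral_cker_sq_smul_eq_zero hd hc (M := max ‖η‖ ‖η'‖)
    (fun t => by simp [hπ.norm_eq]) (fun t => by simp [hπ.norm_eq]) S (fun p hp => ?_)
    (fun t => ⟨smooth_apply_oneParam hπ hN hγ hη t, ?_⟩) hw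
  · obtain ⟨a, ha, D, hD⟩ := hs p.1 hp.1
    have h0 : ell π p.1 (γ 0) = 0 := by simpa using hD 0
    have h1 : HasDerivAt (fun τ => ell π p.1 (γ τ)) a 0 :=
      hasDerivAt_of_sq_bound (C := D) fun s => by simpa [h0] using hD s
    have h2 := Complex.imCLM.hasFDerivAt.comp_hasDerivAt (0 : ℝ)
      ((hasDerivAt_const (0 : ℝ) p.1).inner ℂ hp.2)
    have h3 := h1.unique h2
    simp only [inner_zero_left, add_zero, Complex.imCLM_apply] at h3
    rwa [← h3]
  · have h1 : (fun τ => π (γ τ) (π (γ t) η)) = fun τ => π (γ (τ + t)) η :=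
      funext fun τ => (hγ.apply_add hC.lip τ t).symm
    change HasDerivAt (fun τ => π (γ τ) (π (γ t) η)) (π (γ t) η') 0
    rw [h1]
    exact HasDerivAt.comp_add_const (f := fun t => π (γ t) η) 0 t (by simpa using hd t)

lemma ell_sq (hπ : IsURep π) (hN : IsLength N) {η : H} {C : ℝ} (h : IsSmooth π N C η) (y : G) :
    |ell π η (y * y) - 2 * ell π η y| ≤ C ^ 2 * N y ^ 3 := by
  set v := π y η - η
  have e0 : ⟪η, π (y * y) η⟫_ℂ - 2 * ⟪η, π y η⟫_ℂ + ⟪η, η⟫_ℂ = ⟪η, π y v - v⟫_ℂ := by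
    simp only [v, map_sub, inner_sub_right, IsURep.mul_apply]
    ring
  have e1 : ⟪η, π y v - v⟫_ℂ = ⟪π y η, π y v - v⟫_ℂ - ⟪v, π y v - v⟫_ℂ := by
    simp only [v, inner_sub_left]
    ring
  have e2 : ⟪π y η, π y v - v⟫_ℂ = -⟪v, v⟫_ℂ := by
    rw [inner_sub_right, hπ.inner_map, ← inner_sub_left, ← inner_neg_left, neg_sub]
  have e3 : ell π η (y * y) - 2 * ell π η y = -(⟪v, π y v - v⟫_ℂ).im := by
    have := congrArg Complex.im e0
    rw [e1, e2] at this
    have h1 : (⟪η, η⟫_ℂ).im = 0 := inner_self_im (𝕜 := ℂ) η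
    have h2 : (⟪v, v⟫_ℂ).im = 0 := inner_self_im (𝕜 := ℂ) v
    rw [Complex.add_im, Complex.sub_im, Complex.sub_im, Complex.neg_im, h1, h2] at this
    simpa [ell] using this
  rw [e3, abs_neg]
  refine (Complex.abs_im_le_norm _).trans ((norm_inner_le_norm _ _).trans ?_)
  calc ‖v‖ * ‖π y v - v‖ ≤ (C * N y) * (C * N y ^ 2) :=
        mul_le_mul (h.lip y) (h.lip2 y) (norm_nonneg _) (mul_nonneg h.nonneg (hN.nonneg y))
    _ = _ := by ring

end Pool.Agent.MP_2da52b_an
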