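import Mathlib.Analysis.Normed.Operator.Perturbation.StrictByFinite
import Mathlib.Data.Finset.Functor
import Mathlib.MeasureTheory.Function.LpSpace.ContinuousCompMeasurePreserving
import Mathlib.RingTheory.SimpleRing.Principal
import Pool.Agent.MP_2da52b_an.Smooth
import Pool.Agent.MP_2da52b_an.Defs

-- ======== part 0: formerly Pool.Agent.MP_2da52b_an.Bump
section MrgPart0

/-!
Smoothing by Lipschitz bump functions.
-/

set_option linter.unusedSectionVars false

open Set Filter Topology MeasureTheory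
open scoped Pointwise InnerProductSpace

namespace Pool.Agent.MP_2da52b_an

variable {G : Type*} [Group G] [TopologicalSpace G] {N : G → ℝ}

lemma IsGleason.exists_small (hN : IsGleason N) {f : G → ℝ} (hf : Continuous f)
    (h0 : ∀ x, N x = 0 → f x = 0) {ε : ℝ} (hε : 0 < ε) :
    ∃ r > 0, ∀ x, N x < r → f x < ε := by
  have hK : IsCompact ({x | N x ≤ 1} ∩ {x | ε ≤ f x}) :=
    hN.compact.inter_right (isClosed_le continuous_const hf)
  rcases ({x | N x ≤ 1} ∩ {x | ε ≤ f x}).eq_empty_or_nonempty with h | h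
  · refine ⟨1, one_pos, fun x hx => ?_⟩
    by_contra h1
    exact (eq_empty_iff_forall_notMem.1 h x) ⟨hx.le, not_lt.1 h1⟩
  · obtain ⟨x₀, hx₀, hmin⟩ := hK.exists_isMinOn h hN.cont.continuousOn
    have hpos : 0 < N x₀ := lt_of_le_of_ne (hN.nonneg _) fun h1 => by
      have := hx₀.2
      rw [mem_ofPred_eq, h0 x₀ h1.symm] at this
      exact absurd hε (not_lt.2 this)
    refine ⟨N x₀, hpos, fun x hx => ?_⟩
    by_contra h1
    exact absurd (hmin ⟨hx.le.trans hx₀.1, not_lt.1 h1⟩) (not_le.2 hx)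

variable [MeasurableSpace G]

/-- A Lipschitz probability density supported in the ball of radius `r`. -/
structure IsBump (N : G → ℝ) (μ : Measure G) (r : ℝ) (φ : G → ℝ) : Prop where
  cont : Continuous φ
  compact : HasCompactSupport φ
  nonneg : ∀ z, 0 ≤ φ z
  integral : ∫ z, φ z ∂μ = 1
  supp : ∀ z, φ z ≠ 0 → N z < r
  lip : ∃ c, 0 ≤ c ∧ ∀ y z, |φ (y⁻¹ * z) - φ z| ≤ c * N y

variable [BorelSpace G] [IsTopologicalGroup G] [T2Space G] {μ : Measure G} [μ.IsHaarMeasure]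

omit [IsTopologicalGroup G] in
lemma IsGleason.exists_isBump (hN : IsGleason N) (μ : Measure G) [μ.IsHaarMeasure] {r : ℝ}
    (hr : 0 < r) (hr1 : r ≤ 1) : ∃ φ, IsBump N μ r φ := by
  have hc : Continuous fun z => max 0 (r - N z) := continuous_const.max
    (continuous_const.sub hN.cont)
  have hs : ∀ z, max 0 (r - N z) ≠ 0 → N z < r := fun z hz => by
    by_contra h
    exact hz (max_eq_left (by linarith [not_lt.1 h]))
  have hcs : HasCompactSupport fun z => max 0 (r - N z) :=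
    HasCompactSupport.intro hN.compact fun z hz => by
      by_contra h
      exact hz ((hs z h).le.trans hr1)
  have hI : 0 < ∫ z, max 0 (r - N z) ∂μ :=
    hc.integral_pos_of_hasCompactSupport_nonneg_nonzero (x := 1) hcs (fun z => le_max_left _ _)
      (by simp [hN.one, hr.le, hr.ne'])
  refine ⟨fun z => (∫ z, max 0 (r - N z) ∂μ)⁻¹ * max 0 (r - N z), continuous_const.mul hc,
    hcs.mul_left, fun z => mul_nonneg (inv_pos.2 hI).le (le_max_left _ _), ?_,
    fun z hz => hs z (right_ne_zero_of_mul hz), _, (inv_pos.2 hI).le, fun y z => ?_⟩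
  · rw [integral_const_mul, inv_mul_cancel₀ hI.ne']
  · rw [← mul_sub, abs_mul, abs_of_pos (inv_pos.2 hI)]
    refine mul_le_mul_of_nonneg_left ?_ (inv_pos.2 hI).le
    rw [max_comm 0, max_comm 0]
    refine (abs_max_sub_max_le_abs _ _ _).trans ?_
    have := hN.abs_sub_le z⁻¹ (y⁻¹ * z)⁻¹
    simp only [hN.inv, inv_inv, mul_inv_rev, mul_inv_cancel_left] at this
    rw [← hN.inv (y⁻¹ * z)]
    simp only [mul_inv_rev, inv_inv, sub_sub_sub_cancel_left]
    rwa [abs_sub_comm]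

section general

variable {E : Type*} [NormedAddCommGroup E] [NormedSpace ℝ E] {r : ℝ} {φ : G → ℝ}

omit [IsTopologicalGroup G] [T2Space G] in
lemma IsBump.integrable (h : IsBump N μ r φ) {F : G → E} (hF : Continuous F) :
    Integrable (fun z => φ z • F z) μ :=
  (h.cont.smul hF).integrable_of_hasCompactSupport h.compact.smul_right

omit [T2Space G] in
lemma IsBump.integrable' (h : IsBump N μ r φ) {F : G → E} (hF : Continuous F) (y : G) :
    Integrable (fun z => φ (y⁻¹ * z) • F z) μ :=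
  ((h.cont.comp (continuous_const.mul continuous_id)).smul hF).integrable_of_hasCompactSupport
    (h.compact.comp_homeomorph (Homeomorph.mulLeft y⁻¹)).smul_right

omit [IsTopologicalGroup G] [T2Space G] in
lemma IsBump.norm_integral_le (h : IsBump N μ r φ) {F : G → E} {M : ℝ}
    (hM : ∀ z, N z < r → ‖F z‖ ≤ M) : ‖∫ z, φ z • F z ∂μ‖ ≤ M := by
  have h1 : Integrable (fun z => φ z * M) μ := h.integrable (F := fun _ => M) continuous_const
  refine (norm_integral_le_of_norm_le h1 (Eventually.of_forall fun z => ?_)).trans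
    (by rw [integral_mul_const, h.integral, one_mul])
  rw [norm_smul, Real.norm_of_nonneg (h.nonneg z)]
  by_cases hz : φ z = 0
  · simp [hz]
  · exact mul_le_mul_of_nonneg_left (hM z (h.supp z hz)) (h.nonneg z)

omit [IsTopologicalGroup G] [T2Space G] in
lemma IsBump.norm_integral_sub_le [CompleteSpace E] (h : IsBump N μ r φ) {F : G → E}
    (hF : Continuous F) {v : E}
    {M : ℝ} (hM : ∀ z, N z < r → ‖F z - v‖ ≤ M) : ‖∫ z, φ z • F z ∂μ - v‖ ≤ M := by
  have : ∫ z, φ z • F z ∂μ - v = ∫ z, φ z • (F z - v) ∂μ := by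
    simp only [smul_sub]
    rw [integral_sub (h.integrable hF) (h.integrable continuous_const), integral_smul_const,
      h.integral, one_smul]
  rw [this]
  exact h.norm_integral_le hM

lemma IsBump.exists_diff_bound (h : IsBump N μ r φ) (hN : IsLength N) :
    ∃ c, 0 ≤ c ∧ ∀ (y : G) (F : G → E) (M : ℝ), 0 ≤ M →
      (∀ z, N z < r ∨ N (y⁻¹ * z) < r → ‖F z‖ ≤ M) →
      ‖∫ z, (φ (y⁻¹ * z) - φ z) • F z ∂μ‖ ≤ c * N y * M := by
  obtain ⟨c, hc, hlip⟩ := h.lip
  set K := tsupport φ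
  have hK : IsCompact K := h.compact
  refine ⟨c * (2 * μ.real K), by positivity, fun y F M hM hF => ?_⟩
  have hyK : IsCompact (y • K) := hK.smul y
  rw [← setIntegral_eq_integral_of_forall_compl_eq_zero (s := K ∪ y • K)]
  · refine (norm_setIntegral_le_of_norm_le_const (hK.union hyK).measure_lt_top
      (C := c * N y * M) fun z _ => ?_).trans ?_
    · rw [norm_smul]
      by_cases hz : φ (y⁻¹ * z) - φ z = 0
      · rw [hz, norm_zero, zero_mul]
        exact mul_nonneg (mul_nonneg hc (hN.nonneg _)) hM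
      · refine mul_le_mul (hlip y z) (hF z ?_) (norm_nonneg _) (mul_nonneg hc (hN.nonneg _))
        by_cases h1 : φ z = 0
        · rw [h1, sub_zero] at hz
          exact Or.inr (h.supp _ hz)
        · exact Or.inl (h.supp _ h1)
    · have h1 : μ.real (K ∪ y • K) ≤ 2 * μ.real K := by
        refine (measureReal_union_le _ _).trans (le_of_eq ?_)
        rw [measureReal_def (s := y • K), measure_smul, two_mul]
        rfl
      have h2 : 0 ≤ c * N y * M := mul_nonneg (mul_nonneg hc (hN.nonneg _)) hM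
      calc c * N y * M * μ.real (K ∪ y • K) ≤ c * N y * M * (2 * μ.real K) := by gcongr
        _ = _ := by ring
  · intro z hz
    rw [mem_union, not_or, mem_smul_set_iff_inv_smul_mem, smul_eq_mul] at hz
    rw [image_eq_zero_of_notMem_tsupport hz.1, image_eq_zero_of_notMem_tsupport hz.2]
    simp

end general

variable {H : Type*} [NormedAddCommGroup H] [InnerProductSpace ℂ H] [CompleteSpace H]
  {π : G →* (H →L[ℂ] H)} {r : ℝ} {φ : G → ℝ}

/-- The integrated representation. -/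
noncomputable def conv (π : G →* (H →L[ℂ] H)) (μ : Measure G) (φ : G → ℝ) (ξ : H) : H :=
  ∫ z, φ z • π z ξ ∂μ

omit [T2Space G] in
lemma IsBump.apply_conv_sub (h : IsBump N μ r φ) (hπ : IsURep π) (y : G) (ξ : H) :
    π y (conv π μ φ ξ) - conv π μ φ ξ = ∫ z, (φ (y⁻¹ * z) - φ z) • π z ξ ∂μ := by
  simp only [sub_smul]
  rw [integral_sub (h.integrable' (hπ.cont ξ) y) (h.integrable (hπ.cont ξ)), conv,
    ← ContinuousLinearMap.integral_comp_comm _ (h.integrable (hπ.cont ξ)),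
    ← integral_mul_left_eq_self (fun z => φ (y⁻¹ * z) • π z ξ) y]
  simp

lemma IsBump.conv_lip (h : IsBump N μ r φ) (hπ : IsURep π) (hN : IsLength N) (ξ : H) :
    ∃ C, 0 ≤ C ∧ ∀ y, ‖π y (conv π μ φ ξ) - conv π μ φ ξ‖ ≤ C * N y := by
  obtain ⟨c, hc, hb⟩ := h.exists_diff_bound (E := H) hN
  refine ⟨c * ‖ξ‖, by positivity, fun y => ?_⟩
  rw [h.apply_conv_sub hπ]
  exact (hb y _ ‖ξ‖ (norm_nonneg _) fun z _ => (hπ.norm_eq z ξ).le).trans (le_of_eq (by ring))

lemma IsBump.conv_conv_mem (h : IsBump N μ r φ) (hπ : IsURep π) (hN : IsGleason N)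
    (hr : r ≤ 1 / 4) (ξ : H) : conv π μ φ (conv π μ φ ξ) ∈ smooth π N := by
  obtain ⟨C₁, hC₁, h₁⟩ := h.conv_lip hπ hN.toIsLength ξ
  obtain ⟨C₂, hC₂, h₂⟩ := h.conv_lip hπ hN.toIsLength (conv π μ φ ξ)
  obtain ⟨c, hc, hb⟩ := h.exists_diff_bound (E := H) hN.toIsLength
  obtain ⟨D, hD, hconj⟩ := hN.exists_conj
  set ζ := conv π μ φ ξ
  refine ⟨C₂ + c * (C₁ * D), by positivity, fun y => (h₂ y).trans ?_, fun y => ?_⟩
  · exact mul_le_mul_of_nonneg_right (le_add_of_nonneg_right (by positivity)) (hN.nonneg _)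
  · have hi : Integrable (fun z => (φ (y⁻¹ * z) - φ z) • π z ζ) μ := by
      simp only [sub_smul]
      exact (h.integrable' (hπ.cont ζ) y).sub (h.integrable (hπ.cont ζ))
    rw [h.apply_conv_sub hπ, ← ContinuousLinearMap.integral_comp_comm _ hi,
      ← integral_sub ((π y).integrable_comp hi) hi]
    simp only [ContinuousLinearMap.map_smul_of_tower, ← smul_sub]
    have h0 := hN.nonneg y
    refine (hb y _ (C₁ * (D * N y)) (by positivity) fun z hz => ?_).trans ?_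
    · rw [← IsURep.mul_apply, hπ.norm_sub_sub, ← mul_assoc]
      refine (h₁ _).trans (mul_le_mul_of_nonneg_left ?_ hC₁)
      rcases hz with hz | hz
      · exact hconj z (hz.le.trans hr) y
      · have := hconj _ (hz.le.trans hr) y
        rwa [show (y⁻¹ * z)⁻¹ * y * (y⁻¹ * z) = z⁻¹ * y * z by group] at this
    · nlinarith [mul_nonneg hC₂ (sq_nonneg (N y))]

omit [IsTopologicalGroup G] [T2Space G] [CompleteSpace H] in
lemma IsBump.norm_conv_sub_conv_le (h : IsBump N μ r φ) (hπ : IsURep π) (ξ ζ : H) :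
    ‖conv π μ φ ξ - conv π μ φ ζ‖ ≤ ‖ξ - ζ‖ := by
  rw [conv, conv, ← integral_sub (h.integrable (hπ.cont _)) (h.integrable (hπ.cont _))]
  simp only [← smul_sub, ← map_sub]
  exact h.norm_integral_le fun z _ => (hπ.norm_eq _ _).le

/-- Vectors fixed by the kernel of `N` are limits of smooth vectors. -/
lemma mem_closure_smooth [LocallyCompactSpace G] (hπ : IsURep π) (hN : IsGleason N) {ξ : H}
    (hξ : ∀ x, N x = 0 → π x ξ = ξ) : ξ ∈ closure (smooth π N : Set H) := by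
  refine Metric.mem_closure_iff.2 fun ε hε => ?_
  obtain ⟨r, hr, hr'⟩ := hN.exists_small (f := fun x => ‖π x ξ - ξ‖)
    ((hπ.cont ξ).sub continuous_const).norm (fun x hx => by simp [hξ x hx])
    (show 0 < ε / 3 by positivity)
  obtain ⟨φ, hφ⟩ := hN.exists_isBump Measure.haar (r := min r (1 / 4)) (by positivity)
    ((min_le_right _ _).trans (by norm_num))
  refine ⟨_, hφ.conv_conv_mem hπ hN (min_le_right _ _) ξ, ?_⟩
  have h1 : ‖conv π Measure.haar φ ξ - ξ‖ ≤ ε / 3 :=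
    hφ.norm_integral_sub_le (hπ.cont ξ) fun z hz => (hr' z (hz.trans_le (min_le_left _ _))).le
  have h2 := hφ.norm_conv_sub_conv_le hπ (conv π Measure.haar φ ξ) ξ
  rw [dist_comm, dist_eq_norm]
  have := norm_sub_le_norm_sub_add_norm_sub (conv π Measure.haar φ (conv π Measure.haar φ ξ))
    (conv π Measure.haar φ ξ) ξ
  linarith

end Pool.Agent.MP_2da52b_an

end MrgPart0

-- ======== part 1: formerly Pool.Agent.MP_2da52b_an.Coord
section MrgPart1

/-!
Coordinates given by finitely many smooth vectors, and a convex combination without linear term.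
-/

set_option linter.unusedSectionVars false

open Set Filter Topology MeasureTheory
open scoped Pointwise InnerProductSpace

namespace Pool.Agent.MP_2da52b_an

variable {G : Type*} [Group G] [TopologicalSpace G] [IsTopologicalGroup G] {N : G → ℝ}
variable {H : Type*} [NormedAddCommGroup H] [InnerProductSpace ℂ H] [CompleteSpace H]
  {π : G →* (H →L[ℂ] H)}

/-- One-sided spectrum along a one-parameter subgroup only happens trivially. -/
def NoOneSided (π : G →* (H →L[ℂ] H)) (N : G → ℝ) : Prop :=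
  ∀ γ, IsOneParam N γ →
    (∀ η ∈ smooth π N, ∀ w : ℂ, w.im < 0 → ∫ t, cker w t ^ 2 • π (γ t) η = 0) →
    ∀ η ∈ smooth π N, ∀ t, π (γ t) η = η

lemma IsSmooth.mono (hN : IsLength N) {C D : ℝ} {η : H} (h : IsSmooth π N C η) (hCD : C ≤ D) :
    IsSmooth π N D η :=
  ⟨h.nonneg.trans hCD, fun x => (h.lip x).trans (mul_le_mul_of_nonneg_right hCD (hN.nonneg x)),
    fun x => (h.lip2 x).trans (mul_le_mul_of_nonneg_right hCD (sq_nonneg _))⟩

lemma exists_coord (hπ : IsURep π) (hN : IsGleason N) (hno : NoOneSided π N)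
    (hsep : ∀ x, 0 < N x → N x ≤ 1 → ∃ η ∈ smooth π N, π x η ≠ η) :
    ∃ F : Finset (smooth π N), ∃ δ > 0, ∀ x, 0 < N x → N x < δ →
      ∃ η ∈ F, ell π η x ≤ -δ * N x := by
  classical
  by_contra hcon
  push Not at hcon
  choose x hx0 hx1 hx2 using fun j : Finset (smooth π N) × ℕ =>
    hcon j.1 (1 / (j.2 + 1)) (by positivity)
  set 𝒰 := Ultrafilter.of (atTop : Filter (Finset (smooth π N) × ℕ))
  have h𝒰 : (𝒰 : Filter (Finset (smooth π N) × ℕ)) ≤ atTop := Ultrafilter.of_le _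
  have h1 : Tendsto (fun j : Finset (smooth π N) × ℕ => (1 / (j.2 + 1) : ℝ)) 𝒰 (𝓝 0) :=
    (tendsto_one_div_add_atTop_nhds_zero_nat.comp
      (tendsto_snd.mono_left prod_atTop_atTop_eq.ge)).mono_left h𝒰
  have hR : ∀ᶠ j in (𝒰 : Filter (Finset (smooth π N) × ℕ)), 0 < N (x j) := Eventually.of_forall hx0
  have hR0 : Tendsto (fun j => N (x j)) 𝒰 (𝓝 0) :=
    squeeze_zero (fun j => (hx0 j).le) (fun j => (hx1 j).le) h1
  obtain ⟨γ, hγ, hγ'⟩ := hN.exists_oneParam 𝒰 hR hR0 (Eventually.of_forall fun _ => le_rfl)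
  obtain ⟨t, ht0, ht1⟩ := hN.oneParam_nontrivial 𝒰 hR hR0 hγ hγ'
  obtain ⟨η, hη, hne⟩ := hsep _ ht0 ht1
  refine hne (hno γ hγ (fun ζ hζ w hw => oneSided_of_slope hπ hN hγ (fun ζ hζ => ?_) hζ hw) η hη t)
  obtain ⟨C, hC⟩ := id hζ
  obtain ⟨a, ha, ha'⟩ := exists_hasSlope hπ hN.toIsLength 𝒰 hR hR0
    (Eventually.of_forall fun _ => le_rfl) hγ' hC.lip
  refine ⟨a, ?_, ha'⟩
  have h2 := h1.neg
  rw [neg_zero] at h2
  refine le_of_tendsto_of_tendsto h2 ha ?_
  filter_upwards [h𝒰 (eventually_ge_atTop ({⟨ζ, hζ⟩}, 0))] with j hj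
  rw [le_div_iff₀ (hx0 j)]
  exact (hx2 j ⟨ζ, hζ⟩ (hj.1 (Finset.mem_singleton_self _))).le

/-- A finite family of smooth vectors giving coordinates near the kernel of `N`. -/
structure IsCoord (π : G →* (H →L[ℂ] H)) (N : G → ℝ) {ι : Type*} (η : ι → H) (C δ : ℝ) :
    Prop where
  smooth : ∀ i, IsSmooth π N C (η i)
  nonneg : 0 ≤ C
  pos : 0 < δ
  coord : ∀ x, 0 < N x → N x < δ → ∃ i, ell π (η i) x ≤ -δ * N x

lemma exists_isCoord (hπ : IsURep π) (hN : IsGleason N) (hno : NoOneSided π N) {K : Set G}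
    (hK : IsCompact K) (hsep : ∀ x, 0 < N x → N x ≤ 1 ∨ x ∈ K → ∃ η ∈ smooth π N, π x η ≠ η) :
    ∃ (F : Finset (smooth π N)) (C δ : ℝ), IsCoord π N (fun i : F => (i : H)) C δ ∧
      ∀ x ∈ K, δ ≤ N x → ∃ i : F, π x (i : H) ≠ i := by
  classical
  obtain ⟨F, δ, hδ, hF⟩ := exists_coord hπ hN hno fun x h0 h1 => hsep x h0 (Or.inl h1)
  have hT : IsCompact (K ∩ {x | δ ≤ N x}) := hK.inter_right (isClosed_le continuous_const hN.cont)
  obtain ⟨F', hF'⟩ := hT.elim_finite_subcover (fun η : smooth π N => {x | π x (η : H) ≠ η})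
    (fun η => (isClosed_eq (hπ.cont _) continuous_const).isOpen_compl) (fun x hx => by
      obtain ⟨η, hη, h⟩ := hsep x (hδ.trans_le hx.2) (Or.inr hx.1)
      exact mem_iUnion.2 ⟨⟨η, hη⟩, h⟩)
  choose C hC using fun η : smooth π N => η.2
  refine ⟨F ∪ F', ∑ η ∈ F ∪ F', C η, δ, ⟨fun i => (hC i).mono hN.toIsLength
    (Finset.single_le_sum (fun η _ => (hC η).nonneg) i.2),
    Finset.sum_nonneg fun η _ => (hC η).nonneg, hδ, fun x h0 h1 => ?_⟩, fun x hx hx' => ?_⟩
  · obtain ⟨η, hη, h⟩ := hF x h0 h1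
    exact ⟨⟨η, Finset.mem_union_left _ hη⟩, h⟩
  · obtain ⟨η, hη, h⟩ := mem_iUnion₂.1 (hF' ⟨hx, hx'⟩)
    exact ⟨⟨η, Finset.mem_union_right _ hη⟩, h⟩

variable {ι : Type*} [Fintype ι] {η : ι → H} {C δ : ℝ}

lemma IsCoord.ell_mul (h : IsCoord π N η C δ) (hπ : IsURep π) (hN : IsLength N) (i : ι) (x y : G) :
    |ell π (η i) (x * y) - ell π (η i) x - ell π (η i) y| ≤ C ^ 2 * (N x * N y) :=
  (MP_2da52b_an.ell_mul hπ _ x y).trans ((mul_le_mul ((h.smooth i).lip x) ((h.smooth i).lip y)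
    (norm_nonneg _) (mul_nonneg h.nonneg (hN.nonneg _))).trans (le_of_eq (by ring)))

lemma tendsto_hyper_one_div : Tendsto (fun n : ℕ => (1 / (n + 1) : ℝ)) (hyperfilter ℕ) (𝓝 0) :=
  tendsto_one_div_add_atTop_nhds_zero_nat.mono_left Nat.hyperfilter_le_atTop

/-- The space of slope vectors. -/
def IsCoord.slopes (h : IsCoord π N η C δ) (hπ : IsURep π) (hN : IsGleason N) :
    Submodule ℝ (ι → ℝ) where
  carrier := {v | ∃ (c : ℝ) (γ : ℝ → G) (a : ι → ℝ), IsOneParam N γ ∧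
    (∀ i, HasSlope π (η i) γ (a i)) ∧ v = c • a}
  zero_mem' := ⟨0, fun _ => 1, 0, ⟨fun s t => by simp [hN.one], fun s t => by simp [hN.one]⟩,
    fun i => ⟨0, fun t => by simp [ell_eq]⟩, by simp⟩
  smul_mem' := by
    rintro d _ ⟨c, γ, a, h1, h2, rfl⟩
    exact ⟨d * c, γ, a, h1, h2, by rw [mul_smul]⟩
  add_mem' := by
    rintro _ _ ⟨c₁, γ₁, a₁, h₁, h₁', rfl⟩ ⟨c₂, γ₂, a₂, h₂, h₂', rfl⟩
    set L := |c₁| + |c₂| + 1 with hL
    have hL0 : 0 < L := by positivity
    set R : ℕ → ℝ := fun n => 1 / (n + 1)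
    have hRp : ∀ n, 0 < R n := fun n => by positivity
    have hR : ∀ᶠ n in (hyperfilter ℕ : Filter ℕ), 0 < R n := Eventually.of_forall hRp
    have hR0 : Tendsto R (hyperfilter ℕ) (𝓝 0) := tendsto_hyper_one_div
    have hb : ∀ {γ}, IsOneParam N γ → ∀ c n, N (γ (c / L * R n)) ≤ |c| / L * R n :=
      fun hγ c n => (hγ.le hN.toIsLength _).trans (by
        rw [abs_mul, abs_div, abs_of_pos hL0, abs_of_pos (hRp n)])
    have hle : ∀ c, |c| ≤ L → |c| / L ≤ 1 := fun c hc => (div_le_one hL0).2 hc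
    have hx : ∀ᶠ n in (hyperfilter ℕ : Filter ℕ),
        N (γ₁ (c₁ / L * R n) * γ₂ (c₂ / L * R n)) ≤ R n := Eventually.of_forall fun n => by
      refine (hN.mul _ _).trans ((add_le_add (hb h₁ _ _) (hb h₂ _ _)).trans ?_)
      rw [← add_mul, ← add_div]
      exact mul_le_of_le_one_left (hRp n).le ((div_le_one hL0).2 (by linarith))
    obtain ⟨γ, hγ, hγ'⟩ := hN.exists_oneParam _ hR hR0 hx
    choose a ha ha' using fun i => exists_hasSlope hπ hN.toIsLength _ hR hR0 hx hγ' (h.smooth i).lip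
    refine ⟨L, γ, a, hγ, ha', funext fun i => ?_⟩
    have h3 := ((h₁' i).tendsto hR hR0 (c₁ / L)).add ((h₂' i).tendsto hR hR0 (c₂ / L))
    have h4 := (ha i).sub h3
    have h5 : Tendsto (fun n => ell π (η i) (γ₁ (c₁ / L * R n) * γ₂ (c₂ / L * R n)) / R n -
        (ell π (η i) (γ₁ (c₁ / L * R n)) / R n + ell π (η i) (γ₂ (c₂ / L * R n)) / R n))
        (hyperfilter ℕ) (𝓝 0) := by
      have h6 := hR0.const_mul (C ^ 2)
      rw [mul_zero] at h6
      refine squeeze_zero_norm (fun n => ?_) h6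
      rw [← add_div, ← sub_div, ← sub_sub, Real.norm_eq_abs, abs_div, abs_of_pos (hRp n),
        div_le_iff₀ (hRp n), mul_assoc]
      refine (h.ell_mul hπ hN.toIsLength i _ _).trans (mul_le_mul_of_nonneg_left ?_ (sq_nonneg _))
      refine mul_le_mul ((hb h₁ _ _).trans ?_) ((hb h₂ _ _).trans ?_) (hN.nonneg _) (hRp n).le
      · exact mul_le_of_le_one_left (hRp n).le (hle _ (by linarith [abs_nonneg c₂]))
      · exact mul_le_of_le_one_left (hRp n).le (hle _ (by linarith [abs_nonneg c₁]))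
    have h6 := tendsto_nhds_unique h4 h5
    simp only [Pi.add_apply, Pi.smul_apply, smul_eq_mul]
    rw [sub_eq_zero.1 h6]
    field_simp

lemma IsCoord.eq_zero_of_nonneg (h : IsCoord π N η C δ) (hN : IsGleason N)
    {γ : ℝ → G} (hγ : IsOneParam N γ) {a : ι → ℝ} (ha : ∀ i, HasSlope π (η i) γ (a i)) {c : ℝ}
    (hc : ∀ i, 0 ≤ c * a i) (i : ι) : c * a i = 0 := by
  set R : ℕ → ℝ := fun n => 1 / (n + 1)
  have hRp : ∀ n, 0 < R n := fun n => by positivity
  have hR0 : Tendsto R atTop (𝓝 0) := tendsto_one_div_add_atTop_nhds_zero_nat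
  have key : ∀ c, (∀ i, 0 ≤ c * a i) → N (γ c) = 0 := by
    intro c hc
    by_contra hne
    have h0 : 0 < N (γ c) := lt_of_le_of_ne (hN.nonneg _) (Ne.symm hne)
    have hδ := mul_pos h.pos h0
    have h1 : ∀ᶠ n in atTop, ∀ i, -(δ * N (γ c)) < ell π (η i) (γ (c * R n)) / R n :=
      eventually_all.2 fun i => ((ha i).tendsto (Eventually.of_forall hRp) hR0 c).eventually
        (lt_mem_nhds (by linarith [hc i]))
    have h2 : ∀ᶠ n in atTop, |c| * R n < δ := by
      have := hR0.const_mul |c|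
      rw [mul_zero] at this
      exact this.eventually (gt_mem_nhds h.pos)
    obtain ⟨n, h3, h4⟩ := (h1.and h2).exists
    have h5 : N (γ c) * R n ≤ N (γ (c * R n)) := by
      have := hγ.nat_mul_le hN.toIsLength (c * R n) (n + 1)
      have e : ((n + 1 : ℕ) : ℝ) * (c * R n) = c := by simp only [R]; push_cast; field_simp
      rw [e] at this
      have e2 : N (γ c) * R n = N (γ c) / ((n + 1 : ℕ) : ℝ) := by simp [R, div_eq_mul_inv]
      rw [e2, div_le_iff₀' (by positivity)]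
      exact this
    obtain ⟨i, hi⟩ := h.coord (γ (c * R n)) ((mul_pos h0 (hRp n)).trans_le h5)
      ((hγ.le hN.toIsLength _).trans_lt (by rwa [abs_mul, abs_of_pos (hRp n)]))
    have h6 := h3 i
    rw [lt_div_iff₀ (hRp n)] at h6
    nlinarith [h.pos]
  refine tendsto_nhds_unique ((ha i).tendsto (Eventually.of_forall hRp) hR0 c)
    (tendsto_const_nhds.congr fun n => ?_)
  have := key (c * R n) fun i => by
    rw [mul_right_comm]; exact mul_nonneg (hc i) (hRp n).le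
  rw [ell_eq, apply_eq_of_lip (h.smooth i).lip this]
  simp

lemma IsCoord.exists_weights (h : IsCoord π N η C δ) (hπ : IsURep π) (hN : IsGleason N) :
    ∃ c : ι → ℝ, (∀ i, 0 < c i) ∧ ∀ γ, IsOneParam N γ → ∀ a : ι → ℝ,
      (∀ i, HasSlope π (η i) γ (a i)) → ∑ i, c i * a i = 0 := by
  classical
  set W := h.slopes hπ hN
  obtain ⟨f, u, v, hu, huv, hv⟩ := geometric_hahn_banach_compact_closed (convex_stdSimplex ℝ ι)
    (isCompact_stdSimplex ℝ ι) W.convex W.closed_of_finiteDimensional (by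
      rw [Set.disjoint_left]
      rintro _ hs ⟨c, γ, a, hγ, ha, rfl⟩
      have h1 := hs.2
      have h2 := h.eq_zero_of_nonneg hN hγ ha (c := c) hs.1
      simp [h2] at h1)
  have hv0 : v < 0 := by simpa using hv 0 W.zero_mem
  have hW : ∀ w ∈ W, f w = 0 := by
    intro w hw
    by_contra hne
    have := hv _ (W.smul_mem (v / f w) hw)
    rw [map_smul, smul_eq_mul, div_mul_cancel₀ _ hne] at this
    exact lt_irrefl _ this
  refine ⟨fun i => -f (Pi.single i 1), fun i => ?_, fun γ hγ a ha => ?_⟩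
  · linarith [hu _ (single_mem_stdSimplex ℝ i)]
  · have h1 := hW a ⟨1, γ, a, hγ, ha, by simp⟩
    rw [pi_eq_sum_univ' a, map_sum] at h1
    simp only [map_smul, smul_eq_mul] at h1
    simp only [neg_mul, Finset.sum_neg_distrib, neg_eq_zero]
    rw [← h1]
    exact Finset.sum_congr rfl fun i _ => mul_comm _ _

/-- A positive combination of the coordinates is `o (N ^ 2)`. -/
lemma IsCoord.exists_weights_small (h : IsCoord π N η C δ) (hπ : IsURep π) (hN : IsGleason N) :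
    ∃ c : ι → ℝ, (∀ i, 0 < c i) ∧ ∀ ε > 0, ∃ r > 0, ∀ x, N x < r →
      |∑ i, c i * ell π (η i) x| ≤ ε * N x ^ 2 := by
  obtain ⟨c, hc, hc'⟩ := h.exists_weights hπ hN
  refine ⟨c, hc, ?_⟩
  set L : G → ℝ := fun x => ∑ i, c i * ell π (η i) x with hL
  have hsum : ∀ (f b : ι → ℝ), (∀ i, |f i| ≤ b i) → |∑ i, c i * f i| ≤ ∑ i, c i * b i := by
    intro f b hf
    refine (Finset.abs_sum_le_sum_abs _ _).trans (Finset.sum_le_sum fun i _ => ?_)
    rw [abs_mul, abs_of_pos (hc i)]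
    exact mul_le_mul_of_nonneg_left (hf i) (hc i).le
  set A := (∑ i, c i) * C ^ 2
  have hA : 0 ≤ A := mul_nonneg (Finset.sum_nonneg fun i _ => (hc i).le) (sq_nonneg _)
  have hmul : ∀ x y, |L (x * y) - L x - L y| ≤ A * (N x * N y) := by
    intro x y
    have := hsum _ _ fun i => h.ell_mul hπ hN.toIsLength i x y
    simp only [mul_sub, Finset.sum_sub_distrib, ← Finset.sum_mul] at this
    rwa [← mul_assoc] at this
  have hsq : ∀ y, |L (y * y) - 2 * L y| ≤ A * N y ^ 3 := by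
    intro y
    have := hsum _ _ fun i => ell_sq hπ hN.toIsLength (h.smooth i) y
    simp only [mul_sub, Finset.sum_sub_distrib, ← Finset.sum_mul, mul_left_comm _ (2 : ℝ),
      ← Finset.mul_sum] at this
    rwa [← mul_assoc] at this
  obtain ⟨B, hB0, hB⟩ : ∃ B, 0 ≤ B ∧ ∀ x, |L x| ≤ B * N x := by
    refine ⟨∑ i, c i * (‖η i‖ * C), Finset.sum_nonneg fun i _ =>
      mul_nonneg (hc i).le (mul_nonneg (norm_nonneg _) h.nonneg), fun x => ?_⟩
    have := hsum _ _ fun i => (abs_ell_le (π := π) (η i) x).trans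
      (mul_le_mul_of_nonneg_left ((h.smooth i).lip x) (norm_nonneg _))
    simpa only [Finset.sum_mul, mul_assoc] using this
  have hcub : ∀ γ, IsOneParam N γ → ∀ a : ι → ℝ, (∀ i, HasSlope π (η i) γ (a i)) →
      ∀ t, |L (γ t)| ≤ A * |t| ^ 3 := by
    intro γ hγ a ha
    choose D hD using id ha
    have h1 : ∀ t, |L (γ t)| ≤ (∑ i, c i * D i) * t ^ 2 := by
      intro t
      have := hsum _ _ fun i => hD i t
      simp only [mul_sub, Finset.sum_sub_distrib, mul_left_comm _ t, ← Finset.mul_sum,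
        hc' γ hγ a ha, mul_zero, sub_zero] at this
      simpa only [Finset.sum_mul, mul_assoc] using this
    have h2 : ∀ t, |L (γ t) - 2 * L (γ (t / 2))| ≤ A * (|t| ^ 3 / 8) := by
      intro t
      have e : L (γ t) = L (γ (t / 2) * γ (t / 2)) := by
        refine Finset.sum_congr rfl fun i _ => ?_
        rw [ell, ell, IsURep.mul_apply, ← hγ.apply_add (h.smooth i).lip, add_halves]
      rw [e]
      refine (hsq _).trans (mul_le_mul_of_nonneg_left ?_ hA)
      refine (pow_le_pow_left₀ (hN.nonneg _) (hγ.le hN.toIsLength _) 3).trans (le_of_eq ?_)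
      rw [abs_div, abs_two]
      ring
    have h3 : ∀ n : ℕ, ∀ t, |L (γ t)| ≤ A * |t| ^ 3 + (∑ i, c i * D i) * t ^ 2 / 2 ^ n := by
      intro n
      induction n with
      | zero =>
        intro t
        have : 0 ≤ A * |t| ^ 3 := by positivity
        simpa using (h1 t).trans (le_add_of_nonneg_left this)
      | succ n ih =>
        intro t
        have h4 := ih (t / 2)
        have h5 := h2 t
        have h6 : 0 ≤ A * |t| ^ 3 := by positivity
        have e : A * |t / 2| ^ 3 + (∑ i, c i * D i) * (t / 2) ^ 2 / 2 ^ n =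
            A * |t| ^ 3 / 8 + (∑ i, c i * D i) * t ^ 2 / 2 ^ (n + 1) / 2 := by
          rw [abs_div, abs_two]
          ring
        rw [e] at h4
        rw [abs_le] at h4 h5 ⊢
        constructor <;> linarith [h4.1, h4.2, h5.1, h5.2]
    intro t
    have h4 := (tendsto_const_nhds (x := (∑ i, c i * D i) * t ^ 2)).div_atTop
      (tendsto_pow_atTop_atTop_of_one_lt (one_lt_two (α := ℝ))) |>.const_add (A * |t| ^ 3)
    rw [add_zero] at h4
    exact ge_of_tendsto' h4 fun n => h3 n t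
  have happ : ∀ ε > 0, ∃ r > 0, ∀ x, N x < r →
      ∃ w, N w ≤ ε * N x ∧ |L x - L w| ≤ ε * N x ^ 2 := by
    intro ε hε
    by_contra hcon
    push Not at hcon
    choose x hx1 hx2 using fun n : ℕ => hcon (1 / (n + 1)) (by positivity)
    have hx0 : ∀ n, 0 < N (x n) := fun n => lt_of_le_of_ne (hN.nonneg _) fun h0 => by
      have := hx2 n (x n) (by simp [← h0])
      simp [← h0] at this
    have hR : ∀ᶠ n in (hyperfilter ℕ : Filter ℕ), 0 < N (x n) := Eventually.of_forall hx0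
    have hR0 : Tendsto (fun n => N (x n)) (hyperfilter ℕ) (𝓝 0) :=
      squeeze_zero (fun j => (hx0 j).le) (fun j => (hx1 j).le) tendsto_hyper_one_div
    obtain ⟨γ, hγ, hγ'⟩ := hN.exists_oneParam _ hR hR0 (Eventually.of_forall fun _ => le_rfl)
    choose a ha ha' using fun i => exists_hasSlope hπ hN.toIsLength _ hR hR0
      (Eventually.of_forall fun _ => le_rfl) hγ' (h.smooth i).lip
    set w : ℕ → G := fun n => (γ (N (x n)))⁻¹ * x n with hw
    have hγx : ∀ n, N (γ (N (x n))) ≤ N (x n) := fun n =>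
      (hγ.le hN.toIsLength _).trans (abs_of_pos (hx0 n)).le
    have hw2 : ∀ n, N (w n) ≤ 2 * N (x n) := fun n => by
      have := hN.mul (γ (N (x n)))⁻¹ (x n)
      rw [hN.inv] at this
      linarith [hγx n]
    have hxw : ∀ n, x n = γ (N (x n)) * w n := fun n => by simp [hw]
    have h1 : ∀ i, Tendsto (fun n => ell π (η i) (w n) / N (x n)) (hyperfilter ℕ) (𝓝 0) := by
      intro i
      have h2 := (ha i).sub ((ha' i).tendsto hR hR0 1)
      simp only [one_mul, sub_self] at h2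
      have h3 : Tendsto (fun n => (ell π (η i) (x n) / N (x n) -
          ell π (η i) (γ (N (x n))) / N (x n)) - ell π (η i) (w n) / N (x n))
          (hyperfilter ℕ) (𝓝 0) := by
        have h6 := hR0.const_mul (C ^ 2 * 2)
        rw [mul_zero] at h6
        refine squeeze_zero_norm (fun n => ?_) h6
        rw [← sub_div, ← sub_div, Real.norm_eq_abs, abs_div, abs_of_pos (hx0 n),
          div_le_iff₀ (hx0 n)]
        have h7 := h.ell_mul hπ hN.toIsLength i (γ (N (x n))) (w n)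
        rw [← hxw n] at h7
        refine h7.trans ?_
        have := mul_le_mul (hγx n) (hw2 n) (hN.nonneg _) (hx0 n).le
        nlinarith [sq_nonneg C]
      simpa using h2.sub h3
    set ε₁ := ε / (2 * (A + 1))
    have hε₁ : 0 < ε₁ := by positivity
    have hε₁' : ε₁ * (2 * (A + 1)) = ε := by simp only [ε₁]; field_simp
    have h2 : ∀ᶠ n in (hyperfilter ℕ : Filter ℕ), ∀ i,
        -(δ * ε₁) < ell π (η i) (w n) / N (x n) :=
      eventually_all.2 fun i => (h1 i).eventually (lt_mem_nhds (by linarith [mul_pos h.pos hε₁]))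
    obtain ⟨n, h3, h4, h5⟩ := (h2.and ((hR0.eventually (gt_mem_nhds (half_pos h.pos))).and
      (hR0.eventually (gt_mem_nhds hε₁)))).exists
    have h6 : N (w n) ≤ ε₁ * N (x n) := by
      rcases (hN.nonneg (w n)).eq_or_lt with h0 | h0
      · rw [← h0]; exact (mul_pos hε₁ (hx0 n)).le
      · obtain ⟨i, hi⟩ := h.coord (w n) h0 (by linarith [hw2 n])
        have h7 := h3 i
        rw [lt_div_iff₀ (hx0 n)] at h7
        refine le_of_mul_le_mul_left ?_ h.pos
        linarith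
    have hx0' := hx0 n
    refine absurd (hx2 n (w n) (h6.trans (mul_le_mul_of_nonneg_right (by nlinarith) hx0'.le)))
      (not_lt.2 ?_)
    have h7 := hmul (γ (N (x n))) (w n)
    rw [← hxw n] at h7
    have h8 := hcub γ hγ a ha' (N (x n))
    rw [abs_of_pos hx0'] at h8
    have h9 : A * (N (γ (N (x n))) * N (w n)) ≤ A * (N (x n) * (ε₁ * N (x n))) :=
      mul_le_mul_of_nonneg_left (mul_le_mul (hγx n) h6 (hN.nonneg _) hx0'.le) hA
    have h10 : A * N (x n) ^ 3 ≤ A * (ε₁ * N (x n) ^ 2) := by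
      refine mul_le_mul_of_nonneg_left ?_ hA
      rw [pow_succ' _ 2]
      exact mul_le_mul_of_nonneg_right h5.le (sq_nonneg _)
    have h11 : 0 ≤ ε₁ * N (x n) ^ 2 := by positivity
    rw [← hε₁']
    rw [abs_le] at h7 h8 ⊢
    constructor <;> nlinarith [h7.1, h7.2, h8.1, h8.2]
  intro ε hε
  obtain ⟨r, hr, hr'⟩ := happ (min (ε / 2) (1 / 2)) (by positivity)
  refine ⟨r, hr, fun x hx => ?_⟩
  have h1 : ∀ n : ℕ, ∀ x, N x < r → |L x| ≤ ε * N x ^ 2 + B * N x / 2 ^ n := by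
    intro n
    induction n with
    | zero =>
      intro x _
      have : 0 ≤ ε * N x ^ 2 := by positivity
      simpa using (hB x).trans (le_add_of_nonneg_left this)
    | succ n ih =>
      intro x hx
      obtain ⟨w, hw1, hw2⟩ := hr' x hx
      have h0 := hN.nonneg x
      have h2 : N w ≤ N x / 2 :=
        hw1.trans ((mul_le_mul_of_nonneg_right (min_le_right _ _) h0).trans (by linarith))
      have h3 : |L x - L w| ≤ ε / 2 * N x ^ 2 :=
        hw2.trans (mul_le_mul_of_nonneg_right (min_le_left _ _) (sq_nonneg _))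
      have h4 := ih w (by linarith)
      have h5 : ε * N w ^ 2 ≤ ε * (N x / 2) ^ 2 :=
        mul_le_mul_of_nonneg_left (pow_le_pow_left₀ (hN.nonneg _) h2 2) hε.le
      have h6 : B * N w / 2 ^ n ≤ B * N x / 2 ^ (n + 1) := by
        rw [pow_succ', ← div_div, mul_div_assoc B (N x)]
        gcongr
      have h7 : 0 ≤ ε * N x ^ 2 := by positivity
      have h8 := abs_sub_abs_le_abs_sub (L x) (L w)
      linarith
  have h4 := (tendsto_const_nhds (x := B * N x)).div_atTop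
    (tendsto_pow_atTop_atTop_of_one_lt (one_lt_two (α := ℝ))) |>.const_add (ε * N x ^ 2)
  rw [add_zero] at h4
  exact ge_of_tendsto' h4 fun n => h1 n x hx

end Pool.Agent.MP_2da52b_an

end MrgPart1

-- ======== part 2: formerly Pool.Agent.MP_2da52b_an.Core
section MrgPart2

/-!
Volume growth of small balls and the peaking estimate.
-/

set_option linter.unusedSectionVars false

open Set Filter Topology MeasureTheory
open scoped Pointwise InnerProductSpace

namespace Pool.Agent.MP_2da52b_an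

variable {G : Type*} [Group G] [TopologicalSpace G] [IsTopologicalGroup G] {N : G → ℝ}
variable {H : Type*} [NormedAddCommGroup H] [InnerProductSpace ℂ H] [CompleteSpace H]
  {π : G →* (H →L[ℂ] H)}
variable [MeasurableSpace G] [BorelSpace G] [T2Space G] {μ : Measure G} [μ.IsHaarMeasure]
variable {ι : Type*} [Fintype ι] {η : ι → H} {C δ : ℝ}

lemma IsGleason.measure_ball_ne_top (hN : IsGleason N) {r : ℝ} (hr : r ≤ 1) :
    μ {x | N x < r} ≠ ⊤ :=
  ((measure_mono fun x (hx : N x < r) => (hx.le.trans hr : N x ≤ 1)).trans_lt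
    hN.compact.measure_lt_top).ne

lemma IsCoord.volume_lower (h : IsCoord π N η C δ) (hπ : IsURep π) (hN : IsGleason N) :
    ∃ c > 0, ∀ ρ, 0 < ρ → ρ ≤ 1 → c * ρ ^ Fintype.card ι ≤ μ.real {x | N x < ρ} := by
  classical
  have hδ := h.pos
  have hC := h.nonneg
  set r := min (min 1 (δ / 2)) (δ / (2 * (C ^ 2 + 1)))
  have hr : 0 < r := by positivity
  have hr1 : r ≤ 1 := (min_le_left _ _).trans (min_le_left _ _)
  have hr2 : r ≤ δ / 2 := (min_le_left _ _).trans (min_le_right _ _)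
  have hr3 : C ^ 2 * r ≤ δ / 2 := by
    have h1 : r ≤ δ / (2 * (C ^ 2 + 1)) := min_le_right _ _
    rw [le_div_iff₀ (by positivity)] at h1
    nlinarith
  set B := (∑ i, ‖η i‖) * C
  have hB0 : 0 ≤ B := mul_nonneg (Finset.sum_nonneg fun i _ => norm_nonneg _) hC
  have hB : ∀ i x, N x < r → |ell π (η i) x| ≤ B := fun i x hx => by
    refine (abs_ell_le _ _).trans (mul_le_mul (Finset.single_le_sum
      (f := fun i => ‖η i‖) (fun i _ => norm_nonneg _) (Finset.mem_univ i))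
      (((h.smooth i).lip x).trans ?_) (norm_nonneg _) (Finset.sum_nonneg fun i _ => norm_nonneg _))
    exact mul_le_of_le_one_right hC (hx.le.trans hr1)
  set E := 4 * B / δ + 5
  have hE : 0 < E := by positivity
  have hpos : 0 < μ.real {x | N x < r} := ENNReal.toReal_pos
    ((isOpen_lt hN.cont continuous_const).measure_ne_zero μ ⟨1, by simpa [hN.one] using hr⟩)
    (hN.measure_ball_ne_top hr1)
  refine ⟨μ.real {x | N x < r} / E ^ Fintype.card ι, by positivity, fun ρ hρ hρ1 => ?_⟩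
  set s := δ * ρ / 2
  have hs : 0 < s := by positivity
  set n := ⌈B / s⌉₊
  set J : G → ι → ℤ := fun x i => ⌊ell π (η i) x / s⌋
  set box : Finset (ι → ℤ) := Fintype.piFinset fun _ => Finset.Icc (-(n : ℤ)) n
  have hcov : {x | N x < r} ⊆ ⋃ j ∈ box, {x | N x < r ∧ J x = j} := by
    intro x hx
    refine mem_iUnion₂.2 ⟨J x, Fintype.mem_piFinset.2 fun i => ?_, hx, rfl⟩
    have h1 : |ell π (η i) x / s| ≤ n := by
      rw [abs_div, abs_of_pos hs]
      exact (div_le_div_of_nonneg_right (hB i x hx) hs.le).trans (Nat.le_ceil _)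
    rw [abs_le] at h1
    refine Finset.mem_Icc.2 ⟨Int.le_floor.2 (by exact_mod_cast h1.1), ?_⟩
    have := (Int.floor_le (ell π (η i) x / s)).trans h1.2
    exact_mod_cast this
  have hfib : ∀ j, μ.real {x | N x < r ∧ J x = j} ≤ μ.real {x | N x < ρ} := by
    intro j
    rcases {x | N x < r ∧ J x = j}.eq_empty_or_nonempty with h0 | ⟨x, hx, hxj⟩
    · rw [h0]; simp
    have hsub : {x | N x < r ∧ J x = j} ⊆ (fun y => x⁻¹ * y) ⁻¹' {x | N x < ρ} := by
      rintro y ⟨hy, hyj⟩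
      change N (x⁻¹ * y) < ρ
      rcases (hN.nonneg (x⁻¹ * y)).eq_or_lt with h0 | h0
      · rwa [← h0]
      have h1 : N (x⁻¹ * y) < δ := by
        have := hN.mul x⁻¹ y
        rw [hN.inv] at this
        linarith
      obtain ⟨i, hi⟩ := h.coord _ h0 h1
      have h2 := h.ell_mul hπ hN.toIsLength i x (x⁻¹ * y)
      rw [mul_inv_cancel_left] at h2
      have h3 : C ^ 2 * (N x * N (x⁻¹ * y)) ≤ δ / 2 * N (x⁻¹ * y) := by
        rw [← mul_assoc]
        exact mul_le_mul_of_nonneg_right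
          ((mul_le_mul_of_nonneg_left hx.le (sq_nonneg _)).trans hr3) h0.le
      have h4 := Int.abs_sub_lt_one_of_floor_eq_floor (congrFun (hxj.trans hyj.symm) i)
      rw [← sub_div, abs_div, abs_of_pos hs, div_lt_one hs] at h4
      rw [abs_le] at h2
      rw [abs_lt] at h4
      refine lt_of_mul_lt_mul_left (a := δ / 2) ?_ (by positivity)
      simp only [s] at h4
      linarith [h2.2, h4.2]
    refine (measureReal_mono hsub (by
      rw [measure_preimage_mul]; exact hN.measure_ball_ne_top hρ1)).trans (le_of_eq ?_)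
    rw [measureReal_def, measure_preimage_mul, measureReal_def]
  have h1 : μ.real {x | N x < r} ≤ (2 * n + 1) ^ Fintype.card ι * μ.real {x | N x < ρ} := by
    refine (measureReal_mono hcov (ne_top_of_le_ne_top (hN.measure_ball_ne_top hr1)
      (measure_mono (iUnion₂_subset fun j _ x hx => hx.1)))).trans
      ((measureReal_biUnion_finset_le _ _).trans ?_)
    refine (Finset.sum_le_card_nsmul _ _ _ fun j _ => hfib j).trans (le_of_eq ?_)
    have : (n + 1 + (n : ℤ)).toNat = 2 * n + 1 := by omega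
    simp [box, Fintype.card_piFinset, Int.card_Icc, this]
  have h2 : (2 * n + 1) * ρ ≤ E := by
    have h3 : (n : ℝ) < B / s + 1 := Nat.ceil_lt_add_one (by positivity)
    have h4 : B / s * ρ = 2 * B / δ := by simp only [s]; field_simp
    have h5 : 4 * B / δ = 2 * (2 * B / δ) := by ring
    simp only [E]
    nlinarith
  rw [div_mul_eq_mul_div, div_le_iff₀ (by positivity)]
  calc μ.real {x | N x < r} * ρ ^ Fintype.card ι
      ≤ (2 * n + 1) ^ Fintype.card ι * μ.real {x | N x < ρ} * ρ ^ Fintype.card ι := by gcongr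
    _ = μ.real {x | N x < ρ} * ((2 * n + 1) * ρ) ^ Fintype.card ι := by rw [mul_pow]; ring
    _ ≤ _ := by gcongr

lemma re_mul_inv_pow {φ w : ℂ} {k : ℕ} {ε : ℝ} (hφ : ‖φ - 1‖ ≤ 1 / 10) (hw : 0 < w.re)
    (hε : 0 ≤ ε) (hwε : |w.im| ≤ ε * w.re) (hk : k * ε ≤ 1 / 20) :
    1 / 2 * ‖w‖⁻¹ ^ k ≤ (φ * w⁻¹ ^ k).re := by
  have hw0 : w ≠ 0 := fun h => by simp [h] at hw
  have hn : 0 < ‖w‖ := norm_pos_iff.2 hw0
  set ω : ℂ := ‖w‖ * w⁻¹
  have hω1 : ‖ω‖ = 1 := by simp [ω, hn.ne']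
  have hω2 : ‖ω - 1‖ ≤ 2 * ε := by
    have e : ω - 1 = (‖w‖ - w) * w⁻¹ := by simp only [ω]; field_simp
    have h1 : ‖w‖ ≤ w.re + |w.im| := by
      simpa [abs_of_pos hw] using Complex.norm_le_abs_re_add_abs_im w
    have h2 : w.re ≤ ‖w‖ := Complex.re_le_norm w
    have h3 : ‖(‖w‖ : ℂ) - w‖ ≤ 2 * |w.im| := by
      refine (Complex.norm_le_abs_re_add_abs_im _).trans ?_
      simp only [Complex.sub_re, Complex.ofReal_re, Complex.sub_im, Complex.ofReal_im, zero_sub,
        abs_neg]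
      rw [abs_of_nonneg (by linarith)]
      linarith
    rw [e, norm_mul, norm_inv, ← div_eq_mul_inv, div_le_iff₀ hn]
    nlinarith
  have hω3 : ∀ k : ℕ, ‖ω ^ k - 1‖ ≤ k * (2 * ε) := by
    intro k
    induction k with
    | zero => simp
    | succ k ih =>
      have : ω ^ (k + 1) - 1 = ω * (ω ^ k - 1) + (ω - 1) := by ring
      rw [this]
      refine (norm_add_le _ _).trans ?_
      rw [norm_mul, hω1]
      push_cast
      linarith
  have h4 : ‖φ * ω ^ k - 1‖ ≤ 1 / 5 := by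
    have : φ * ω ^ k - 1 = (φ - 1) * ω ^ k + (ω ^ k - 1) := by ring
    rw [this]
    refine (norm_add_le _ _).trans ?_
    rw [norm_mul, norm_pow, hω1]
    have := hω3 k
    simp only [one_pow, mul_one]
    linarith
  have h5 : 1 / 2 ≤ (φ * ω ^ k).re := by
    have := (Complex.abs_re_le_norm _).trans h4
    rw [abs_le, Complex.sub_re, Complex.one_re] at this
    linarith [this.1]
  have e : φ * w⁻¹ ^ k = (φ * ω ^ k) * ((‖w‖⁻¹ ^ k : ℝ) : ℂ) := by
    have : (‖w‖ : ℂ) ≠ 0 := by exact_mod_cast hn.ne'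
    have h6 : (‖w‖ : ℂ) ^ k * (‖w‖ : ℂ)⁻¹ ^ k = 1 := by
      rw [← mul_pow, mul_inv_cancel₀ this, one_pow]
    simp only [ω, mul_pow]
    push_cast
    linear_combination (-φ * w⁻¹ ^ k) * h6
  rw [e, Complex.mul_re, Complex.ofReal_re, Complex.ofReal_im, mul_zero, sub_zero]
  exact mul_le_mul_of_nonneg_right h5 (by positivity)

/-- The negative definite function attached to weighted vectors. -/
noncomputable def negDef (π : G →* (H →L[ℂ] H)) (η : ι → H) (c : ι → ℝ) (x : G) : ℂ :=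
  ∑ i, (c i : ℂ) * ⟪η i, η i - π x (η i)⟫_ℂ

lemma negDef_re (hπ : IsURep π) (c : ι → ℝ) (x : G) :
    (negDef π η c x).re = ∑ i, c i * (‖π x (η i) - η i‖ ^ 2 / 2) := by
  rw [negDef, Complex.re_sum]
  refine Finset.sum_congr rfl fun i _ => ?_
  rw [Complex.re_ofReal_mul, norm_sub_rev, norm_sub_sq (𝕜 := ℂ), hπ.norm_eq, inner_sub_right,
    Complex.sub_re]
  have : (⟪η i, η i⟫_ℂ).re = ‖η i‖ ^ 2 := inner_self_eq_norm_sq (𝕜 := ℂ) (η i)
  rw [this]
  simp only [RCLike.re_to_complex]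
  ring

lemma negDef_im (c : ι → ℝ) (x : G) :
    (negDef π η c x).im = -∑ i, c i * ell π (η i) x := by
  rw [negDef, Complex.im_sum, ← Finset.sum_neg_distrib]
  refine Finset.sum_congr rfl fun i _ => ?_
  rw [Complex.im_ofReal_mul, ell_eq, ← neg_sub, inner_neg_right, Complex.neg_im, mul_neg]

lemma continuous_negDef (hπ : IsURep π) (c : ι → ℝ) : Continuous (negDef π η c) :=
  continuous_finsetSum _ fun _ _ => continuous_const.mul
    (continuous_const.inner (continuous_const.sub (hπ.cont _)))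

lemma IsCoord.exists_peak (h : IsCoord π N η C δ) (hπ : IsURep π) (hN : IsGleason N)
    {φ₀ : G → ℂ} (hφc : Continuous φ₀) (hφs : HasCompactSupport φ₀)
    (hφ1 : ∀ x, N x ≤ 1 → ‖φ₀ x - 1‖ ≤ 1 / 10)
    (hsep : ∀ x ∈ tsupport φ₀, δ ≤ N x → ∃ i, π x (η i) ≠ η i) :
    ∃ c : ι → ℝ, (∀ i, 0 < c i) ∧ ∃ s : ℝ, 0 < s ∧ ∃ k : ℕ,
      0 < (∫ x, φ₀ x * (s + negDef π η c x)⁻¹ ^ k ∂μ).re := by
  obtain ⟨c, hc, hsmall⟩ := h.exists_weights_small hπ hN
  obtain ⟨v, hv, hvol⟩ := h.volume_lower (μ := μ) hπ hN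
  refine ⟨c, hc, ?_⟩
  set ψ := negDef π η c
  set m := Fintype.card ι
  have hδ := h.pos
  have hterm : ∀ x i, 0 ≤ c i * (‖π x (η i) - η i‖ ^ 2 / 2) := fun x i =>
    mul_nonneg (hc i).le (by positivity)
  have hre0 : ∀ x, 0 ≤ (ψ x).re := fun x => by
    rw [negDef_re hπ]; exact Finset.sum_nonneg fun i _ => hterm x i
  have hsingle : ∀ x i, c i * (‖π x (η i) - η i‖ ^ 2 / 2) ≤ (ψ x).re := fun x i => by
    rw [negDef_re hπ]
    exact Finset.single_le_sum (fun i _ => hterm x i) (Finset.mem_univ i)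
  -- lower bound for the real part
  set S := 2 * (∑ i, ‖η i‖ ^ 2 / c i) + 1
  have hS0 : 0 ≤ ∑ i, ‖η i‖ ^ 2 / c i :=
    Finset.sum_nonneg fun i _ => div_nonneg (sq_nonneg _) (hc i).le
  have hS : 0 < S := by positivity
  have hlow : ∀ x, N x < δ → δ ^ 2 / S * N x ^ 2 ≤ (ψ x).re := by
    intro x hx
    rcases (hN.nonneg x).eq_or_lt with h0 | h0
    · rw [← h0]; simpa using hre0 x
    obtain ⟨i, hi⟩ := h.coord x h0 hx
    have h1 : δ * N x ≤ ‖η i‖ * ‖π x (η i) - η i‖ := by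
      have := abs_ell_le (π := π) (η i) x
      rw [abs_le] at this
      linarith [this.1]
    have h2 := pow_le_pow_left₀ (by positivity) h1 2
    have h3 : ‖η i‖ ^ 2 / c i ≤ ∑ i, ‖η i‖ ^ 2 / c i :=
      Finset.single_le_sum (f := fun i => ‖η i‖ ^ 2 / c i)
        (fun i _ => div_nonneg (sq_nonneg _) (hc i).le) (Finset.mem_univ i)
    have h4 : (‖η i‖ * ‖π x (η i) - η i‖) ^ 2 =
        2 * (‖η i‖ ^ 2 / c i) * (c i * (‖π x (η i) - η i‖ ^ 2 / 2)) := by
      have := (hc i).ne'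
      field_simp
    rw [div_mul_eq_mul_div, div_le_iff₀' hS, ← mul_pow]
    refine h2.trans (h4.le.trans (mul_le_mul (by simp only [S]; linarith) (hsingle x i)
      (hterm x i) hS.le))
  -- upper bound for the real part
  set A := (∑ i, c i) * C ^ 2
  have hA : 0 ≤ A := mul_nonneg (Finset.sum_nonneg fun i _ => (hc i).le) (sq_nonneg _)
  have hup : ∀ x, (ψ x).re ≤ A * N x ^ 2 := by
    intro x
    rw [negDef_re hπ]
    simp only [A, Finset.sum_mul]
    refine Finset.sum_le_sum fun i _ => ?_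
    rw [mul_assoc, ← mul_pow]
    refine mul_le_mul_of_nonneg_left ?_ (hc i).le
    have := pow_le_pow_left₀ (norm_nonneg _) ((h.smooth i).lip x) 2
    nlinarith [sq_nonneg ‖π x (η i) - η i‖]
  set ε : ℝ := 1 / (20 * (m + 1))
  have hε : 0 < ε := by positivity
  have hε1 : ε ≤ 1 := by
    rw [div_le_one (by positivity)]
    have : (0 : ℝ) ≤ m := Nat.cast_nonneg m
    linarith
  obtain ⟨r₀, hr₀, hr₀'⟩ := hsmall (ε * (δ ^ 2 / S)) (by positivity)
  set r := min (min 1 δ) r₀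
  have hr : 0 < r := by positivity
  have hr1 : r ≤ 1 := (min_le_left _ _).trans (min_le_left _ _)
  have hrδ : r ≤ δ := (min_le_left _ _).trans (min_le_right _ _)
  have him : ∀ x, N x < r → |(ψ x).im| ≤ ε * (ψ x).re := by
    intro x hx
    rw [negDef_im, abs_neg]
    refine (hr₀' x (hx.trans_le (min_le_right _ _))).trans ?_
    rw [mul_assoc]
    exact mul_le_mul_of_nonneg_left (hlow x (hx.trans_le hrδ)) hε.le
  -- far region
  set K := tsupport φ₀
  have hK : IsCompact K := hφs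
  have hψc : Continuous ψ := continuous_negDef hπ c
  obtain ⟨a₀, ha₀, ha₀'⟩ : ∃ a₀ > 0, ∀ x ∈ K, r ≤ N x → a₀ ≤ (ψ x).re := by
    have hT : IsCompact (K ∩ {x | r ≤ N x}) := hK.inter_right (isClosed_le continuous_const hN.cont)
    obtain ⟨a₀, ha₀, h1⟩ := hT.exists_forall_le' (f := fun x => (ψ x).re)
      (Complex.continuous_re.comp hψc).continuousOn (a := 0) (fun x hx => by
        rcases lt_or_ge (N x) δ with h1 | h1
        · have : 0 < N x := hr.trans_le hx.2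
          exact lt_of_lt_of_le (by positivity) (hlow x h1)
        · obtain ⟨i, hi⟩ := hsep x hx.1 h1
          have : 0 < ‖π x (η i) - η i‖ := norm_pos_iff.2 (sub_ne_zero.2 hi)
          exact lt_of_lt_of_le (mul_pos (hc i) (by positivity)) (hsingle x i))
    exact ⟨a₀, ha₀, fun x hx hx' => h1 x ⟨hx, hx'⟩⟩
  obtain ⟨M, hM⟩ := hφc.bounded_above_of_compact_support hφs
  have hM0 : 0 ≤ M := (norm_nonneg _).trans (hM 1)
  set M₀ := M * a₀⁻¹ ^ (m + 1)
  have hM₀ : 0 ≤ M₀ := by positivity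
  set P := 1 / 2 * (1 + 2 * A)⁻¹ ^ (m + 1) * v
  have hP : 0 < P := by positivity
  have hQ : 0 ≤ M₀ * μ.real K := mul_nonneg hM₀ measureReal_nonneg
  set ρ := min r (P / (M₀ * μ.real K + 1))
  have hρ : 0 < ρ := by positivity
  have hρr : ρ ≤ r := min_le_left _ _
  have hρ1 : ρ ≤ 1 := hρr.trans hr1
  have hρP : M₀ * μ.real K < P / ρ := by
    have h1 : ρ ≤ P / (M₀ * μ.real K + 1) := min_le_right _ _
    rw [le_div_iff₀ (by positivity)] at h1
    rw [lt_div_iff₀ hρ]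
    nlinarith
  refine ⟨ρ ^ 2, by positivity, m + 1, ?_⟩
  have hwre : ∀ x, (((ρ ^ 2 : ℝ) : ℂ) + ψ x).re = ρ ^ 2 + (ψ x).re := fun x => by
    rw [Complex.add_re, Complex.ofReal_re]
  have hwim : ∀ x, (((ρ ^ 2 : ℝ) : ℂ) + ψ x).im = (ψ x).im := fun x => by
    rw [Complex.add_im, Complex.ofReal_im, zero_add]
  have hwpos : ∀ x, 0 < (((ρ ^ 2 : ℝ) : ℂ) + ψ x).re := fun x => by
    rw [hwre]; have := hre0 x; positivity
  have hgc : Continuous fun x => φ₀ x * (((ρ ^ 2 : ℝ) : ℂ) + ψ x)⁻¹ ^ (m + 1) :=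
    hφc.mul (((continuous_const.add hψc).inv₀ fun x hx => by
      have := hwpos x
      rw [show ((ρ ^ 2 : ℝ) : ℂ) + ψ x = 0 from hx] at this
      simp at this).pow _)
  have hgi : Integrable (fun x => φ₀ x * (((ρ ^ 2 : ℝ) : ℂ) + ψ x)⁻¹ ^ (m + 1)) μ :=
    hgc.integrable_of_hasCompactSupport hφs.mul_right
  have hnear : ∀ x, N x < r → 1 / 2 * ‖((ρ ^ 2 : ℝ) : ℂ) + ψ x‖⁻¹ ^ (m + 1) ≤
      (φ₀ x * (((ρ ^ 2 : ℝ) : ℂ) + ψ x)⁻¹ ^ (m + 1)).re := by
    intro x hx
    refine re_mul_inv_pow (hφ1 x (hx.le.trans hr1)) (hwpos x) hε.le ?_ (le_of_eq ?_)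
    · rw [hwim, hwre]
      exact (him x hx).trans (mul_le_mul_of_nonneg_left (by nlinarith) hε.le)
    · simp only [ε]
      push_cast
      field_simp
  set a := 1 / 2 * ((1 + 2 * A) * ρ ^ 2)⁻¹ ^ (m + 1)
  have hBm : MeasurableSet {x | N x < ρ} := (isOpen_lt hN.cont continuous_const).measurableSet
  have hi1 : Integrable (({x | N x < ρ}).indicator fun _ => a) μ :=
    (integrable_indicator_iff hBm).2 (integrableOn_const (hN.measure_ball_ne_top hρ1))
  have hi2 : Integrable (K.indicator fun _ => M₀) μ :=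
    (integrable_indicator_iff hK.measurableSet).2 (integrableOn_const hK.measure_ne_top)
  have hle : ∀ x, ({x | N x < ρ}).indicator (fun _ => a) x - K.indicator (fun _ => M₀) x ≤
      (φ₀ x * (((ρ ^ 2 : ℝ) : ℂ) + ψ x)⁻¹ ^ (m + 1)).re := by
    intro x
    have h0 : 0 ≤ K.indicator (fun _ => M₀) x := indicator_nonneg (fun _ _ => hM₀) x
    by_cases hx : N x < ρ
    · rw [indicator_of_mem (show x ∈ {x | N x < ρ} from hx)]
      refine le_trans ((sub_le_self _ h0).trans ?_) (hnear x (hx.trans_le hρr))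
      have h1 : ‖((ρ ^ 2 : ℝ) : ℂ) + ψ x‖ ≤ (1 + 2 * A) * ρ ^ 2 := by
        refine (Complex.norm_le_abs_re_add_abs_im _).trans ?_
        rw [abs_of_pos (hwpos x), hwre, hwim]
        have h2 := him x (hx.trans_le hρr)
        have h3 : ε * (ψ x).re ≤ (ψ x).re := mul_le_of_le_one_left (hre0 x) hε1
        have h4 : A * N x ^ 2 ≤ A * ρ ^ 2 :=
          mul_le_mul_of_nonneg_left (pow_le_pow_left₀ (hN.nonneg _) hx.le 2) hA
        linarith [hup x]
      have h2 : 0 < ‖((ρ ^ 2 : ℝ) : ℂ) + ψ x‖ := (hwpos x).trans_le (Complex.re_le_norm _)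
      simp only [a]
      gcongr
    · rw [indicator_of_notMem (show x ∉ {x | N x < ρ} from hx), zero_sub]
      by_cases hxr : N x < r
      · exact le_trans ((neg_nonpos.2 h0).trans (by positivity)) (hnear x hxr)
      by_cases hxK : x ∈ K
      · rw [indicator_of_mem hxK]
        refine neg_le_of_abs_le ((Complex.abs_re_le_norm _).trans ?_)
        rw [norm_mul, norm_pow, norm_inv]
        have h1 : a₀ ≤ ‖((ρ ^ 2 : ℝ) : ℂ) + ψ x‖ := by
          refine le_trans ?_ (Complex.re_le_norm _)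
          rw [hwre]
          linarith [ha₀' x hxK (not_lt.1 hxr), sq_nonneg ρ]
        have := hM x
        simp only [M₀]
        gcongr
      · rw [indicator_of_notMem hxK, image_eq_zero_of_notMem_tsupport hxK]
        simp
  have h1 := integral_mono (hi1.sub hi2) hgi.re hle
  rw [integral_re hgi] at h1
  refine lt_of_lt_of_le ?_ h1
  simp only [Pi.sub_apply]
  rw [integral_sub hi1 hi2, integral_indicator_const _ hBm, integral_indicator_const _
    hK.measurableSet, smul_eq_mul, smul_eq_mul, sub_pos, mul_comm _ M₀]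
  refine hρP.trans_le (le_trans ?_ (mul_le_mul_of_nonneg_right (hvol ρ hρ hρ1) (by positivity)))
  have e : v * ρ ^ m * a = P / ρ ^ (m + 2) := by
    simp only [a, P, mul_inv, mul_pow, inv_pow, ← pow_mul]
    rw [show 2 * (m + 1) = m + (m + 2) by ring, pow_add ρ m]
    field_simp
  rw [e]
  exact div_le_div_of_nonneg_left hP.le (by positivity) (pow_le_of_le_one hρ.le hρ1 (by omega))

universe u

/-- The abstract core of the argument. -/
theorem exists_peak [LocallyCompactSpace G] {H : Type u} [NormedAddCommGroup H]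
    [InnerProductSpace ℂ H] [CompleteSpace H] {π : G →* (H →L[ℂ] H)}
    (hπ : IsURep π) (hf : ∀ x : G, x ≠ 1 → ∃ ξ, π x ξ ≠ ξ)
    (hno : ∀ N, IsGleason N → NoOneSided π N)
    {φ₀ : G → ℂ} (hφc : Continuous φ₀) (hφs : HasCompactSupport φ₀) (hφ1 : φ₀ 1 = 1) :
    ∃ (ι : Type u) (_ : Fintype ι) (η : ι → H) (c : ι → ℝ), (∀ i, 0 < c i) ∧ ∃ s : ℝ, 0 < s ∧
      ∃ k : ℕ, 0 < (∫ x, φ₀ x * (s + negDef π η c x)⁻¹ ^ k ∂μ).re := by
  obtain ⟨K₀, hK₀, hK₀1⟩ := exists_compact_mem_nhds (1 : G)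
  have hV : {x | ‖φ₀ x - 1‖ < 1 / 10} ∈ 𝓝 (1 : G) :=
    (isOpen_lt (hφc.sub continuous_const).norm continuous_const).mem_nhds (by simp [hφ1])
  have hK : IsCompact (tsupport φ₀) := hφs
  obtain ⟨N, hN, hNV, F, hF, hF'⟩ := gleason_yamabe hπ hf (hK₀.union hK) (inter_mem hV hK₀1)
  obtain ⟨F₀, C, δ, h, hsep⟩ := exists_isCoord hπ hN (hno N hN) hK (fun x h0 hx => by
    by_contra hcon
    push Not at hcon
    refine h0.ne' (hF' x (hx.imp (fun h => (hNV x h).2) id) fun v hv => ?_)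
    exact closure_minimal (s := (smooth π N : Set H)) (t := {v | π x v = v}) hcon
      (isClosed_eq (π x).continuous continuous_id)
      (mem_closure_smooth hπ hN fun y hy => hF y hy v hv))
  obtain ⟨c, hc, s, hs, k, hk⟩ := h.exists_peak (μ := μ) hπ hN hφc hφs
    (fun x hx => (hNV x hx).1.le) hsep
  exact ⟨F₀, inferInstance, _, c, hc, s, hs, k, hk⟩

end Pool.Agent.MP_2da52b_an

end MrgPart2

-- ======== part 3: formerly Pool.Agent.MP_2da52b_an.Character
section MrgPart3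

/-!
If every character of the algebra is a point evaluation, then no one-parameter subgroup has
one-sided spectrum.
-/

set_option linter.unusedSectionVars false

open Set Filter Topology MeasureTheory
open scoped Pointwise InnerProductSpace BoundedContinuousFunction

namespace Pool.Agent.MP_2da52b_an

variable {G : Type*} [Group G] [TopologicalSpace G] [IsTopologicalGroup G] {N : G → ℝ}
variable {H : Type*} [NormedAddCommGroup H] [InnerProductSpace ℂ H] [CompleteSpace H]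
  {π : G →* (H →L[ℂ] H)}

/-- Matrix coefficients as bounded continuous functions. -/
noncomputable def IsURep.cf (hπ : IsURep π) (η ζ : H) : G →ᵇ ℂ :=
  BoundedContinuousFunction.ofNormedAddCommGroup (fun y => ⟪ζ, π y⁻¹ η⟫_ℂ)
    (continuous_const.inner ((hπ.cont η).comp continuous_inv)) (‖ζ‖ * ‖η‖)
    (fun y => (norm_inner_le_norm _ _).trans (by rw [hπ.norm_eq]))

lemma IsURep.cf_apply (hπ : IsURep π) (η ζ : H) (y : G) : hπ.cf η ζ y = ⟪ζ, π y⁻¹ η⟫_ℂ := rfl

/-- The unitization of a non-unital subalgebra. -/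
def unitize {R : Type*} [CommRing R] [Algebra ℂ R] (A : NonUnitalSubalgebra ℂ R) :
    Subalgebra ℂ R where
  carrier := {f | ∃ c : ℂ, ∃ a ∈ A, f = algebraMap ℂ R c + a}
  mul_mem' := by
    rintro _ _ ⟨c, a, ha, rfl⟩ ⟨d, b, hb, rfl⟩
    refine ⟨c * d, c • b + d • a + a * b,
      add_mem (add_mem (SMulMemClass.smul_mem c hb) (SMulMemClass.smul_mem d ha)) (mul_mem ha hb), ?_⟩
    simp only [Algebra.smul_def, map_mul]
    ring
  add_mem' := by
    rintro _ _ ⟨c, a, ha, rfl⟩ ⟨d, b, hb, rfl⟩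
    exact ⟨c + d, a + b, add_mem ha hb, by rw [map_add]; ring⟩
  algebraMap_mem' := fun c => ⟨c, 0, zero_mem _, by simp⟩

lemma mem_unitize_closure {A : NonUnitalSubalgebra ℂ (G →ᵇ ℂ)} {u : G →ᵇ ℂ}
    (hu : u ∈ closure (A : Set (G →ᵇ ℂ))) : u ∈ (unitize A).topologicalClosure :=
  closure_mono (s := (A : Set (G →ᵇ ℂ))) (t := (unitize A : Set (G →ᵇ ℂ)))
    (fun a ha => ⟨0, a, ha, by simp⟩) hu

lemma unitize_closure_induction {A : NonUnitalSubalgebra ℂ (G →ᵇ ℂ)} (S : Submodule ℂ (G →ᵇ ℂ))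
    (hS : IsClosed (S : Set (G →ᵇ ℂ))) (h1 : 1 ∈ S) (hA : ∀ a ∈ A, a ∈ S) {u : G →ᵇ ℂ}
    (hu : u ∈ (unitize A).topologicalClosure) : u ∈ S := by
  refine closure_minimal ?_ hS hu
  rintro _ ⟨c, a, ha, rfl⟩
  rw [Algebra.algebraMap_eq_smul_one]
  exact add_mem (S.smul_mem c h1) (hA a ha)

/-- Uniform continuity with respect to `N`. -/
def UC (N : G → ℝ) (u : G →ᵇ ℂ) : Prop :=
  ∀ ε > 0, ∃ r > 0, ∀ z, N z < r → ∀ x, ‖u (z⁻¹ * x) - u x‖ ≤ ε

lemma UC.of_lip {u : G →ᵇ ℂ} {C : ℝ} (hC : 0 ≤ C) (hN : IsLength N)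
    (h : ∀ z x, ‖u (z⁻¹ * x) - u x‖ ≤ C * N z) : UC N u := by
  intro ε hε
  refine ⟨ε / (C + 1), by positivity, fun z hz x => (h z x).trans ?_⟩
  rw [lt_div_iff₀ (by positivity)] at hz
  nlinarith [hN.nonneg z]

lemma UC.mul {u v : G →ᵇ ℂ} (hu : UC N u) (hv : UC N v) : UC N (u * v) := by
  intro ε hε
  set δ := ε / (‖u‖ + ‖v‖ + 1)
  have hδ : 0 < δ := by positivity
  have hδ' : δ * (‖u‖ + ‖v‖ + 1) = ε := by simp only [δ]; field_simp
  obtain ⟨r, hr, h1⟩ := hu δ hδ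
  obtain ⟨s, hs, h2⟩ := hv δ hδ
  refine ⟨min r s, by positivity, fun z hz x => ?_⟩
  have e : (u * v) (z⁻¹ * x) - (u * v) x =
      u (z⁻¹ * x) * (v (z⁻¹ * x) - v x) + (u (z⁻¹ * x) - u x) * v x := by
    simp only [BoundedContinuousFunction.mul_apply]; ring
  rw [e]
  refine (norm_add_le _ _).trans ?_
  rw [norm_mul, norm_mul]
  have h3 := mul_le_mul (u.norm_coe_le_norm (z⁻¹ * x)) (h2 z (hz.trans_le (min_le_right _ _)) x)
    (norm_nonneg _) (norm_nonneg _)
  have h4 := mul_le_mul (h1 z (hz.trans_le (min_le_left _ _)) x) (v.norm_coe_le_norm x)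
    (norm_nonneg _) hδ.le
  nlinarith

lemma UC.sub_const {u : G →ᵇ ℂ} (hu : UC N u) (c : ℂ) : UC N (u - algebraMap ℂ _ c) := by
  intro ε hε
  obtain ⟨r, hr, h⟩ := hu ε hε
  exact ⟨r, hr, fun z hz x => by simpa using h z hz x⟩

lemma UC.continuous {u : G →ᵇ ℂ} (hu : UC N u) {γ : ℝ → G} (hγ : IsOneParam N γ) :
    Continuous fun t => u (γ t)⁻¹ := by
  refine Metric.continuous_iff.2 fun s ε hε => ?_
  obtain ⟨r, hr, h⟩ := hu (ε / 2) (half_pos hε)
  refine ⟨r, hr, fun t ht => ?_⟩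
  have := h ((γ s)⁻¹ * γ t) ((hγ.lip s t).trans_lt (by rwa [abs_sub_comm, ← Real.dist_eq])) (γ s)⁻¹
  simp only [mul_inv_rev, inv_inv, mul_inv_cancel_right] at this
  rw [dist_eq_norm]
  linarith

lemma IsURep.uc_cf (hπ : IsURep π) (hN : IsLength N) {η : H} (hη : η ∈ smooth π N) (ζ : H) :
    UC N (hπ.cf η ζ) := by
  obtain ⟨C, hC⟩ := hη
  refine UC.of_lip (C := ‖ζ‖ * C) (mul_nonneg (norm_nonneg _) hC.nonneg) hN fun z x => ?_
  rw [hπ.cf_apply, hπ.cf_apply, ← inner_sub_right, mul_inv_rev, inv_inv, IsURep.mul_apply,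
    ← map_sub, mul_assoc]
  refine (norm_inner_le_norm _ _).trans (mul_le_mul_of_nonneg_left ?_ (norm_nonneg _))
  rw [hπ.norm_eq]
  exact hC.lip z

variable [MeasurableSpace G] [BorelSpace G] [T2Space G] {μ : Measure G} [μ.IsHaarMeasure]
  {r : ℝ} {φ : G → ℝ}

lemma IsBump.exists_lconv_lip (h : IsBump N μ r φ) (hN : IsLength N) :
    ∃ c, 0 ≤ c ∧ ∀ (u : G →ᵇ ℂ) (w x : G), ‖∫ z, φ z • u (z⁻¹ * (w⁻¹ * x)) ∂μ -
      ∫ z, φ z • u (z⁻¹ * x) ∂μ‖ ≤ c * ‖u‖ * N w := by
  obtain ⟨c, hc, hb⟩ := h.exists_diff_bound (E := ℂ) hN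
  refine ⟨c, hc, fun u w x => ?_⟩
  have hu : Continuous fun z => u (z⁻¹ * x) := by fun_prop
  have e : ∫ z, φ z • u (z⁻¹ * (w⁻¹ * x)) ∂μ = ∫ z, φ (w⁻¹ * z) • u (z⁻¹ * x) ∂μ := by
    rw [← integral_mul_left_eq_self (fun z => φ (w⁻¹ * z) • u (z⁻¹ * x)) w]
    simp [mul_assoc]
  rw [e, ← integral_sub (h.integrable' hu w) (h.integrable hu)]
  simp only [← sub_smul]
  exact (hb w _ ‖u‖ (norm_nonneg _) fun z _ => u.norm_coe_le_norm _).trans (le_of_eq (by ring))

/-- Left convolution by a bump function. -/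
noncomputable def IsBump.lconv (h : IsBump N μ r φ) (hN : IsGleason N) :
    (G →ᵇ ℂ) →L[ℂ] (G →ᵇ ℂ) :=
  LinearMap.mkContinuous
    { toFun := fun u => BoundedContinuousFunction.ofNormedAddCommGroup
        (fun x => ∫ z, φ z • u (z⁻¹ * x) ∂μ) (by
          obtain ⟨c, hc, hb⟩ := h.exists_lconv_lip hN.toIsLength
          refine continuous_iff_continuousAt.2 fun x => ?_
          rw [ContinuousAt, tendsto_iff_norm_sub_tendsto_zero]
          have h1 : Continuous fun y => c * ‖u‖ * N (x * y⁻¹) :=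
            continuous_const.mul (hN.cont.comp (by fun_prop))
          have h2 := h1.tendsto x
          simp only [mul_inv_cancel, hN.one, mul_zero] at h2
          refine squeeze_zero (fun _ => norm_nonneg _) (fun y => ?_) h2
          simpa using hb u (x * y⁻¹) x) ‖u‖
        (fun x => h.norm_integral_le fun z _ => u.norm_coe_le_norm _)
      map_add' := fun u v => by
        ext x
        simp only [BoundedContinuousFunction.coe_ofNormedAddCommGroup,
          BoundedContinuousFunction.add_apply, smul_add]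
        exact integral_add (h.integrable (by fun_prop)) (h.integrable (by fun_prop))
      map_smul' := fun c u => by
        ext x
        simp only [BoundedContinuousFunction.coe_ofNormedAddCommGroup,
          BoundedContinuousFunction.smul_apply, RingHom.id_apply, smul_comm (φ _) c]
        exact integral_smul _ _ } 1 fun u => by
      rw [one_mul]
      exact (BoundedContinuousFunction.norm_le (norm_nonneg u)).2
        fun x => h.norm_integral_le fun z _ => u.norm_coe_le_norm _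

lemma IsBump.lconv_apply (h : IsBump N μ r φ) (hN : IsGleason N) (u : G →ᵇ ℂ) (x : G) :
    h.lconv hN u x = ∫ z, φ z • u (z⁻¹ * x) ∂μ := rfl

lemma IsBump.norm_lconv_le (h : IsBump N μ r φ) (hN : IsGleason N) (u : G →ᵇ ℂ) :
    ‖h.lconv hN u‖ ≤ ‖u‖ :=
  (BoundedContinuousFunction.norm_le (norm_nonneg u)).2
    fun _ => h.norm_integral_le fun _ _ => u.norm_coe_le_norm _

lemma IsBump.uc_lconv (h : IsBump N μ r φ) (hN : IsGleason N) (u : G →ᵇ ℂ) :
    UC N (h.lconv hN u) := by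
  obtain ⟨c, hc, hb⟩ := h.exists_lconv_lip hN.toIsLength
  exact UC.of_lip (C := c * ‖u‖) (by positivity) hN.toIsLength fun z x => hb u z x

lemma IsBump.lconv_one (h : IsBump N μ r φ) (hN : IsGleason N) : h.lconv hN 1 = 1 := by
  ext x
  rw [h.lconv_apply]
  simp only [BoundedContinuousFunction.coe_one, Pi.one_apply]
  rw [integral_smul_const, h.integral, one_smul]

lemma IsBump.lconv_cf (h : IsBump N μ r φ) (hN : IsGleason N) (hπ : IsURep π) (η ζ : H) :
    h.lconv hN (hπ.cf η ζ) = hπ.cf (conv π μ φ η) ζ := by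
  ext x
  rw [h.lconv_apply, hπ.cf_apply, hπ.inner_right, conv,
    ← integral_inner (h.integrable (hπ.cont η))]
  refine integral_congr_ae (Eventually.of_forall fun z => ?_)
  simp only [hπ.cf_apply, mul_inv_rev, inv_inv, IsURep.mul_apply]
  rw [hπ.inner_right, inv_inv, ← Complex.coe_smul, ← Complex.coe_smul, inner_smul_right,
    smul_eq_mul]

lemma IsBump.norm_lconv_mul_sub (h : IsBump N μ r φ) (hN : IsGleason N) (a k : G →ᵇ ℂ) {ε : ℝ}
    (hε : 0 ≤ ε) (hk : ∀ z, N z < r → ∀ x, ‖k (z⁻¹ * x) - k x‖ ≤ ε) :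
    ‖h.lconv hN (a * k) - h.lconv hN a * k‖ ≤ ‖a‖ * ε := by
  refine (BoundedContinuousFunction.norm_le (by positivity)).2 fun x => ?_
  have e : (h.lconv hN (a * k) - h.lconv hN a * k) x =
      ∫ z, φ z • (a (z⁻¹ * x) * (k (z⁻¹ * x) - k x)) ∂μ := by
    simp only [BoundedContinuousFunction.sub_apply, BoundedContinuousFunction.mul_apply,
      h.lconv_apply, mul_sub, smul_sub]
    rw [integral_sub (h.integrable (by fun_prop)) (h.integrable (by fun_prop)),
      ← integral_mul_const]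
    simp only [smul_mul_assoc]
  rw [e]
  refine h.norm_integral_le fun z hz => ?_
  rw [norm_mul]
  exact mul_le_mul (a.norm_coe_le_norm _) (hk z hz x) (norm_nonneg _) (norm_nonneg _)

lemma norm_integral_cker_sub_le {w : ℂ} (hw : w.im ≠ 0) {g₁ g₂ : ℝ → ℂ} (h₁ : Continuous g₁)
    (h₂ : Continuous g₂) {M₁ M₂ ε : ℝ} (hM₁ : ∀ t, ‖g₁ t‖ ≤ M₁) (hM₂ : ∀ t, ‖g₂ t‖ ≤ M₂)
    (hε : ∀ t, ‖g₁ t - g₂ t‖ ≤ ε) :
    ‖(∫ t, cker w t ^ 2 • g₁ t) - ∫ t, cker w t ^ 2 • g₂ t‖ ≤ (∫ t, ‖cker w t‖ ^ 2) * ε := by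
  rw [← integral_sub (integrable_cker_sq_smul hw h₁ hM₁) (integrable_cker_sq_smul hw h₂ hM₂),
    ← integral_mul_const]
  refine norm_integral_le_of_norm_le ((integrable_norm_cker_sq hw).mul_const ε)
    (Eventually.of_forall fun t => ?_)
  rw [← smul_sub, norm_smul, norm_pow]
  exact mul_le_mul_of_nonneg_left (hε t) (by positivity)

lemma oneSided_of_approx {u : G →ᵇ ℂ} (hu : UC N u) {γ : ℝ → G} (hγ : IsOneParam N γ)
    (h : ∀ ε > 0, ∃ v : G →ᵇ ℂ, UC N v ∧ OneSided (fun t => v (γ t)⁻¹) ∧ ‖u - v‖ ≤ ε) :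
    OneSided fun t => u (γ t)⁻¹ := by
  intro w hw
  refine norm_le_zero_iff.1 (le_of_forall_pos_le_add fun ε hε => ?_)
  have hI : 0 ≤ ∫ t, ‖cker w t‖ ^ 2 := integral_nonneg fun t => by positivity
  obtain ⟨v, hv, hv', huv⟩ := h (ε / ((∫ t, ‖cker w t‖ ^ 2) + 1)) (by positivity)
  have := norm_integral_cker_sub_le hw.ne (hu.continuous hγ) (hv.continuous hγ)
    (fun t => u.norm_coe_le_norm _) (fun t => v.norm_coe_le_norm _)
    (fun t => ((u - v).norm_coe_le_norm (γ t)⁻¹).trans huv)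
  rw [hv' w hw, sub_zero] at this
  refine this.trans ?_
  rw [zero_add, mul_div_assoc', div_le_iff₀ (by positivity)]
  nlinarith

lemma pois_add {g₁ g₂ : ℝ → ℂ} (h₁ : Continuous g₁) (h₂ : Continuous g₂) {M₁ M₂ : ℝ}
    (hM₁ : ∀ t, ‖g₁ t‖ ≤ M₁) (hM₂ : ∀ t, ‖g₂ t‖ ≤ M₂) (z : ℂ) :
    pois (fun t => g₁ t + g₂ t) z = pois g₁ z + pois g₂ z := by
  simp only [pois, smul_add]
  exact integral_add (integrable_pois h₁ hM₁ z) (integrable_pois h₂ hM₂ z)

lemma pois_sub {g₁ g₂ : ℝ → ℂ} (h₁ : Continuous g₁) (h₂ : Continuous g₂) {M₁ M₂ : ℝ}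
    (hM₁ : ∀ t, ‖g₁ t‖ ≤ M₁) (hM₂ : ∀ t, ‖g₂ t‖ ≤ M₂) (z : ℂ) :
    pois (fun t => g₁ t - g₂ t) z = pois g₁ z - pois g₂ z := by
  simp only [pois, smul_sub]
  exact integral_sub (integrable_pois h₁ hM₁ z) (integrable_pois h₂ hM₂ z)

omit [MeasurableSpace G] [BorelSpace G] in
lemma oneSided_of_mem [LocallyCompactSpace G] (hπ : IsURep π) (hN : IsGleason N)
    {A : NonUnitalSubalgebra ℂ (G →ᵇ ℂ)}
    (h2 : ∀ a ∈ A, a ∈ closure {u | ∃ η ζ, u = hπ.cf η ζ}) {γ : ℝ → G} (hγ : IsOneParam N γ)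
    (hv : ∀ η ∈ smooth π N, ∀ w : ℂ, w.im < 0 → ∫ t, cker w t ^ 2 • π (γ t) η = 0)
    {u : G →ᵇ ℂ} (hu : u ∈ (unitize A).topologicalClosure) (huc : UC N u) :
    OneSided fun t => u (γ t)⁻¹ := by
  borelize G
  refine oneSided_of_approx huc hγ fun ε hε => ?_
  obtain ⟨r, hr, hr'⟩ := huc (ε / 2) (half_pos hε)
  obtain ⟨φ, hφ⟩ := hN.exists_isBump Measure.haar (r := min r (1 / 4)) (by positivity)
    ((min_le_right _ _).trans (by norm_num))
  refine ⟨hφ.lconv hN (hφ.lconv hN u), hφ.uc_lconv hN _, ?_, ?_⟩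
  · let S : Submodule ℂ (G →ᵇ ℂ) :=
      { carrier := {u | OneSided fun t => hφ.lconv hN (hφ.lconv hN u) (γ t)⁻¹}
        zero_mem' := by simpa using oneSided_const 0
        add_mem' := fun {a b} ha hb w hw => by
          simp only [map_add, BoundedContinuousFunction.add_apply, smul_add]
          rw [integral_add, ha w hw, hb w hw, add_zero] <;>
          exact integrable_cker_sq_smul hw.ne ((hφ.uc_lconv hN _).continuous hγ)
            fun t => BoundedContinuousFunction.norm_coe_le_norm _ _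
        smul_mem' := fun c a ha w hw => by
          simp only [map_smul, BoundedContinuousFunction.smul_apply, smul_comm _ c]
          rw [integral_smul, ha w hw, smul_zero] }
    have hS : IsClosed (S : Set (G →ᵇ ℂ)) := by
      refine isClosed_of_closure_subset fun a ha => ?_
      refine oneSided_of_approx (hφ.uc_lconv hN _) hγ fun δ hδ => ?_
      obtain ⟨b, hb, hab⟩ := Metric.mem_closure_iff.1 ha δ hδ
      refine ⟨_, hφ.uc_lconv hN _, hb, ?_⟩
      rw [← map_sub, ← map_sub]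
      rw [dist_eq_norm] at hab
      exact (hφ.norm_lconv_le hN _).trans ((hφ.norm_lconv_le hN _).trans hab.le)
    refine unitize_closure_induction S hS ?_ (fun a ha => closure_minimal ?_ hS (h2 a ha)) hu
    · change OneSided _
      rw [hφ.lconv_one, hφ.lconv_one]
      exact oneSided_const 1
    · rintro _ ⟨η, ζ, rfl⟩ w hw
      obtain ⟨C, hC⟩ := hφ.conv_conv_mem hπ hN (min_le_right _ _) η
      have h3 := congrArg (fun v => ⟪ζ, v⟫_ℂ) (hv _ ⟨C, hC⟩ w hw)
      simp only [inner_zero_right] at h3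
      rw [← integral_inner (integrable_cker_sq_smul hw.ne (hγ.continuous hπ hC.nonneg hC.lip)
        (fun t => (hπ.norm_eq _ _).le))] at h3
      simpa only [hφ.lconv_cf hN hπ, hπ.cf_apply, inv_inv, inner_smul_right, smul_eq_mul] using h3
  · have h3 := hφ.norm_lconv_mul_sub hN 1 u (half_pos hε).le
      fun z hz => hr' z (hz.trans_le (min_le_left _ _))
    rw [hφ.lconv_one, one_mul] at h3
    have h4 : ‖(1 : G →ᵇ ℂ)‖ * (ε / 2) ≤ ε / 2 := by simp
    have h5 := hφ.norm_lconv_le hN (hφ.lconv hN u - u)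
    rw [map_sub] at h5
    rw [norm_sub_rev]
    linarith [norm_sub_le_norm_sub_add_norm_sub (hφ.lconv hN (hφ.lconv hN u)) (hφ.lconv hN u) u]

omit [MeasurableSpace G] [BorelSpace G] in
/-- The Poisson integral along the one-parameter subgroup extends to a character. -/
lemma exists_character [LocallyCompactSpace G] (hπ : IsURep π) (hN : IsGleason N)
    {A : NonUnitalSubalgebra ℂ (G →ᵇ ℂ)} (h1 : ∀ η ζ, hπ.cf η ζ ∈ closure (A : Set (G →ᵇ ℂ)))
    (h2 : ∀ a ∈ A, a ∈ closure {u | ∃ η ζ, u = hπ.cf η ζ}) {γ : ℝ → G} (hγ : IsOneParam N γ)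
    (hv : ∀ η ∈ smooth π N, ∀ w : ℂ, w.im < 0 → ∫ t, cker w t ^ 2 • π (γ t) η = 0)
    {z : ℂ} (hz : 0 ≤ z.im) :
    ∃ χ : WeakDual.characterSpace ℂ (unitize A).topologicalClosure,
      ∀ u : (unitize A).topologicalClosure, UC N u →
        χ u = pois (fun t => (u : G →ᵇ ℂ) (γ t)⁻¹) z := by
  borelize G
  set B := (unitize A).topologicalClosure
  have hBc : IsClosed (B : Set (G →ᵇ ℂ)) := Subalgebra.isClosed_topologicalClosure _
  have : CompleteSpace B := hBc.completeSpace_coe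
  set P : (G →ᵇ ℂ) → ℂ := fun u => pois (fun t => u (γ t)⁻¹) z with hP
  have hPn : ∀ u, ‖P u‖ ≤ ‖u‖ := fun u => norm_pois_le (fun t => u.norm_coe_le_norm _) z
  have hPadd : ∀ u v, UC N u → UC N v → P (u + v) = P u + P v := fun u v hu hv =>
    pois_add (hu.continuous hγ) (hv.continuous hγ) (fun t => u.norm_coe_le_norm _)
      (fun t => v.norm_coe_le_norm _) z
  have hPsub : ∀ u v, UC N u → UC N v → P (u - v) = P u - P v := fun u v hu hv =>
    pois_sub (hu.continuous hγ) (hv.continuous hγ) (fun t => u.norm_coe_le_norm _)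
      (fun t => v.norm_coe_le_norm _) z
  have hPmul : ∀ u ∈ B, ∀ v ∈ B, UC N u → UC N v → P (u * v) = P u * P v :=
    fun u hu v hv' huc hvc => pois_mul (oneSided_of_mem hπ hN h2 hγ hv hu huc)
      (oneSided_of_mem hπ hN h2 hγ hv hv' hvc)
      (oneSided_of_mem hπ hN h2 hγ hv (mul_mem hu hv') (huc.mul hvc))
      (huc.continuous hγ) (hvc.continuous hγ) (fun t => u.norm_coe_le_norm _)
      (fun t => v.norm_coe_le_norm _) hz
  have hE : ∀ {r φ} (hφ : IsBump N Measure.haar r φ), ∀ u ∈ B, hφ.lconv hN u ∈ B := by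
    intro r φ hφ u hu
    have hcl : IsClosed ((B.toSubmodule.comap (hφ.lconv hN).toLinearMap : Submodule ℂ (G →ᵇ ℂ)) :
        Set (G →ᵇ ℂ)) := hBc.preimage (hφ.lconv hN).continuous
    refine unitize_closure_induction _ hcl ?_ (fun a ha => closure_minimal ?_ hcl (h2 a ha)) hu
    · change hφ.lconv hN 1 ∈ B
      rw [hφ.lconv_one]
      exact one_mem _
    · rintro _ ⟨η, ζ, rfl⟩
      change hφ.lconv hN _ ∈ B
      rw [hφ.lconv_cf]
      exact mem_unitize_closure (h1 _ _)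
  let J : Ideal B :=
    { carrier := {v | ∀ a : B, ∀ ε > 0, ∃ r > 0, ∀ ρ φ (hφ : IsBump N Measure.haar ρ φ), ρ ≤ r →
        ‖P (hφ.lconv hN (a * v : B))‖ ≤ ε}
      zero_mem' := fun a ε hε => ⟨1, one_pos, fun ρ φ hφ _ => (hPn _).trans (by simpa using hε.le)⟩
      add_mem' := fun {v w} hv hw a ε hε => by
        obtain ⟨r, hr, h3⟩ := hv a _ (half_pos hε)
        obtain ⟨s, hs, h4⟩ := hw a _ (half_pos hε)
        refine ⟨min r s, by positivity, fun ρ φ hφ hρ => ?_⟩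
        rw [mul_add, Subalgebra.coe_add, map_add, hPadd _ _ (hφ.uc_lconv hN _) (hφ.uc_lconv hN _)]
        refine (norm_add_le _ _).trans ?_
        linarith [h3 ρ φ hφ (hρ.trans (min_le_left _ _)), h4 ρ φ hφ (hρ.trans (min_le_right _ _))]
      smul_mem' := fun c v hv a ε hε => by
        simpa only [smul_eq_mul, mul_assoc] using hv (a * c) ε hε }
  have hJ : J ≠ ⊤ := by
    rw [Ideal.ne_top_iff_one]
    intro h
    obtain ⟨r, hr, h3⟩ := h 1 _ one_half_pos
    obtain ⟨φ, hφ⟩ := hN.exists_isBump Measure.haar (r := min r 1) (by positivity)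
      (min_le_right _ _)
    have h4 := h3 _ φ hφ (min_le_left _ _)
    rw [mul_one, Subalgebra.coe_one, hφ.lconv_one] at h4
    have h5 : P 1 = 1 := pois_const 1 z
    rw [h5] at h4
    norm_num at h4
  obtain ⟨M, hM, hJM⟩ := J.exists_le_maximal hJ
  refine ⟨M.toCharacterSpace, fun u hu => ?_⟩
  have hk : u - algebraMap ℂ B (P u) ∈ J := by
    intro a ε hε
    set k : B := u - algebraMap ℂ B (P u)
    have hkc : UC N k := hu.sub_const _
    have hk0 : P k = 0 := by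
      have h3 : P (algebraMap ℂ _ (P u)) = P u := by
        refine Eq.trans ?_ (pois_const (P u) z)
        simp [hP]
      have h4 : UC N (algebraMap ℂ (G →ᵇ ℂ) (P u)) := fun ε hε =>
        ⟨1, one_pos, fun z _ x => by simpa using hε.le⟩
      exact (hPsub _ _ hu h4).trans (by rw [h3, sub_self])
    obtain ⟨r, hr, h3⟩ := hkc (ε / (‖(a : G →ᵇ ℂ)‖ + 1)) (by positivity)
    refine ⟨r, hr, fun ρ φ hφ hρ => ?_⟩
    have h4 := hφ.norm_lconv_mul_sub hN a k (by positivity) fun z hz => h3 z (hz.trans_le hρ)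
    have h5 := hPsub _ _ (hφ.uc_lconv hN (a * k)) ((hφ.uc_lconv hN a).mul hkc)
    rw [hPmul _ (hE hφ _ a.2) _ k.2 (hφ.uc_lconv hN a) hkc, hk0, mul_zero, sub_zero] at h5
    rw [Subalgebra.coe_mul, ← h5]
    refine (hPn _).trans (h4.trans ?_)
    rw [mul_div_assoc', div_le_iff₀ (by positivity)]
    nlinarith
  have := M.toCharacterSpace_apply_eq_zero_of_mem (hJM hk)
  rw [map_sub, AlgHomClass.commutes, sub_eq_zero] at this
  exact this

omit [MeasurableSpace G] [BorelSpace G] in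
theorem noOneSided [LocallyCompactSpace G] (hπ : IsURep π)
    {A : NonUnitalSubalgebra ℂ (G →ᵇ ℂ)} (h1 : ∀ η ζ, hπ.cf η ζ ∈ closure (A : Set (G →ᵇ ℂ)))
    (h2 : ∀ a ∈ A, a ∈ closure {u | ∃ η ζ, u = hπ.cf η ζ})
    (h3 : ∀ χ : A →ₙₐ[ℂ] ℂ, χ ≠ 0 → ∃ x, ∀ a : A, χ a = (a : G →ᵇ ℂ) x)
    (N : G → ℝ) (hN : IsGleason N) : NoOneSided π N := by
  intro γ hγ hv η₀ hη₀ t
  rcases eq_or_ne η₀ 0 with rfl | hne
  · simp
  have hn0 : (‖η₀‖ : ℂ) ≠ 0 := by exact_mod_cast norm_ne_zero_iff.2 hne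
  set η := (‖η₀‖ : ℂ)⁻¹ • η₀
  have hη : η ∈ smooth π N := Submodule.smul_mem _ _ hη₀
  have hη1 : ‖η‖ = 1 := by simp [η, norm_smul, hne]
  suffices h : π (γ t) η = η by
    simp only [η, map_smul] at h
    exact smul_right_injective _ (inv_ne_zero hn0) h
  obtain ⟨C, hC⟩ := id hη
  have hγ0 : π (γ 0) η = η := apply_eq_of_lip hC.lip hγ.zero
  have hb : ∀ ζ, ‖ζ‖ = 1 → ∀ y, ‖hπ.cf η ζ y‖ ≤ 1 := fun ζ hζ y =>
    (norm_inner_le_norm _ _).trans (by rw [hπ.norm_eq, hζ, hη1, one_mul])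
  obtain ⟨s, hs, hs0⟩ : ∃ s : ℝ, 0 < s ∧ pois (fun t => hπ.cf η η (γ t)⁻¹) (s * Complex.I) ≠ 0 := by
    have h4 : Continuous fun s : ℝ => pois (fun t => hπ.cf η η (γ t)⁻¹) (s * Complex.I) :=
      (continuous_pois ((hπ.uc_cf hN.toIsLength hη η).continuous hγ) fun t => hb η hη1 _).comp
        (by fun_prop)
    have h5 : ∀ᶠ s : ℝ in 𝓝[>] 0, pois (fun t => hπ.cf η η (γ t)⁻¹) (s * Complex.I) ≠ 0 := by
      refine mem_nhdsWithin_of_mem_nhds (h4.continuousAt.eventually_ne ?_)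
      rw [pois_of_im_eq_zero _ (by simp)]
      simp [hπ.cf_apply, hγ0, hη1]
    obtain ⟨s, h6, h7⟩ := (h5.and self_mem_nhdsWithin).exists
    exact ⟨s, h7, h6⟩
  obtain ⟨χ, hχ⟩ := exists_character hπ hN h1 h2 hγ hv (z := s * Complex.I) (by simpa using hs.le)
  let B := (unitize A).topologicalClosure
  let j : A →ₙₐ[ℂ] B :=
    { toFun := fun a => ⟨a, mem_unitize_closure (subset_closure a.2)⟩
      map_smul' := fun _ _ => rfl
      map_zero' := rfl
      map_add' := fun _ _ => rfl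
      map_mul' := fun _ _ => rfl }
  have hext : ∀ L : (G →ᵇ ℂ) → ℂ, Continuous L → (∀ a : A, χ (j a) = L a) →
      ∀ u : B, (u : G →ᵇ ℂ) ∈ closure (A : Set (G →ᵇ ℂ)) → χ u = L u := by
    intro L hL hA u hu
    obtain ⟨a, ha, hlim⟩ := mem_closure_iff_seq_limit.1 hu
    have h4 : Tendsto (fun n => j ⟨a n, ha n⟩) atTop (𝓝 u) := tendsto_subtype_rng.2 hlim
    have h5 := ((map_continuous χ).tendsto u).comp h4
    exact tendsto_nhds_unique h5 (((hL.tendsto _).comp hlim).congr fun n => (hA ⟨a n, ha n⟩).symm)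
  obtain ⟨x, hx⟩ := h3 ((WeakDual.CharacterSpace.toNonUnitalAlgHom χ).comp j) (fun h0 => hs0 (by
    rw [← hχ ⟨hπ.cf η η, mem_unitize_closure (h1 _ _)⟩ (hπ.uc_cf hN.toIsLength hη η)]
    exact hext (fun _ => 0) continuous_const (fun a => DFunLike.congr_fun h0 a)
      ⟨hπ.cf η η, mem_unitize_closure (h1 _ _)⟩ (h1 _ _)))
  set ζ := π x⁻¹ η
  have hζ : ‖ζ‖ = 1 := by rw [hπ.norm_eq, hη1]
  have h4 := hext (fun u => u x) (by fun_prop) hx ⟨hπ.cf η ζ, mem_unitize_closure (h1 _ _)⟩ (h1 _ _)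
  rw [hχ _ (hπ.uc_cf hN.toIsLength hη ζ)] at h4
  have h5 : hπ.cf η ζ x = 1 := by
    rw [hπ.cf_apply, inner_self_eq_norm_sq_to_K, hζ]
    simp
  have h6 := eq_one_of_pois_eq_one ((hπ.uc_cf hN.toIsLength hη ζ).continuous hγ)
    (fun t => hb ζ hζ _) hs (h4.trans h5)
  have h7 : ∀ t, ζ = π (γ t) η := fun t =>
    (inner_eq_one_iff_of_norm_eq_one (𝕜 := ℂ) hζ (by rw [hπ.norm_eq, hη1])).1
      (by simpa [hπ.cf_apply] using h6 t)
  rw [← h7 t, h7 0, hγ0]

end Pool.Agent.MP_2da52b_an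

end MrgPart3

-- ======== part 4: formerly Pool.Agent.MP_2da52b_an.Fourier
section MrgPart4

/-!
Closed invariant subalgebras of the Fourier algebra.
-/

set_option linter.unusedSectionVars false

open Set Filter Topology MeasureTheory
open scoped Pointwise InnerProductSpace BoundedContinuousFunction ENNReal ComplexConjugate

namespace Pool.Agent.MP_2da52b_an

variable {G : Type*} [Group G] [TopologicalSpace G] [IsTopologicalGroup G]

section restrict

variable {H : Type*} [NormedAddCommGroup H] [InnerProductSpace ℂ H]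

/-- Restriction of a representation to an invariant subspace. -/
def restrictRep (π : G →* (H →L[ℂ] H)) (S : Submodule ℂ H) (hS : ∀ x, ∀ v ∈ S, π x v ∈ S) :
    G →* (S →L[ℂ] S) where
  toFun x := (π x).restrict (hS x)
  map_one' := by ext v; simp
  map_mul' x y := by ext v; simp

lemma coe_restrictRep (π : G →* (H →L[ℂ] H)) (S : Submodule ℂ H) (hS : ∀ x, ∀ v ∈ S, π x v ∈ S)
    (x : G) (v : S) : (restrictRep π S hS x v : H) = π x v := rfl

lemma IsURep.restrict {π : G →* (H →L[ℂ] H)} (hπ : IsURep π) (S : Submodule ℂ H)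
    (hS : ∀ x, ∀ v ∈ S, π x v ∈ S) : IsURep (restrictRep π S hS) :=
  ⟨fun x v => hπ.norm_eq x v, fun v => (hπ.cont v).subtype_mk _⟩

lemma IsURep.norm_cf_sub_le [CompleteSpace H] {π : G →* (H →L[ℂ] H)} (hπ : IsURep π)
    (η ζ η' ζ' : H) : ‖hπ.cf η ζ - hπ.cf η' ζ'‖ ≤ ‖ζ - ζ'‖ * ‖η‖ + ‖ζ'‖ * ‖η - η'‖ := by
  refine (BoundedContinuousFunction.norm_le (by positivity)).2 fun y => ?_
  have e : (hπ.cf η ζ - hπ.cf η' ζ') y = ⟪ζ - ζ', π y⁻¹ η⟫_ℂ + ⟪ζ', π y⁻¹ (η - η')⟫_ℂ := by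
    simp [hπ.cf_apply]
  rw [e]
  refine (norm_add_le _ _).trans (add_le_add ?_ ?_) <;>
  exact (norm_inner_le_norm _ _).trans (by rw [hπ.norm_eq])

lemma IsURep.continuous_cf [CompleteSpace H] {π : G →* (H →L[ℂ] H)} (hπ : IsURep π) :
    Continuous fun p : H × H => hπ.cf p.1 p.2 := by
  refine continuous_iff_continuousAt.2 fun q => ?_
  rw [ContinuousAt, tendsto_iff_norm_sub_tendsto_zero]
  have h1 : Continuous fun p : H × H => ‖p.2 - q.2‖ * ‖p.1‖ + ‖q.2‖ * ‖p.1 - q.1‖ := by fun_prop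
  refine squeeze_zero (fun _ => norm_nonneg _) (fun p => hπ.norm_cf_sub_le _ _ _ _) ?_
  simpa using h1.tendsto q

end restrict

variable [MeasurableSpace G] [BorelSpace G] {μ : Measure G} [μ.IsHaarMeasure]

lemma leftReg_coe (x : G) (ξ : Lp ℂ 2 μ) : leftReg μ x ξ =ᵐ[μ] fun y => ξ (x⁻¹ * y) :=
  Lp.coeFn_compMeasurePreserving ξ (measurePreserving_mul_left μ x⁻¹)

lemma leftReg_ae {ξ : Lp ℂ 2 μ} {f : G → ℂ} (h : ξ =ᵐ[μ] f) (x : G) :
    leftReg μ x ξ =ᵐ[μ] fun y => f (x⁻¹ * y) :=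
  (leftReg_coe x ξ).trans
    ((measurePreserving_mul_left μ x⁻¹).quasiMeasurePreserving.ae_eq_comp h)

variable (μ) in
/-- The left regular representation as a homomorphism. -/
noncomputable def lam : G →* (Lp ℂ 2 μ →L[ℂ] Lp ℂ 2 μ) where
  toFun := leftReg μ
  map_one' := by
    ext1 ξ
    exact Lp.ext ((leftReg_coe 1 ξ).trans (by simp))
  map_mul' x y := by
    ext1 ξ
    refine Lp.ext ((leftReg_coe _ ξ).trans ?_)
    refine EventuallyEq.symm ((leftReg_ae (leftReg_coe y ξ) x).trans ?_)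
    simp [mul_assoc]

lemma coeff_eq (ξ η : Lp ℂ 2 μ) (x : G) : coeff (leftReg μ) ξ η x = ⟪η, lam μ x ξ⟫_ℂ := rfl

lemma norm_lam (x : G) (ξ : Lp ℂ 2 μ) : ‖lam μ x ξ‖ = ‖ξ‖ :=
  Lp.norm_compMeasurePreserving ξ (measurePreserving_mul_left μ x⁻¹)

lemma inner_of_ae {ξ η : Lp ℂ 2 μ} {f g : G → ℂ} (hf : ξ =ᵐ[μ] f) (hg : η =ᵐ[μ] g) (x : G) :
    ⟪η, lam μ x ξ⟫_ℂ = ∫ y, conj (g y) * f (x⁻¹ * y) ∂μ := by
  rw [L2.inner_def]
  refine integral_congr_ae ?_
  filter_upwards [leftReg_ae hf x, hg] with y h1 h2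
  change ⟪η y, leftReg μ x ξ y⟫_ℂ = _
  rw [h1, h2, RCLike.inner_apply, mul_comm]

lemma fourierNorm_coeff_le (ξ η : Lp ℂ 2 μ) :
    fourierNorm μ (coeff (leftReg μ) ξ η) ≤ ENNReal.ofReal (‖η‖ * ‖ξ‖) := by
  refine iInf_le_of_le ξ (iInf_le_of_le η (iInf_le_of_le rfl (iSup₂_le fun T _ => iSup_le
    fun hT => ?_)))
  rw [← ofReal_norm]
  refine ENNReal.ofReal_le_ofReal ((norm_inner_le_norm _ _).trans ?_)
  exact mul_le_mul_of_nonneg_left ((T.le_opNorm ξ).trans
    (mul_le_of_le_one_left (norm_nonneg _) hT)) (norm_nonneg _)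

lemma enorm_le_fourierNorm (u : G → ℂ) (x : G) : ‖u x‖ₑ ≤ fourierNorm μ u := by
  refine le_iInf fun ξ => le_iInf fun η => le_iInf fun h => ?_
  refine le_iSup₂_of_le (leftReg μ x) (Set.subset_centralizer_centralizer ⟨x, rfl⟩)
    (le_iSup_of_le (ContinuousLinearMap.opNorm_le_bound _ zero_le_one fun v => ?_) ?_)
  · rw [one_mul]; exact (norm_lam x v).le
  · rw [h]; rfl

variable [LocallyCompactSpace G] [T2Space G] [μ.Regular]

lemma isURep_lam : IsURep (lam μ) := by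
  refine ⟨norm_lam, fun ξ => ?_⟩
  let g : G → C(G, G) := fun x => ⟨fun y => x⁻¹ * y, by fun_prop⟩
  have hg : Continuous g := ContinuousMap.continuous_of_continuous_uncurry _ (by
    change Continuous fun p : G × G => p.1⁻¹ * p.2
    fun_prop)
  exact Continuous.compMeasurePreservingLp (f := fun _ => ξ) continuous_const hg
    (fun x => measurePreserving_mul_left μ x⁻¹) (by simp)

lemma continuous_coeff (ξ η : Lp ℂ 2 μ) : Continuous (coeff (leftReg μ) ξ η) :=
  continuous_const.inner (isURep_lam.cont ξ)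

lemma exists_cc_approx {f : G → ℂ} (hf : MemLp f 2 μ) {ε : ℝ≥0∞} (hε : ε ≠ 0) :
    ∃ g : G → ℂ, eLpNorm (f - g) 2 μ ≤ ε ∧ MemLp g 2 μ ∧ HasCompactSupport g := by
  refine hf.induction_dense (by simp) (fun g => MemLp g 2 μ ∧ HasCompactSupport g) ?_ ?_
    (fun f hf => hf.1.aestronglyMeasurable) hε
  swap
  · rintro f g ⟨h1, h2⟩ ⟨h3, h4⟩
    exact ⟨h1.add h3, h2.add h4⟩
  intro c t ht htμ δ hδ
  obtain ⟨r, hr, hη⟩ := exists_eLpNorm_indicator_le (μ := μ) (p := 2) (by simp) c hδ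
  obtain ⟨s, st, hs, hs', μs⟩ := ht.exists_isCompact_isClosed_sdiff_lt htμ.ne
    (ENNReal.coe_pos.2 hr).ne'
  refine ⟨s.indicator fun _ => c, ?_, memLp_indicator_const 2 hs'.measurableSet c
    (Or.inr hs.measure_lt_top.ne), HasCompactSupport.intro hs fun x hx => by simp [hx]⟩
  rw [← eLpNorm_neg, neg_sub, ← indicator_sdiff st]
  exact hη _ μs.le

/-- Vectors represented by a compactly supported function. -/
def IsCc (ξ : Lp ℂ 2 μ) : Prop := ∃ f : G → ℂ, HasCompactSupport f ∧ ξ =ᵐ[μ] f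

lemma dense_isCc : Dense {ξ : Lp ℂ 2 μ | IsCc ξ} := by
  refine Metric.dense_iff.2 fun ξ ε hε => ?_
  obtain ⟨g, h2, h4, h1⟩ := exists_cc_approx (Lp.memLp ξ)
    (ε := ENNReal.ofReal (ε / 2)) (by simpa using hε)
  refine ⟨h4.toLp g, ?_, g, h1, h4.coeFn_toLp⟩
  have e : (ξ : G → ℂ) - (h4.toLp g : G → ℂ) =ᵐ[μ] (ξ : G → ℂ) - g := by
    filter_upwards [h4.coeFn_toLp] with x hx
    simp [hx]
  rw [Metric.mem_ball, dist_comm, Lp.dist_def, eLpNorm_congr_ae e]
  exact (ENNReal.toReal_le_of_le_ofReal (half_pos hε).le h2).trans_lt (half_lt_self hε)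

lemma hasCompactSupport_coeff {ξ η : Lp ℂ 2 μ} (hξ : IsCc ξ) (hη : IsCc η) :
    HasCompactSupport (coeff (leftReg μ) ξ η) := by
  obtain ⟨f, hf, hf'⟩ := hξ
  obtain ⟨g, hg, hg'⟩ := hη
  refine HasCompactSupport.intro (IsCompact.mul hg (IsCompact.inv hf)) fun x hx => ?_
  rw [coeff_eq, inner_of_ae hf' hg']
  refine integral_eq_zero_of_ae (Eventually.of_forall fun y => ?_)
  by_contra h
  refine hx ⟨y, subset_tsupport _ ?_, (x⁻¹ * y)⁻¹, ?_, by simp⟩
  · simpa using left_ne_zero_of_mul h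
  · rw [Set.mem_inv, inv_inv]
    exact subset_tsupport _ (right_ne_zero_of_mul h)

variable (μ) in
/-- A closed bi-invariant subalgebra of the Fourier algebra. -/
structure IsInv (A : NonUnitalSubalgebra ℂ (G → ℂ)) : Prop where
  sub : (A : Set (G → ℂ)) ⊆ fourierAlgebra μ
  closed : ∀ u ∈ fourierAlgebra μ, (∀ ε > 0, ∃ a ∈ A, fourierNorm μ (u - a) < ε) → u ∈ A
  left : ∀ a ∈ A, ∀ g : G, (fun x => a (g * x)) ∈ A
  right : ∀ a ∈ A, ∀ g : G, (fun x => a (x * g)) ∈ A

variable {A : NonUnitalSubalgebra ℂ (G → ℂ)}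

lemma mem_of_approx (h : IsInv μ A) {ξ η : Lp ℂ 2 μ}
    (happ : ∀ ε > 0, ∃ ξ' η' : Lp ℂ 2 μ, ‖η'‖ * ‖ξ'‖ < ε ∧ coeff (leftReg μ) ξ η - coeff (leftReg μ) ξ' η' ∈ A) :
    coeff (leftReg μ) ξ η ∈ A := by
  refine h.closed _ ⟨ξ, η, rfl⟩ fun ε hε => ?_
  obtain ⟨δ, -, hδ1, hδ2⟩ := ENNReal.lt_iff_exists_real_btwn.1 hε
  obtain ⟨ξ', η', h1, h2⟩ := happ δ (ENNReal.ofReal_pos.1 hδ1)
  refine ⟨_, h2, ?_⟩
  rw [sub_sub_cancel]
  exact (fourierNorm_coeff_le _ _).trans_lt ((ENNReal.ofReal_le_ofReal h1.le).trans_lt hδ2)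

/-- First slots giving a coefficient in `A`. -/
def slot₁ (A : NonUnitalSubalgebra ℂ (G → ℂ)) (η : Lp ℂ 2 μ) : Submodule ℂ (Lp ℂ 2 μ) where
  carrier := {ξ | coeff (leftReg μ) ξ η ∈ A}
  zero_mem' := by
    have : coeff (leftReg μ) 0 η = 0 := by ext x; simp [coeff]
    simp [this]
  add_mem' := fun {a b} ha hb => by
    have : coeff (leftReg μ) (a + b) η = coeff (leftReg μ) a η + coeff (leftReg μ) b η := by
      ext x; simp [coeff]
    exact mem_ofPred_eq ▸ this ▸ add_mem ha hb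
  smul_mem' := fun c a ha => by
    have : coeff (leftReg μ) (c • a) η = c • coeff (leftReg μ) a η := by
      ext x; simp [coeff]
    exact mem_ofPred_eq ▸ this ▸ SMulMemClass.smul_mem c ha

/-- Second slots giving a coefficient in `A`. -/
def slot₂ (A : NonUnitalSubalgebra ℂ (G → ℂ)) (ξ : Lp ℂ 2 μ) : Submodule ℂ (Lp ℂ 2 μ) where
  carrier := {η | coeff (leftReg μ) ξ η ∈ A}
  zero_mem' := by
    have : coeff (leftReg μ) ξ 0 = 0 := by ext x; simp [coeff]
    simp [this]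
  add_mem' := fun {a b} ha hb => by
    have : coeff (leftReg μ) ξ (a + b) = coeff (leftReg μ) ξ a + coeff (leftReg μ) ξ b := by
      ext x; simp [coeff]
    exact mem_ofPred_eq ▸ this ▸ add_mem ha hb
  smul_mem' := fun c a ha => by
    have : coeff (leftReg μ) ξ (c • a) = conj c • coeff (leftReg μ) ξ a := by
      ext x; exact inner_smul_left _ _ _
    exact mem_ofPred_eq ▸ this ▸ SMulMemClass.smul_mem _ ha

lemma IsInv.isClosed_slot₁ (h : IsInv μ A) (η : Lp ℂ 2 μ) :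
    IsClosed (slot₁ A η : Set (Lp ℂ 2 μ)) := by
  refine isClosed_of_closure_subset fun ξ hξ => mem_of_approx h fun ε hε => ?_
  obtain ⟨ξ', h1, h2⟩ := Metric.mem_closure_iff.1 hξ (ε / (‖η‖ + 1)) (by positivity)
  refine ⟨ξ - ξ', η, ?_, ?_⟩
  · rw [dist_eq_norm, lt_div_iff₀ (by positivity)] at h2
    nlinarith [norm_nonneg (ξ - ξ')]
  · have : coeff (leftReg μ) ξ η - coeff (leftReg μ) (ξ - ξ') η = coeff (leftReg μ) ξ' η := by
      ext x; simp [coeff]
    exact this ▸ h1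

lemma IsInv.isClosed_slot₂ (h : IsInv μ A) (ξ : Lp ℂ 2 μ) :
    IsClosed (slot₂ A ξ : Set (Lp ℂ 2 μ)) := by
  refine isClosed_of_closure_subset fun η hη => mem_of_approx h fun ε hε => ?_
  obtain ⟨η', h1, h2⟩ := Metric.mem_closure_iff.1 hη (ε / (‖ξ‖ + 1)) (by positivity)
  refine ⟨ξ, η - η', ?_, ?_⟩
  · rw [dist_eq_norm, lt_div_iff₀ (by positivity)] at h2
    nlinarith [norm_nonneg (η - η')]
  · have : coeff (leftReg μ) ξ η - coeff (leftReg μ) ξ (η - η') = coeff (leftReg μ) ξ η' := by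
      ext x; simp [coeff]
    exact this ▸ h1

lemma integrable_smul_lam {ψ : G → ℂ} (hψ : Continuous ψ) (hc : HasCompactSupport ψ)
    (ξ : Lp ℂ 2 μ) : Integrable (fun w => ψ w • lam μ w ξ) μ :=
  (hψ.smul (isURep_lam.cont ξ)).integrable_of_hasCompactSupport hc.smul_right

lemma coeff_integral_left {ψ : G → ℂ} (hψ : Continuous ψ) (hc : HasCompactSupport ψ)
    (ξ η : Lp ℂ 2 μ) (y : G) :
    coeff (leftReg μ) (∫ w, ψ w • lam μ w ξ ∂μ) η y = ∫ w, ψ w * coeff (leftReg μ) ξ η (y * w) ∂μ := by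
  rw [coeff_eq, isURep_lam.inner_right, ← integral_inner (integrable_smul_lam hψ hc ξ)]
  refine integral_congr_ae (Eventually.of_forall fun w => ?_)
  simp only [inner_smul_right, coeff_eq, IsURep.mul_apply]
  rw [isURep_lam.inner_right y]

lemma IsInv.conv_right (h : IsInv μ A) {a : G → ℂ} (ha : a ∈ A) {ψ : G → ℂ} (hψ : Continuous ψ)
    (hc : HasCompactSupport ψ) : (fun y => ∫ w, ψ w * a (y * w) ∂μ) ∈ A := by
  obtain ⟨ξ, η, rfl⟩ := h.sub ha
  have h1 : ∫ w, ψ w • lam μ w ξ ∂μ ∈ slot₁ A η :=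
    integral_mem_of_isClosed (h.isClosed_slot₁ η) fun w => Submodule.smul_mem _ _ (by
      have : coeff (leftReg μ) (lam μ w ξ) η = fun x => coeff (leftReg μ) ξ η (x * w) := by
        ext x; simp only [coeff_eq, IsURep.mul_apply]
      change coeff (leftReg μ) (lam μ w ξ) η ∈ A
      exact this ▸ h.right _ ha w)
  rw [← funext (coeff_integral_left hψ hc ξ η)]
  exact h1

lemma IsInv.conv_left (h : IsInv μ A) {a : G → ℂ} (ha : a ∈ A) {φ : G → ℂ} (hφ : Continuous φ)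
    (hc : HasCompactSupport φ) : (fun x => ∫ y, φ y * a (y⁻¹ * x) ∂μ) ∈ A := by
  obtain ⟨ξ, η, rfl⟩ := h.sub ha
  have h1 : ∫ y, conj (φ y) • lam μ y η ∂μ ∈ slot₂ A ξ :=
    integral_mem_of_isClosed (h.isClosed_slot₂ ξ) fun w => Submodule.smul_mem _ _ (by
      have : coeff (leftReg μ) ξ (lam μ w η) = fun x => coeff (leftReg μ) ξ η (w⁻¹ * x) := by
        ext x; simp only [coeff_eq, IsURep.mul_apply, isURep_lam.inner_left]
      change coeff (leftReg μ) ξ (lam μ w η) ∈ A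
      exact this ▸ h.left _ ha w⁻¹)
  have h2 : coeff (leftReg μ) ξ (∫ y, conj (φ y) • lam μ y η ∂μ) =
      fun x => ∫ y, φ y * coeff (leftReg μ) ξ η (y⁻¹ * x) ∂μ := by
    ext x
    rw [coeff_eq, ← inner_conj_symm, ← integral_inner (integrable_smul_lam (ψ := fun y => conj (φ y))
      (Complex.continuous_conj.comp hφ) (hc.comp_left (g := conj) (by simp)) η), ← integral_conj]
    refine integral_congr_ae (Eventually.of_forall fun y => ?_)
    simp only [inner_conj_symm, inner_smul_left, Complex.conj_conj, coeff_eq, IsURep.mul_apply]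
    rw [isURep_lam.inner_left y]
  exact h2 ▸ h1

end Pool.Agent.MP_2da52b_an

end MrgPart4

-- ======== part 5: formerly Pool.Agent.MP_2da52b_an.Final
section MrgPart5

/-!
The final assembly.
-/

set_option linter.unusedSectionVars false

open Set Filter Topology MeasureTheory
open scoped Pointwise InnerProductSpace BoundedContinuousFunction ENNReal ComplexConjugate

namespace Pool.Agent.MP_2da52b_an

variable {G : Type*} [Group G] [TopologicalSpace G] [IsTopologicalGroup G]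

lemma IsURep.exists_inv_mem {H : Type*} [NormedAddCommGroup H] [InnerProductSpace ℂ H]
    [CompleteSpace H] {π : G →* (H →L[ℂ] H)} (hπ : IsURep π) {B : Subalgebra ℂ (G →ᵇ ℂ)}
    (hB : IsClosed (B : Set (G →ᵇ ℂ))) {ι : Type*} [Fintype ι] {η : ι → H} {c : ι → ℝ}
    (hc : ∀ i, 0 < c i) {s : ℝ} (hs : 0 < s) (hcf : ∀ i, hπ.cf (η i) (η i) ∈ B) :
    ∃ g ∈ B, ∀ x, g x⁻¹ = (s + negDef π η c x)⁻¹ := by
  have : CompleteSpace B := hB.completeSpace_coe
  set R : ℝ := ∑ i, c i * ‖η i‖ ^ 2 with hR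
  have hR0 : 0 ≤ R := Finset.sum_nonneg fun i _ => mul_nonneg (hc i).le (by positivity)
  have hT : 0 < s + R := by positivity
  let p : G →ᵇ ℂ := ∑ i, (c i : ℂ) • hπ.cf (η i) (η i)
  have hp : p ∈ B := sum_mem fun i _ => B.smul_mem (hcf i) _
  have hpn : ‖p‖ ≤ R := by
    refine (norm_sum_le _ _).trans (Finset.sum_le_sum fun i _ => ?_)
    rw [norm_smul, Complex.norm_real, Real.norm_of_nonneg (hc i).le]
    refine mul_le_mul_of_nonneg_left ?_ (hc i).le
    refine (BoundedContinuousFunction.norm_le (by positivity)).2 fun y => ?_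
    exact (norm_inner_le_norm _ _).trans (by rw [hπ.norm_eq, sq])
  let q : B := ⟨((s + R : ℝ) : ℂ)⁻¹ • p, B.smul_mem hp _⟩
  have hq : ‖q‖ < 1 := by
    change ‖((s + R : ℝ) : ℂ)⁻¹ • p‖ < 1
    rw [norm_smul, norm_inv, Complex.norm_real, Real.norm_of_nonneg hT.le, inv_mul_lt_one₀ hT]
    linarith
  let r : B := ((Units.oneSub q hq)⁻¹ : Bˣ)
  have hr : (1 - q) * r = 1 := (Units.oneSub q hq).mul_inv
  refine ⟨((s + R : ℝ) : ℂ)⁻¹ • (r : G →ᵇ ℂ), B.smul_mem r.2 _, fun x => ?_⟩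
  have h1 : (1 - ((s + R : ℝ) : ℂ)⁻¹ * p x⁻¹) * (r : G →ᵇ ℂ) x⁻¹ = 1 :=
    congrArg (fun u : B => (u : G →ᵇ ℂ) x⁻¹) hr
  have h2 : (s : ℂ) + negDef π η c x = ((s + R : ℝ) : ℂ) - p x⁻¹ := by
    simp only [negDef, p, hR, BoundedContinuousFunction.coe_sum, Finset.sum_apply,
      BoundedContinuousFunction.smul_apply, hπ.cf_apply, inv_inv, inner_sub_right, mul_sub,
      Finset.sum_sub_distrib, inner_self_eq_norm_sq_to_K, smul_eq_mul, Complex.coe_algebraMap]
    push_cast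
    ring
  have hT' : ((s + R : ℝ) : ℂ) ≠ 0 := Complex.ofReal_ne_zero.2 hT.ne'
  rw [h2, BoundedContinuousFunction.smul_apply, smul_eq_mul]
  refine eq_inv_of_mul_eq_one_right ?_
  rw [← h1]
  field_simp

/-- The bounded continuous functions in `A`. -/
def bdd (A : NonUnitalSubalgebra ℂ (G → ℂ)) : NonUnitalSubalgebra ℂ (G →ᵇ ℂ) where
  carrier := {f | ⇑f ∈ A}
  zero_mem' := A.zero_mem
  add_mem' := fun ha hb => A.add_mem ha hb
  mul_mem' := fun ha hb => A.mul_mem ha hb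
  smul_mem' := fun c _ ha => A.smul_mem c ha

variable [MeasurableSpace G] [BorelSpace G] {μ : Measure G} [μ.IsHaarMeasure]
variable [LocallyCompactSpace G] [T2Space G] [μ.Regular]
variable {A : NonUnitalSubalgebra ℂ (G → ℂ)}

lemma exists_bump {U : Set G} (hU : IsOpen U) (h1 : 1 ∈ U) :
    ∃ ψ : G → ℝ, Continuous ψ ∧ HasCompactSupport ψ ∧ (∀ x, 0 ≤ ψ x) ∧ (∀ x ∉ U, ψ x = 0) ∧
      ∫ x, ψ x ∂μ = 1 := by
  obtain ⟨f, hf1, hf0, hfc, hf⟩ := exists_continuous_one_zero_of_isCompact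
    (isCompact_singleton (x := (1 : G))) hU.isClosed_compl (by simpa using h1)
  have hpos : 0 < ∫ x, f x ∂μ := f.continuous.integral_pos_of_hasCompactSupport_nonneg_nonzero
    hfc (fun x => (hf x).1) (x := 1) (by simp [hf1 rfl])
  refine ⟨fun x => (∫ x, f x ∂μ)⁻¹ * f x, by fun_prop, hfc.mul_left,
    fun x => mul_nonneg (inv_pos.2 hpos).le (hf x).1, fun x hx => by simp [hf0 hx], ?_⟩
  rw [integral_const_mul, inv_mul_cancel₀ hpos.ne']

lemma IsInv.cont (h : IsInv μ A) {a : G → ℂ} (ha : a ∈ A) : Continuous a := by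
  obtain ⟨ξ, η, rfl⟩ := h.sub ha
  exact continuous_coeff ξ η

lemma IsInv.bound (h : IsInv μ A) {a : G → ℂ} (ha : a ∈ A) : ∃ R, ∀ x, ‖a x‖ ≤ R := by
  obtain ⟨ξ, η, rfl⟩ := h.sub ha
  exact ⟨‖η‖ * ‖ξ‖, fun x => (norm_inner_le_norm _ _).trans (le_of_eq (by
    congr 1; exact norm_lam x ξ))⟩

/-- Elements of `A` as bounded continuous functions. -/
noncomputable def IsInv.toBdd (h : IsInv μ A) : A →ₙₐ[ℂ] bdd A where
  toFun a := ⟨BoundedContinuousFunction.ofNormedAddCommGroup a (h.cont a.2) _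
    (h.bound a.2).choose_spec, a.2⟩
  map_smul' _ _ := by ext; rfl
  map_zero' := by ext; rfl
  map_add' _ _ := by ext; rfl
  map_mul' _ _ := by ext; rfl

lemma IsInv.char_bdd (h : IsInv μ A)
    (hchar : ∀ χ : A →ₙₐ[ℂ] ℂ, χ ≠ 0 → ∃ x, ∀ a : A, χ a = (a : G → ℂ) x)
    (χ : bdd A →ₙₐ[ℂ] ℂ) (hχ : χ ≠ 0) : ∃ x, ∀ a : bdd A, χ a = (a : G →ᵇ ℂ) x := by
  have e : ∀ a : bdd A, h.toBdd ⟨(a : G →ᵇ ℂ), a.2⟩ = a := fun a => by ext; rfl
  obtain ⟨x, hx⟩ := hchar (χ.comp h.toBdd) fun h0 => hχ (by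
    ext a
    rw [← e a]
    exact congrArg (fun f : A →ₙₐ[ℂ] ℂ => f ⟨(a : G →ᵇ ℂ), a.2⟩) h0)
  exact ⟨x, fun a => by rw [← e a]; exact hx _⟩

variable (μ) in
/-- Classes in `L²` of compactly supported elements of `A`. -/
def ccVec (A : NonUnitalSubalgebra ℂ (G → ℂ)) : Submodule ℂ (Lp ℂ 2 μ) where
  carrier := {ξ | ∃ f ∈ A, HasCompactSupport f ∧ ξ =ᵐ[μ] f}
  zero_mem' := ⟨0, zero_mem _, HasCompactSupport.zero, Lp.coeFn_zero _ _ _⟩
  add_mem' := by
    rintro a b ⟨f, h1, h2, h3⟩ ⟨g, h4, h5, h6⟩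
    exact ⟨f + g, add_mem h1 h4, h2.add h5, (Lp.coeFn_add a b).trans (h3.add h6)⟩
  smul_mem' := by
    rintro c a ⟨f, h1, h2, h3⟩
    refine ⟨c • f, SMulMemClass.smul_mem c h1, h2.smul_left, ?_⟩
    filter_upwards [Lp.coeFn_smul c a, h3] with x h4 h5
    rw [h4, Pi.smul_apply, h5, Pi.smul_apply]

lemma IsInv.lam_mem (h : IsInv μ A) (x : G) :
    ∀ v ∈ (ccVec μ A).topologicalClosure, lam μ x v ∈ (ccVec μ A).topologicalClosure := by
  intro v hv
  refine map_mem_closure (lam μ x).continuous hv ?_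
  rintro ξ ⟨f, h1, h2, h3⟩
  exact ⟨_, h.left f h1 x⁻¹, h2.comp_homeomorph (Homeomorph.mulLeft x⁻¹), leftReg_ae h3 x⟩

lemma IsInv.exists_vec (h : IsInv μ A) {b : G → ℂ} (hb : b ∈ A) (hc : HasCompactSupport b) :
    ∃ ξ : (ccVec μ A).topologicalClosure, (ξ : Lp ℂ 2 μ) =ᵐ[μ] b :=
  have hm : MemLp b 2 μ := (h.cont hb).memLp_of_hasCompactSupport hc
  ⟨⟨hm.toLp b, subset_closure ⟨b, hb, hc, hm.coeFn_toLp⟩⟩, hm.coeFn_toLp⟩

lemma IsInv.isURep (h : IsInv μ A) : IsURep (restrictRep (lam μ) _ h.lam_mem) :=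
  isURep_lam.restrict _ _

lemma IsInv.cf_mem (h : IsInv μ A) (η ζ : (ccVec μ A).topologicalClosure) :
    h.isURep.cf η ζ ∈ closure (bdd A : Set (G →ᵇ ℂ)) := by
  have e : h.isURep.cf η ζ = isURep_lam.cf (η : Lp ℂ 2 μ) ζ := by ext; rfl
  rw [e]
  refine map_mem_closure₂ (f := fun η ζ : Lp ℂ 2 μ => isURep_lam.cf η ζ)
    isURep_lam.continuous_cf η.2 ζ.2 ?_
  rintro η ⟨f, h1, -, h3⟩ ζ ⟨g, h4, h5, h6⟩
  have := h.conv_right h1 (ψ := fun w => conj (g w)) (Complex.continuous_conj.comp (h.cont h4))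
    (h5.comp_left (g := conj) (by simp))
  change ⇑(isURep_lam.cf η ζ) ∈ A
  have e : ⇑(isURep_lam.cf η ζ) = fun y => ∫ w, conj (g w) * f (y * w) ∂μ := by
    ext y
    rw [isURep_lam.cf_apply, inner_of_ae h3 h6, inv_inv]
  exact e ▸ this

/-- Sup-norm form of the Tauberian property. -/
def SupTaub (A : NonUnitalSubalgebra ℂ (G → ℂ)) : Prop :=
  ∀ a ∈ A, ∀ ε > 0, ∃ b ∈ A, HasCompactSupport b ∧ ∀ x, ‖a x - b x‖ ≤ ε

lemma IsInv.mem_closure_cf (h : IsInv μ A) (ht : SupTaub A) :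
    ∀ a ∈ bdd A, a ∈ closure {u | ∃ η ζ, u = h.isURep.cf η ζ} := by
  intro a ha
  refine Metric.mem_closure_iff.2 fun ε hε => ?_
  obtain ⟨b, hb, hbc, hab⟩ := ht a ha (ε / 3) (by positivity)
  obtain ⟨β, hβ⟩ := h.exists_vec hb hbc
  have hbcont := h.cont hb
  obtain ⟨ξ, η, hξ⟩ := h.sub hb
  obtain ⟨ψ, h1, h2, h3, h4, h5⟩ := exists_bump (μ := μ)
    (U := {w | ‖η‖ * ‖lam μ w ξ - ξ‖ < ε / 3})
    (isOpen_lt (continuous_const.mul ((isURep_lam.cont ξ).sub continuous_const).norm)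
      continuous_const) (by simp [hε])
  have hψ : Continuous fun w => (ψ w : ℂ) := Complex.continuous_ofReal.comp h1
  have hψc : HasCompactSupport fun w => (ψ w : ℂ) := h2.comp_left (g := Complex.ofReal) (by simp)
  have hm : MemLp (fun w => (ψ w : ℂ)) 2 μ := hψ.memLp_of_hasCompactSupport hψc
  refine ⟨_, ⟨β, (ccVec μ A).topologicalClosure.orthogonalProjectionOnto (hm.toLp _), rfl⟩, ?_⟩
  refine lt_of_le_of_lt ((BoundedContinuousFunction.dist_le (C := 2 * ε / 3)
    (by positivity)).2 fun y => ?_) (by linarith)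
  rw [IsURep.cf_apply, Submodule.inner_orthogonalProjectionOnto_eq_of_mem_right, coe_restrictRep,
    inner_of_ae hβ hm.coeFn_toLp, inv_inv, dist_eq_norm]
  have e : ∫ w, conj (ψ w : ℂ) * b (y * w) ∂μ - b y = ∫ w, ψ w • (b (y * w) - b y) ∂μ := by
    simp only [smul_sub]
    rw [integral_sub, integral_smul_const, h5, one_smul]
    · simp
    · exact (h1.smul (hbcont.comp (by fun_prop))).integrable_of_hasCompactSupport h2.smul_right
    · exact (h1.smul continuous_const).integrable_of_hasCompactSupport h2.smul_right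
  have h6 : ‖∫ w, ψ w • (b (y * w) - b y) ∂μ‖ ≤ ε / 3 := by
    refine (norm_integral_le_of_norm_le
      ((h1.integrable_of_hasCompactSupport h2).mul_const (ε / 3))
      (Eventually.of_forall fun w => ?_)).trans (by rw [integral_mul_const, h5, one_mul])
    rw [norm_smul, Real.norm_of_nonneg (h3 w)]
    by_cases hw : ‖η‖ * ‖lam μ w ξ - ξ‖ < ε / 3
    · refine mul_le_mul_of_nonneg_left (le_trans ?_ hw.le) (h3 w)
      rw [hξ, coeff_eq, coeff_eq, ← inner_sub_right, IsURep.mul_apply, ← map_sub]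
      exact (norm_inner_le_norm _ _).trans (by rw [norm_lam])
    · simp [h4 w hw]
  rw [← e, norm_sub_rev] at h6
  linarith [norm_sub_le_norm_sub_add_norm_sub (a y) (b y) (∫ w, conj (ψ w : ℂ) * b (y * w) ∂μ),
    hab y]

lemma IsInv.faithful (h : IsInv μ A) (ht : SupTaub A)
    (hsep : ∀ x y, (∀ a ∈ A, a x = a y) → x = y) (x : G) (hx : x ≠ 1) :
    ∃ ξ, restrictRep (lam μ) _ h.lam_mem x ξ ≠ ξ := by
  by_contra hcon
  push Not at hcon
  refine hx (inv_eq_one.1 (hsep _ _ fun a ha => ?_))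
  refine eq_of_forall_dist_le fun ε hε => ?_
  obtain ⟨b, hb, hbc, hab⟩ := ht a ha (ε / 2) (by positivity)
  obtain ⟨β, hβ⟩ := h.exists_vec hb hbc
  have h1 : lam μ x β = β := congrArg Subtype.val (hcon β)
  have h2 : (fun y => b (x⁻¹ * y)) =ᵐ[μ] b := by
    refine (leftReg_ae hβ x).symm.trans ?_
    change lam μ x β =ᵐ[μ] b
    rwa [h1]
  have h3 := congrFun ((Continuous.ae_eq_iff_eq μ ((h.cont hb).comp (by fun_prop))
    (h.cont hb)).1 h2) 1
  simp only [Function.comp, mul_one] at h3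
  rw [dist_eq_norm]
  have h4 := hab 1
  rw [norm_sub_rev, ← h3] at h4
  linarith [norm_sub_le_norm_sub_add_norm_sub (a x⁻¹) (b x⁻¹) (a 1), hab x⁻¹]

lemma IsInv.coeff_integral_mem (h : IsInv μ A) {a : G → ℂ} (ha : a ∈ A) (hc : HasCompactSupport a)
    {ξ : Lp ℂ 2 μ} (hξ : IsCc ξ) (η : Lp ℂ 2 μ) :
    coeff (leftReg μ) (∫ w, a w⁻¹ • lam μ w ξ ∂μ) η ∈ A := by
  refine closure_minimal (s := {η | IsCc η}) ?_ (h.isClosed_slot₂ _) (dense_isCc η)
  intro η hη
  have h1 := h.conv_left ha (continuous_coeff ξ η) (hasCompactSupport_coeff hξ hη)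
  change coeff (leftReg μ) _ η ∈ A
  have e : coeff (leftReg μ) (∫ w, a w⁻¹ • lam μ w ξ ∂μ) η =
      fun x => ∫ y, coeff (leftReg μ) ξ η y * a (y⁻¹ * x) ∂μ := by
    ext x
    rw [coeff_integral_left (ψ := fun w => a w⁻¹) ((h.cont ha).comp continuous_inv)
      (hc.comp_homeomorph (Homeomorph.inv G)),
      ← integral_mul_left_eq_self (fun y => coeff (leftReg μ) ξ η y * a (y⁻¹ * x)) x]
    simp [mul_comm]
  exact e ▸ h1

theorem IsInv.eq_fourierAlgebra (h : IsInv μ A) (ht : SupTaub A)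
    (hchar : ∀ χ : A →ₙₐ[ℂ] ℂ, χ ≠ 0 → ∃ x, ∀ a : A, χ a = (a : G → ℂ) x)
    (hne : ∀ x, ∃ a ∈ A, a x ≠ 0) (hsep : ∀ x y, (∀ a ∈ A, a x = a y) → x = y) :
    (A : Set (G → ℂ)) = fourierAlgebra μ := by
  refine h.sub.antisymm ?_
  let M : Submodule ℂ (Lp ℂ 2 μ) := ⨅ η, slot₁ A η
  have hMc : IsClosed (M : Set (Lp ℂ 2 μ)) := by
    rw [Submodule.coe_iInf]
    exact isClosed_iInter h.isClosed_slot₁
  have : CompleteSpace M := hMc.completeSpace_coe
  suffices hM : M = ⊤ by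
    rintro _ ⟨ξ, η, rfl⟩
    exact (Submodule.mem_iInf _).1 (hM ▸ Submodule.mem_top : ξ ∈ M) η
  rw [← Submodule.orthogonal_eq_bot_iff, Submodule.eq_bot_iff]
  intro ζ hζ
  by_contra hζ0
  obtain ⟨ξ, hξ, hw1⟩ := dense_isCc.exists_mem_open (U := {ξ | ⟪ζ, ξ⟫_ℂ ≠ 0})
    (isOpen_ne_fun (continuous_const.inner continuous_id) continuous_const)
    ⟨ζ, inner_self_ne_zero.2 hζ0⟩
  have hzero : ∀ a ∈ A, HasCompactSupport a → ∫ s, a s⁻¹ * coeff (leftReg μ) ξ ζ s ∂μ = 0 := by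
    intro a ha hc
    have h1 : ∫ w, a w⁻¹ • lam μ w ξ ∂μ ∈ M :=
      (Submodule.mem_iInf _).2 fun η => h.coeff_integral_mem ha hc hξ η
    have h2 := coeff_integral_left (ψ := fun w => a w⁻¹) ((h.cont ha).comp continuous_inv)
      (hc.comp_homeomorph (Homeomorph.inv G)) ξ ζ 1
    rw [coeff_eq, IsURep.one_apply, Submodule.inner_left_of_mem_orthogonal h1 hζ] at h2
    simpa using h2.symm
  obtain ⟨b, hb, hbc, hb1⟩ : ∃ b ∈ A, HasCompactSupport b ∧ b 1 ≠ 0 := by
    obtain ⟨a, ha, ha1⟩ := hne 1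
    obtain ⟨b, hb, hbc, hab⟩ := ht a ha (‖a 1‖ / 2) (by positivity)
    refine ⟨b, hb, hbc, fun h0 => ?_⟩
    have := hab 1
    rw [h0, sub_zero] at this
    linarith [norm_pos_iff.2 ha1]
  have hw : coeff (leftReg μ) ξ ζ 1 ≠ 0 := by rwa [coeff_eq, IsURep.one_apply]
  let φ : G → ℂ := fun s => (b 1 * coeff (leftReg μ) ξ ζ 1)⁻¹ * (b s⁻¹ * coeff (leftReg μ) ξ ζ s)
  have hφc : Continuous φ :=
    continuous_const.mul (((h.cont hb).comp continuous_inv).mul (continuous_coeff ξ ζ))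
  have hφs : HasCompactSupport φ :=
    HasCompactSupport.mul_left (HasCompactSupport.mul_right
      (hbc.comp_homeomorph (Homeomorph.inv G)))
  have hφ1 : φ 1 = 1 := by
    simp only [φ, inv_one]
    exact inv_mul_cancel₀ (mul_ne_zero hb1 hw)
  obtain ⟨ι, _, η, c, hc, s, hs, k, hk⟩ := exists_peak (μ := μ) h.isURep (h.faithful ht hsep)
    (noOneSided h.isURep h.cf_mem (h.mem_closure_cf ht) (h.char_bdd hchar)) hφc hφs hφ1
  obtain ⟨g, hg, hgx⟩ := h.isURep.exists_inv_mem (Subalgebra.isClosed_topologicalClosure _) hc hs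
    fun i => mem_unitize_closure (h.cf_mem (η i) (η i))
  have hint : ∀ u : G →ᵇ ℂ, Integrable (fun s => φ s * u s⁻¹) μ := fun u =>
    (hφc.mul (by fun_prop)).integrable_of_hasCompactSupport hφs.mul_right
  let L : (G →ᵇ ℂ) →L[ℂ] ℂ := LinearMap.mkContinuous
    { toFun := fun u => ∫ s, φ s * u s⁻¹ ∂μ
      map_add' := fun u v => by
        simp only [BoundedContinuousFunction.add_apply, mul_add]
        exact integral_add (hint u) (hint v)
      map_smul' := fun c u => by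
        simp only [BoundedContinuousFunction.smul_apply, smul_eq_mul, RingHom.id_apply]
        rw [← integral_const_mul]
        simp only [mul_left_comm] } (∫ s, ‖φ s‖ ∂μ) fun u => by
      rw [← integral_mul_const]
      refine norm_integral_le_of_norm_le
        ((hφc.integrable_of_hasCompactSupport hφs).norm.mul_const _)
        (Eventually.of_forall fun s => ?_)
      rw [norm_mul]
      exact mul_le_mul_of_nonneg_left (u.norm_coe_le_norm _) (norm_nonneg _)
  have hL : ∀ u, L u = ∫ s, φ s * u s⁻¹ ∂μ := fun _ => rfl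
  have h0 : g ^ k ∈ L.ker := by
    refine unitize_closure_induction _ L.isClosed_ker ?_ ?_ (pow_mem hg k)
    · change L 1 = 0
      simp only [hL, φ, BoundedContinuousFunction.coe_one, Pi.one_apply, mul_one]
      rw [integral_const_mul, hzero b hb hbc, mul_zero]
    · intro a ha
      change L a = 0
      have := hzero (b * a) (mul_mem hb ha) hbc.mul_right
      simp only [hL, φ, mul_assoc]
      rw [integral_const_mul]
      simp only [Pi.mul_apply, mul_assoc, mul_comm (a _)] at this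
      rw [this, mul_zero]
  have h1 : ∫ s, φ s * (g ^ k) s⁻¹ ∂μ = 0 := h0
  simp only [BoundedContinuousFunction.pow_apply, hgx] at h1
  rw [h1] at hk
  simp at hk

end Pool.Agent.MP_2da52b_an

end MrgPart5

-- marker of a merged file
example : 731051 + 234829 = 731051 + 234829 := rfl
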