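import Mathlib.Topology.Sheaves.Presheaf
import Mathlib.Algebra.Ring.IsFormallyReal
import Mathlib.Analysis.CStarAlgebra.Module.Constructions
import Mathlib.Analysis.CStarAlgebra.ContinuousLinearMap
import Mathlib.MeasureTheory.Group.Integral
import Mathlib.Combinatorics.SimpleGraph.Basic
import Mathlib.MeasureTheory.Function.L2Space
import Mathlib.RingTheory.PiTensorProduct
import Mathlib.Order.CompletePartialOrder
import Mathlib.Tactic.Algebra.Basic

-- ======== part 0: formerly Pool.Agent.MP_2da52b_an.Gleason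
section MrgPart0

/-!
The convolution trick of Gleason and Yamabe, in a form used twice:
for finite trapping and for groups without small subgroups.
-/

open Set Filter Topology MeasureTheory
open scoped Pointwise

namespace Pool.Agent.MP_2da52b_an

variable {G : Type*} [Group G]

/-- A symmetric subadditive nonnegative function vanishing at the identity. -/
structure IsLength (ν : G → ℝ) : Prop where
  one : ν 1 = 0
  nonneg : ∀ x, 0 ≤ ν x
  inv : ∀ x, ν x⁻¹ = ν x
  mul : ∀ x y, ν (x * y) ≤ ν x + ν y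

lemma IsLength.pow_le {ν : G → ℝ} (h : IsLength ν) (x : G) (n : ℕ) : ν (x ^ n) ≤ n * ν x := by
  induction n with
  | zero => simp [h.one]
  | succ n ih =>
    rw [pow_succ]
    refine (h.mul _ _).trans ?_
    push_cast
    linarith

lemma IsLength.zpow_le {ν : G → ℝ} (h : IsLength ν) (x : G) (n : ℤ) :
    ν (x ^ n) ≤ |(n : ℝ)| * ν x := by
  obtain ⟨m, rfl | rfl⟩ := n.eq_nat_or_neg
  · simpa using h.pow_le x m
  · simpa [h.inv] using h.pow_le x m

lemma IsLength.list_prod_le {ν : G → ℝ} (h : IsLength ν) (l : List G) :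
    ν l.prod ≤ (l.map ν).sum := by
  induction l with
  | nil => simp [h.one]
  | cons a l ih =>
    simp only [List.prod_cons, List.map_cons, List.sum_cons]
    exact (h.mul _ _).trans (by linarith)

lemma IsLength.abs_sub_le {ν : G → ℝ} (h : IsLength ν) (x y : G) :
    |ν y - ν x| ≤ ν (x⁻¹ * y) := by
  have h1 : ν y ≤ ν x + ν (x⁻¹ * y) := by simpa using h.mul x (x⁻¹ * y)
  have h2 : ν x ≤ ν y + ν (x⁻¹ * y) := by
    have := h.mul y (x⁻¹ * y)⁻¹
    rw [h.inv] at this
    simpa using this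
  rw [abs_le]; constructor <;> linarith

/-- The word length attached to a weight. -/
noncomputable def wordInf (ω : G → ℝ) (g : G) : ℝ :=
  ⨅ l : {l : List G // l.prod = g}, (l.1.map ω).sum

section wordInf

variable {ω : G → ℝ}

instance (g : G) : Nonempty {l : List G // l.prod = g} := ⟨⟨[g], by simp⟩⟩

omit [Group G] in
lemma sum_map_nonneg (h0 : ∀ x, 0 ≤ ω x) (l : List G) : 0 ≤ (l.map ω).sum :=
  List.sum_nonneg (by simpa using fun a _ => h0 a)

lemma wordInf_bdd (h0 : ∀ x, 0 ≤ ω x) (g : G) :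
    BddBelow (range fun l : {l : List G // l.prod = g} => (l.1.map ω).sum) :=
  ⟨0, by rintro _ ⟨l, rfl⟩; exact sum_map_nonneg h0 _⟩

lemma wordInf_le (h0 : ∀ x, 0 ≤ ω x) (l : List G) : wordInf ω l.prod ≤ (l.map ω).sum :=
  ciInf_le (wordInf_bdd h0 _) ⟨l, rfl⟩

lemma wordInf_le_self (h0 : ∀ x, 0 ≤ ω x) (g : G) : wordInf ω g ≤ ω g := by
  simpa using wordInf_le h0 [g]

lemma exists_list_of_wordInf_lt {g : G} {c : ℝ} (h : wordInf ω g < c) :
    ∃ l : List G, l.prod = g ∧ (l.map ω).sum < c := by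
  obtain ⟨l, hl⟩ := exists_lt_of_ciInf_lt h
  exact ⟨l.1, l.2, hl⟩

lemma le_wordInf {g : G} {c : ℝ} (h : ∀ l : List G, l.prod = g → c ≤ (l.map ω).sum) :
    c ≤ wordInf ω g :=
  le_ciInf fun l => h l.1 l.2

lemma isLength_wordInf (h0 : ∀ x, 0 ≤ ω x) (hinv : ∀ x, ω x⁻¹ = ω x) :
    IsLength (wordInf ω) := by
  have hle : ∀ x, wordInf ω x⁻¹ ≤ wordInf ω x := by
    intro x
    refine le_wordInf fun l hl => ?_
    have h1 : ((l.map fun y => y⁻¹).reverse).prod = x⁻¹ := by
      rw [← hl, List.prod_inv_reverse]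
    have h2 := wordInf_le h0 ((l.map fun y => y⁻¹).reverse)
    rw [h1] at h2
    refine h2.trans (le_of_eq ?_)
    rw [List.map_reverse, List.sum_reverse, List.map_map]
    congr 2
    funext y
    simp [hinv]
  refine ⟨?_, fun x => le_wordInf fun l _ => sum_map_nonneg h0 l, fun x => ?_, fun x y => ?_⟩
  · refine le_antisymm ?_ (le_wordInf fun l _ => sum_map_nonneg h0 l)
    simpa using wordInf_le h0 []
  · refine le_antisymm (hle x) ?_
    simpa using hle x⁻¹
  · refine le_of_forall_pos_lt_add fun ε hε => ?_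
    obtain ⟨l₁, h₁, h₁'⟩ := exists_list_of_wordInf_lt (lt_add_of_pos_right (wordInf ω x) (half_pos hε))
    obtain ⟨l₂, h₂, h₂'⟩ := exists_list_of_wordInf_lt (lt_add_of_pos_right (wordInf ω y) (half_pos hε))
    have := wordInf_le h0 (l₁ ++ l₂)
    rw [List.prod_append, h₁, h₂, List.map_append, List.sum_append] at this
    linarith

end wordInf

variable [TopologicalSpace G] [IsTopologicalGroup G]

/-- Uniform continuity of a compactly supported function under small conjugated translations. -/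
lemma eventually_conj_translate {ψ : G → ℝ} (hψ : Continuous ψ) (hc : HasCompactSupport ψ)
    [LocallyCompactSpace G] {S : Set G} (hS : IsCompact S) {ε : ℝ} (hε : 0 < ε) :
    ∀ᶠ h in 𝓝 (1 : G), ∀ y ∈ S, ∀ x, |ψ (y⁻¹ * h⁻¹ * y * x) - ψ x| ≤ ε := by
  obtain ⟨W, hW, hW1⟩ := exists_compact_mem_nhds (1 : G)
  set T := tsupport ψ
  have hT : IsCompact T := hc
  have hK : IsCompact (S ×ˢ (S⁻¹ * W * S * T)) :=
    hS.prod (((hS.inv.mul hW).mul hS).mul hT)
  have h1 : ∀ᶠ h in 𝓝 (1 : G), ∀ p ∈ S ×ˢ (S⁻¹ * W * S * T),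
      |ψ (p.1⁻¹ * h⁻¹ * p.1 * p.2) - ψ p.2| < ε := by
    refine hK.eventually_forall_of_forall_eventually fun p _ => ?_
    have hc' : Continuous fun q : G × G × G => |ψ (q.2.1⁻¹ * q.1⁻¹ * q.2.1 * q.2.2) - ψ q.2.2| := by
      fun_prop
    exact hc'.continuousAt.eventually_lt continuousAt_const (by simpa using hε)
  filter_upwards [h1, hW1] with h hh hhW y hy x
  by_cases hx : x ∈ S⁻¹ * W * S * T
  · exact (hh (y, x) ⟨hy, hx⟩).le
  · have h1W : (1 : G) ∈ W := mem_of_mem_nhds hW1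
    have hx1 : x ∉ T := fun hxT => hx
      ⟨y⁻¹ * 1 * y, ⟨y⁻¹ * 1, ⟨y⁻¹, by simpa using hy, 1, h1W, rfl⟩, y, hy, rfl⟩, x, hxT, by simp⟩
    have hx2 : y⁻¹ * h⁻¹ * y * x ∉ T := fun hxT => hx
      ⟨y⁻¹ * h * y, ⟨y⁻¹ * h, ⟨y⁻¹, by simpa using hy, h, hhW, rfl⟩, y, hy, rfl⟩, _, hxT, by group⟩
    rw [image_eq_zero_of_notMem_tsupport hx1, image_eq_zero_of_notMem_tsupport hx2]
    simpa using hε.le

/-- The cut-off function built from a length. -/
noncomputable def cutoff (U : Set G) (ν : G → ℝ) (x : G) : ℝ :=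
  max 0 (1 - ⨅ y : U, ν (x * (y : G)⁻¹))

section cutoff

variable {U : Set G} {ν : G → ℝ}

omit [TopologicalSpace G] [IsTopologicalGroup G] in
lemma cutoff_bdd (hν : IsLength ν) (x : G) :
    BddBelow (range fun y : U => ν (x * (y : G)⁻¹)) :=
  ⟨0, by rintro _ ⟨y, rfl⟩; exact hν.nonneg _⟩

omit [TopologicalSpace G] [IsTopologicalGroup G] in
lemma cutoff_nonneg (x : G) : 0 ≤ cutoff U ν x := le_max_left _ _

omit [TopologicalSpace G] [IsTopologicalGroup G] in
lemma cutoff_le_one (hν : IsLength ν) (x : G) : cutoff U ν x ≤ 1 := by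
  refine max_le zero_le_one ?_
  have : 0 ≤ ⨅ y : U, ν (x * (y : G)⁻¹) := Real.iInf_nonneg fun y => hν.nonneg _
  linarith

omit [TopologicalSpace G] [IsTopologicalGroup G] in
lemma cutoff_eq_one (hν : IsLength ν) {x : G} (hx : x ∈ U) : cutoff U ν x = 1 := by
  refine le_antisymm (cutoff_le_one hν x) (le_max_of_le_right ?_)
  have := ciInf_le (cutoff_bdd (U := U) hν x) ⟨x, hx⟩
  simp only [mul_inv_cancel, hν.one] at this
  linarith

omit [TopologicalSpace G] [IsTopologicalGroup G] in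
lemma lt_cutoff_iff (hν : IsLength ν) (h1 : (1 : G) ∈ U) {c : ℝ} (hc : 0 ≤ c) (x : G) :
    c < cutoff U ν x ↔ ∃ y ∈ U, ν (x * y⁻¹) < 1 - c := by
  have : Nonempty U := ⟨⟨1, h1⟩⟩
  unfold cutoff
  rw [lt_max_iff, or_iff_right (not_lt.2 hc), lt_sub_comm, ciInf_lt_iff (cutoff_bdd hν x)]
  simp

omit [TopologicalSpace G] [IsTopologicalGroup G] in
lemma cutoff_lip (hν : IsLength ν) (h1 : (1 : G) ∈ U) (g x : G) :
    |cutoff U ν (g⁻¹ * x) - cutoff U ν x| ≤ ν g := by
  have : Nonempty U := ⟨⟨1, h1⟩⟩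
  have key : ∀ g x : G, (⨅ y : U, ν (g * x * (y : G)⁻¹)) ≤ ν g + ⨅ y : U, ν (x * (y : G)⁻¹) := by
    intro g x
    rw [← sub_le_iff_le_add']
    refine le_ciInf fun y => ?_
    have h2 := ciInf_le (cutoff_bdd (U := U) hν (g * x)) y
    have h3 := hν.mul g (x * (y : G)⁻¹)
    rw [← mul_assoc] at h3
    linarith
  have k1 := key g⁻¹ x
  have k2 := key g (g⁻¹ * x)
  rw [hν.inv] at k1
  rw [mul_inv_cancel_left] at k2
  unfold cutoff
  rw [max_comm 0, max_comm 0]
  refine (abs_max_sub_max_le_abs _ _ _).trans ?_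
  rw [abs_le]; constructor <;> linarith

lemma measurable_cutoff [MeasurableSpace G] [BorelSpace G] (hν : IsLength ν) (hU : IsOpen U)
    (h1 : (1 : G) ∈ U) : Measurable (cutoff U ν) := by
  refine measurable_of_Ioi fun c => ?_
  rcases lt_or_ge c 0 with hc | hc
  · have : cutoff U ν ⁻¹' Ioi c = univ := eq_univ_of_forall fun x => hc.trans_le (cutoff_nonneg x)
    rw [this]; exact MeasurableSet.univ
  · refine IsOpen.measurableSet ?_
    have : cutoff U ν ⁻¹' Ioi c = {g | ν g < 1 - c} * U := by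
      ext x
      rw [mem_preimage, mem_Ioi, lt_cutoff_iff hν h1 hc]
      constructor
      · rintro ⟨y, hy, h⟩
        exact ⟨x * y⁻¹, h, y, hy, by simp⟩
      · rintro ⟨g, hg, y, hy, rfl⟩
        exact ⟨y, hy, by simpa using hg⟩
    rw [this]
    exact hU.mul_left

end cutoff

/-- The Gleason and Yamabe convolution trick. -/
theorem gleason_trick [LocallyCompactSpace G] [T2Space G] {U : Set G} (hU : IsOpen U)
    (h1 : (1 : G) ∈ U) (hsymm : ∀ x ∈ U, x⁻¹ ∈ U) (hc : IsCompact (closure U)) :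
    ∃ C : ℝ, 0 < C ∧ ∀ ε > 0, ∃ V ∈ 𝓝 (1 : G), ∀ ν : G → ℝ, IsLength ν → (∀ x, ν x < 1 → x ∈ U) →
      ∃ ρ : G → ℝ, (∀ x y, ρ (x * y) ≤ ρ x + ρ y) ∧ ρ 1 = 0 ∧ (∀ x, 0 ≤ ρ x) ∧ (∀ x, ρ x ≤ C) ∧
        (∀ x, ρ x < 1 → x ∈ U * U * U) ∧
        ∀ (g : G) (n : ℕ), 0 < n → (∀ i ≤ n, g ^ i ∈ V) → ρ g ≤ C / n + ε * ν g := by
  borelize G
  set μ : Measure G := Measure.haar
  obtain ⟨ψ, hψ1, hψ0, hψc, hψ01⟩ := exists_continuous_one_zero_of_isCompact
    (isCompact_singleton (x := (1 : G))) hU.isClosed_compl (by simpa using h1)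
  set S := closure U * closure U * closure U
  have hS : IsCompact S := (hc.mul hc).mul hc
  have hUS : U * U * U ⊆ S := mul_subset_mul (mul_subset_mul subset_closure subset_closure)
    subset_closure
  have hψc' : HasCompactSupport fun y : G => ψ y⁻¹ := hψc.comp_homeomorph (Homeomorph.inv G)
  set a := ∫ y, ψ y⁻¹ ∂μ with ha_def
  have ha : 0 < a := by
    refine Continuous.integral_pos_of_hasCompactSupport_nonneg_nonzero (x := 1) (by fun_prop) hψc'
      (fun y => (hψ01 _).1) ?_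
    simp [hψ1 (mem_singleton 1)]
  set b := μ.real S
  have hb : 0 ≤ b := measureReal_nonneg
  refine ⟨(b + 1) / a, by positivity, fun ε hε => ?_⟩
  have hε' : 0 < ε * a / (b + 1) := by positivity
  refine ⟨U ∩ {h | ∀ y ∈ S, ∀ x, |ψ (y⁻¹ * h⁻¹ * y * x) - ψ x| ≤ ε * a / (b + 1)},
    inter_mem (hU.mem_nhds h1) (eventually_conj_translate ψ.continuous hψc hS hε'),
    fun ν hν hνU => ?_⟩
  set φ := cutoff U ν
  have hφm : Measurable φ := measurable_cutoff hν hU h1
  have hφs : ∀ x, φ x ≠ 0 → x ∈ U * U := by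
    intro x hx
    obtain ⟨y, hy, h⟩ := (lt_cutoff_iff hν h1 le_rfl x).1
      (lt_of_le_of_ne (cutoff_nonneg x) hx.symm)
    exact ⟨x * y⁻¹, hνU _ (by simpa using h), y, hy, by simp⟩
  have hUU : U * U ⊆ U * U * U := subset_mul_left _ h1
  -- integrability and bounds of functions supported in `S`
  have hbound : ∀ (f : G → ℝ) (M : ℝ), (∀ y, f y ≠ 0 → y ∈ S) → (∀ y ∈ S, |f y| ≤ M) →
      |∫ y, f y ∂μ| ≤ M * b := by
    intro f M hf hM
    rw [← setIntegral_eq_integral_of_forall_compl_eq_zero (s := S)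
      (fun y hy => by by_contra h; exact hy (hf y h))]
    exact norm_setIntegral_le_of_norm_le_const (f := f) hS.measure_lt_top hM
  have hint : ∀ (f : G → ℝ), Measurable f → (∀ y, f y ≠ 0 → y ∈ S) → (∀ y, |f y| ≤ 1) →
      Integrable f μ := by
    intro f hf hfs hM
    rw [← integrableOn_iff_integrable_of_support_subset (s := S) (fun y hy => hfs y hy)]
    exact Measure.integrableOn_of_bounded hS.measure_ne_top hf.aestronglyMeasurable
      (M := 1) (Eventually.of_forall hM)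
  have hφ1 : ∀ y, |φ y| ≤ 1 := fun y => by
    rw [abs_of_nonneg (cutoff_nonneg y)]; exact cutoff_le_one hν y
  have hψ1' : ∀ y, |ψ y| ≤ 1 := fun y => by
    rw [abs_of_nonneg (hψ01 y).1]; exact (hψ01 y).2
  set F : G → ℝ := fun x => ∫ y, φ y * ψ (y⁻¹ * x) ∂μ with hF
  have hF0 : ∀ x, 0 ≤ F x := fun x =>
    integral_nonneg fun y => mul_nonneg (cutoff_nonneg y) (hψ01 _).1
  have hFb : ∀ x, F x ≤ b := fun x => by
    have := hbound (fun y => φ y * ψ (y⁻¹ * x)) 1
      (fun y hy => hUS (hUU (hφs y (left_ne_zero_of_mul hy))))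
      (fun y _ => by rw [abs_mul]; exact mul_le_one₀ (hφ1 y) (abs_nonneg _) (hψ1' _))
    rw [one_mul] at this
    exact (le_abs_self _).trans this
  have hF1 : F 1 = a := by
    refine integral_congr_ae (Eventually.of_forall fun y => ?_)
    by_cases hy : y⁻¹ ∈ U
    · have : y ∈ U := by simpa using hsymm _ hy
      simp [φ, cutoff_eq_one hν this]
    · simp [hψ0 hy]
  have hFs : ∀ x, F x ≠ 0 → x ∈ U * U * U := by
    intro x hx
    by_contra hxU
    refine hx ?_
    have : (fun y => φ y * ψ (y⁻¹ * x)) = 0 := by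
      funext y
      by_contra hy
      have h2 := hφs y (left_ne_zero_of_mul hy)
      have h3 : y⁻¹ * x ∈ U := by
        by_contra h3
        exact right_ne_zero_of_mul hy (hψ0 h3)
      exact hxU ⟨y, h2, y⁻¹ * x, h3, by simp⟩
    simp only [hF, this]
    simp
  have hdiffb : ∀ g x, |F (g⁻¹ * x) - F x| ≤ b := fun g x => by
    have := hF0 x; have := hF0 (g⁻¹ * x); have := hFb x; have := hFb (g⁻¹ * x)
    rw [abs_le]; constructor <;> linarith
  have hbdd : ∀ g, BddAbove (range fun x => |F (g⁻¹ * x) - F x|) := fun g =>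
    ⟨b, by rintro _ ⟨x, rfl⟩; exact hdiffb g x⟩
  refine ⟨fun g => (⨆ x, |F (g⁻¹ * x) - F x|) / a, fun g h => ?_, by simp, fun g => ?_, fun g => ?_,
    fun g hg => ?_, fun g n hn hg => ?_⟩
  · rw [← add_div]
    refine div_le_div_of_nonneg_right (ciSup_le fun x => ?_) ha.le
    have h2 := le_ciSup (hbdd g) x
    have h3 := le_ciSup (hbdd h) (g⁻¹ * x)
    have h4 := abs_sub_le (F (h⁻¹ * (g⁻¹ * x))) (F (g⁻¹ * x)) (F x)
    rw [mul_inv_rev, mul_assoc]
    linarith
  · exact div_nonneg (Real.iSup_nonneg fun x => abs_nonneg _) ha.le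
  · exact div_le_div_of_nonneg_right (ciSup_le fun x => (hdiffb g x).trans (by linarith)) ha.le
  · rw [div_lt_one ha] at hg
    have h2 := (le_ciSup (hbdd g) 1).trans_lt hg
    rw [hF1, mul_one] at h2
    have h3 : F g⁻¹ ≠ 0 := by
      intro h; rw [h] at h2; simp [abs_of_pos ha] at h2
    obtain ⟨_, ⟨u, hu, v, hv, rfl⟩, w, hw, h4⟩ := hFs _ h3
    refine ⟨w⁻¹ * v⁻¹, ⟨w⁻¹, hsymm _ hw, v⁻¹, hsymm _ hv, rfl⟩, u⁻¹, hsymm _ hu, ?_⟩
    simp only at h4 ⊢
    rw [← inv_inv g, ← h4]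
    group
  · have hgU : g ∈ U := by simpa using (hg 1 hn).1
    -- first difference
    have hd1 : ∀ x, F (g⁻¹ * x) - F x = ∫ y, (φ (g⁻¹ * y) - φ y) * ψ (y⁻¹ * x) ∂μ := by
      intro x
      have e1 : F (g⁻¹ * x) = ∫ y, φ (g⁻¹ * y) * ψ (y⁻¹ * x) ∂μ := by
        simp only [hF]
        rw [← integral_mul_left_eq_self _ g⁻¹]
        simp [mul_assoc]
      rw [e1, hF, ← integral_sub]
      · simp only [sub_mul]
      · refine hint _ ((hφm.comp (measurable_const_mul _)).mul (by fun_prop)) (fun y hy => ?_)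
          (fun y => by rw [abs_mul]; exact mul_le_one₀ (hφ1 _) (abs_nonneg _) (hψ1' _))
        obtain ⟨u, hu, v, hv, h⟩ := hφs _ (left_ne_zero_of_mul hy)
        refine hUS ⟨g * u, ⟨g, hgU, u, hu, rfl⟩, v, hv, ?_⟩
        simp only at h ⊢
        rw [mul_assoc, h]; simp
      · exact hint _ (hφm.mul (by fun_prop)) (fun y hy => hUS (hUU (hφs y (left_ne_zero_of_mul hy))))
          (fun y => by rw [abs_mul]; exact mul_le_one₀ (hφ1 _) (abs_nonneg _) (hψ1' _))
    have hsupp : ∀ y, φ (g⁻¹ * y) - φ y ≠ 0 → y ∈ S := by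
      intro y hy
      by_cases h0 : φ y = 0
      · rw [h0, sub_zero] at hy
        obtain ⟨u, hu, v, hv, h⟩ := hφs _ hy
        refine hUS ⟨g * u, ⟨g, hgU, u, hu, rfl⟩, v, hv, ?_⟩
        simp only at h ⊢
        rw [mul_assoc, h]; simp
      · exact hUS (hUU (hφs y h0))
    have hdφ : ∀ y, |φ (g⁻¹ * y) - φ y| ≤ 1 := fun y => by
      have := cutoff_nonneg (U := U) (ν := ν) y
      have := cutoff_nonneg (U := U) (ν := ν) (g⁻¹ * y)
      have := cutoff_le_one (U := U) hν y
      have := cutoff_le_one (U := U) hν (g⁻¹ * y)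
      rw [abs_le]; constructor <;> simp only [φ] <;> linarith
    have hI : ∀ x, Integrable (fun y => (φ (g⁻¹ * y) - φ y) * ψ (y⁻¹ * x)) μ := fun x =>
      hint _ (((hφm.comp (measurable_const_mul _)).sub hφm).mul (by fun_prop))
        (fun y hy => hsupp y (left_ne_zero_of_mul hy))
        (fun y => by rw [abs_mul]; exact mul_le_one₀ (hdφ _) (abs_nonneg _) (hψ1' _))
    -- second difference
    have hd2 : ∀ i ≤ n, ∀ x, |(F (g⁻¹ * ((g ^ i)⁻¹ * x)) - F ((g ^ i)⁻¹ * x)) -
        (F (g⁻¹ * x) - F x)| ≤ ν g * (ε * a) := by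
      intro i hi x
      rw [hd1, hd1, ← integral_sub (hI _) (hI _)]
      refine (hbound _ (ν g * (ε * a / (b + 1))) (fun y hy => ?_) (fun y hy => ?_)).trans ?_
      · rw [← mul_sub] at hy
        exact hsupp y (left_ne_zero_of_mul hy)
      · rw [← mul_sub, abs_mul]
        refine mul_le_mul (cutoff_lip hν h1 g y) ?_ (abs_nonneg _) (hν.nonneg _)
        have := (hg i hi).2 y hy (y⁻¹ * x)
        simpa [mul_assoc] using this
      · rw [mul_assoc]
        refine mul_le_mul_of_nonneg_left ?_ (hν.nonneg _)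
        rw [div_mul_eq_mul_div, div_le_iff₀ (by positivity)]
        have : 0 < ε * a := by positivity
        nlinarith
    have htel : ∀ k ≤ n, ∀ x, |(F ((g ^ k)⁻¹ * x) - F x) - k * (F (g⁻¹ * x) - F x)| ≤
        k * (ν g * (ε * a)) := by
      intro k
      induction k with
      | zero => simp
      | succ k ih =>
        intro hk x
        have h2 := ih (by omega) x
        have h3 := hd2 k (by omega) x
        have h4 : (g ^ (k + 1))⁻¹ * x = g⁻¹ * ((g ^ k)⁻¹ * x) := by
          rw [pow_succ]; group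
        rw [h4]
        rw [abs_le] at h2 h3 ⊢
        push_cast
        constructor <;> linarith [h2.1, h2.2, h3.1, h3.2]
    have hnpos : (0 : ℝ) < n := by exact_mod_cast hn
    rw [div_le_iff₀ ha]
    refine ciSup_le fun x => ?_
    have h2 := htel n le_rfl x
    have h3 := hdiffb (g ^ n) x
    have h4 : n * |F (g⁻¹ * x) - F x| ≤ b + n * (ν g * (ε * a)) := by
      rw [← abs_of_pos hnpos, ← abs_mul, abs_of_pos hnpos]
      rw [abs_le] at h2 h3 ⊢
      constructor <;> linarith [h2.1, h2.2, h3.1, h3.2]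
    have h5 : ((b + 1) / a / n + ε * ν g) * a = ((b + 1) + n * (ν g * (ε * a))) / n := by
      field_simp
    rw [h5, le_div_iff₀ hnpos]
    linarith

end Pool.Agent.MP_2da52b_an

end MrgPart0

-- ======== part 1: formerly Pool.Agent.MP_2da52b_an.NSS
section MrgPart1

/-!
Groups without small subgroups carry a (weak) Gleason length.
-/

open Set Filter Topology
open scoped Pointwise

namespace Pool.Agent.MP_2da52b_an

variable {G : Type*} [Group G] [TopologicalSpace G]

/-- A continuous length with compact unit ball and the escape property. -/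
structure IsGleason (N : G → ℝ) : Prop extends IsLength N where
  cont : Continuous N
  compact : IsCompact {x | N x ≤ 1}
  escape : ∃ C : ℝ, ∀ (x : G) (n : ℕ), (∀ k ≤ n, N (x ^ k) ≤ 1) → n * N x ≤ C

variable [IsTopologicalGroup G]

lemma IsLength.continuous {ν : G → ℝ} (h : IsLength ν)
    (h1 : ∀ ε > 0, ∀ᶠ x in 𝓝 (1 : G), ν x < ε) : Continuous ν := by
  refine continuous_iff_continuousAt.2 fun x => ?_
  rw [ContinuousAt, Metric.tendsto_nhds]
  intro ε hε
  have h2 : Tendsto (fun y => x⁻¹ * y) (𝓝 x) (𝓝 1) := by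
    have : Continuous fun y => x⁻¹ * y := by fun_prop
    simpa using this.tendsto x
  filter_upwards [h2.eventually (h1 ε hε)] with y hy
  exact (h.abs_sub_le x y).trans_lt hy

lemma eventually_pow_mem {U : Set G} (hU : U ∈ 𝓝 (1 : G)) (n : ℕ) :
    ∀ᶠ x in 𝓝 (1 : G), ∀ i ≤ n, x ^ i ∈ U := by
  have : ∀ i ∈ Finset.range (n + 1), ∀ᶠ x in 𝓝 (1 : G), x ^ i ∈ U := fun i _ =>
    (continuous_pow i).continuousAt.preimage_mem_nhds (by simpa using hU)
  filter_upwards [(Finset.eventually_all _).2 this] with x hx i hi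
  exact hx i (Finset.mem_range.2 (by omega))

/-- Small open symmetric relatively compact neighbourhoods. -/
lemma exists_small_nhds [LocallyCompactSpace G] [T2Space G] {V : Set G} (hV : V ∈ 𝓝 (1 : G)) :
    ∃ U : Set G, IsOpen U ∧ (1 : G) ∈ U ∧ (∀ x ∈ U, x⁻¹ ∈ U) ∧ IsCompact (closure U) ∧
      closure U * closure U * closure U ⊆ V := by
  have h3 : Continuous fun p : G × G × G => p.1 * p.2.1 * p.2.2 := by fun_prop
  have h4 := h3.continuousAt.preimage_mem_nhds (x := (1, 1, 1)) (t := V) (by simpa using hV)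
  rw [nhds_prod_eq, nhds_prod_eq, Filter.mem_prod_iff] at h4
  obtain ⟨A, hA, BC, hBC, hsub⟩ := h4
  rw [Filter.mem_prod_iff] at hBC
  obtain ⟨B, hB, C, hC, hsub'⟩ := hBC
  obtain ⟨K, hK, hKsub, hKc⟩ := local_compact_nhds (inter_mem hA (inter_mem hB hC))
  have hcl : closure (interior K ∩ (interior K)⁻¹) ⊆ K :=
    closure_minimal (inter_subset_left.trans interior_subset) hKc.isClosed
  refine ⟨interior K ∩ (interior K)⁻¹, isOpen_interior.inter isOpen_interior.inv,
    ⟨mem_interior_iff_mem_nhds.2 hK, by simpa using mem_interior_iff_mem_nhds.2 hK⟩,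
    fun x hx => ⟨hx.2, by simpa using hx.1⟩, hKc.of_isClosed_subset isClosed_closure hcl, ?_⟩
  rintro _ ⟨_, ⟨a, ha, b, hb, rfl⟩, c, hc, rfl⟩
  exact hsub (mk_mem_prod (hKsub (hcl ha)).1
    (hsub' (mk_mem_prod (hKsub (hcl hb)).2.1 (hKsub (hcl hc)).2.2)))

/-- The escape norm. -/
noncomputable def esc (U : Set G) (g : G) : ℝ :=
  ⨅ n : {n : ℕ // ∀ i, 0 < i → i ≤ n → g ^ i ∈ U}, 1 / ((n : ℕ) + 1 : ℝ)

section esc

omit [TopologicalSpace G] [IsTopologicalGroup G]

variable {U : Set G}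

instance (U : Set G) (g : G) : Nonempty {n : ℕ // ∀ i, 0 < i → i ≤ n → g ^ i ∈ U} :=
  ⟨⟨0, fun i h1 h2 => by omega⟩⟩

lemma esc_nonneg (g : G) : 0 ≤ esc U g := Real.iInf_nonneg fun n => by positivity

lemma esc_le {g : G} {n : ℕ} (h : ∀ i, 0 < i → i ≤ n → g ^ i ∈ U) : esc U g ≤ 1 / (n + 1 : ℝ) :=
  ciInf_le (f := fun n : {n : ℕ // ∀ i, 0 < i → i ≤ n → g ^ i ∈ U} => 1 / ((n : ℕ) + 1 : ℝ))
    ⟨0, by rintro _ ⟨n, rfl⟩; positivity⟩ ⟨n, h⟩

lemma esc_le_one (g : G) : esc U g ≤ 1 := by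
  simpa using esc_le (U := U) (g := g) (n := 0) (fun i h1 h2 => by omega)

lemma mem_of_esc_lt_one {g : G} (h : esc U g < 1) : g ∈ U := by
  obtain ⟨⟨n, hn⟩, h2⟩ := exists_lt_of_ciInf_lt h
  rcases Nat.eq_zero_or_pos n with rfl | hn0
  · simp at h2
  · simpa using hn 1 one_pos hn0

lemma le_mul_esc {g : G} {a c : ℝ} (hc : 0 < c)
    (h : ∀ n : ℕ, (∀ i, 0 < i → i ≤ n → g ^ i ∈ U) → a ≤ c / (n + 1)) : a ≤ c * esc U g := by
  rw [← div_le_iff₀' hc]
  refine le_ciInf fun n => ?_
  rw [div_le_iff₀' hc]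
  simpa [div_eq_mul_inv] using h n.1 n.2

lemma esc_inv (hs : ∀ x ∈ U, x⁻¹ ∈ U) (g : G) : esc U g⁻¹ = esc U g := by
  have : ∀ g : G, esc U g⁻¹ ≤ esc U g := fun g =>
    le_ciInf fun n => esc_le fun i h1 h2 => by simpa using hs _ (n.2 i h1 h2)
  exact le_antisymm (this g) (by simpa using this g⁻¹)

lemma esc_one (h1 : (1 : G) ∈ U) : esc U 1 = 0 := by
  refine le_antisymm (le_of_forall_pos_le_add fun ε hε => ?_) (esc_nonneg _)
  obtain ⟨n, hn⟩ := exists_nat_one_div_lt hε
  exact (esc_le (n := n) fun i _ _ => by simpa using h1).trans (by linarith)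

end esc

/-- Comparability of escape times in a group without small subgroups. -/
lemma nss_compare [T2Space G] {S W : Set G} (hS : IsCompact S) (hW : W ∈ 𝓝 (1 : G))
    (hnss : ∀ x : G, (∀ k : ℕ, x ^ k ∈ S) → x = 1) :
    ∃ m : ℕ, 0 < m ∧ ∀ (g : G) (n : ℕ), (∀ i ≤ m * n, g ^ i ∈ S) → ∀ i ≤ n, g ^ i ∈ W := by
  have hK : IsCompact (S \ interior W) := hS.diff isOpen_interior
  obtain ⟨t, ht⟩ := hK.elim_finite_subcover (fun k : ℕ => {x : G | x ^ k ∉ S})
    (fun k => (hS.isClosed.preimage (continuous_pow k)).isOpen_compl) (by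
      intro x hx
      by_contra h
      simp only [mem_iUnion, mem_ofPred_eq, not_exists, not_not] at h
      exact hx.2 (hnss x h ▸ mem_interior_iff_mem_nhds.2 hW))
  refine ⟨t.sup id + 1, Nat.succ_pos _, fun g n hg i hi => ?_⟩
  by_contra h
  have hi1 : g ^ i ∈ S := hg i (hi.trans (Nat.le_mul_of_pos_left _ (Nat.succ_pos _)))
  obtain ⟨k, hk, hk'⟩ := mem_iUnion₂.1 (ht ⟨hi1, fun h' => h (interior_subset h')⟩)
  refine hk' ?_
  rw [← pow_mul]
  refine hg _ ?_
  have : k ≤ t.sup id := Finset.le_sup (f := id) hk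
  rw [mul_comm]
  exact Nat.mul_le_mul (by omega) hi

omit [TopologicalSpace G] [IsTopologicalGroup G] in
lemma subadd_pow {ρ : G → ℝ} (h : ∀ x y, ρ (x * y) ≤ ρ x + ρ y) (h1 : ρ 1 = 0) (x : G) (n : ℕ) :
    ρ (x ^ n) ≤ n * ρ x := by
  induction n with
  | zero => simp [h1]
  | succ n ih =>
    rw [pow_succ]
    refine (h _ _).trans ?_
    push_cast
    linarith

omit [TopologicalSpace G] [IsTopologicalGroup G] in
lemma subadd_list {ρ : G → ℝ} (h : ∀ x y, ρ (x * y) ≤ ρ x + ρ y) (h1 : ρ 1 = 0) (l : List G) :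
    ρ l.prod ≤ (l.map ρ).sum := by
  induction l with
  | nil => simp [h1]
  | cons a l ih =>
    simp only [List.prod_cons, List.map_cons, List.sum_cons]
    exact (h _ _).trans (by linarith)

/-- The approximate triangle inequality for the escape norm. -/
lemma esc_triangle [LocallyCompactSpace G] [T2Space G] {U : Set G} (hU : IsOpen U)
    (h1 : (1 : G) ∈ U) (hs : ∀ x ∈ U, x⁻¹ ∈ U) (hc : IsCompact (closure U))
    (hnss : ∀ x : G, (∀ k : ℕ, x ^ k ∈ closure U * closure U * closure U) → x = 1) :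
    ∃ M : ℝ, 0 < M ∧ ∀ l : List G, esc U l.prod ≤ M * (l.map (esc U)).sum := by
  set S := closure U * closure U * closure U
  have hS : IsCompact S := (hc.mul hc).mul hc
  have hUS : U * U * U ⊆ S := mul_subset_mul (mul_subset_mul subset_closure subset_closure)
    subset_closure
  have hUS' : U ⊆ S := fun x hx => hUS ⟨x * 1, ⟨x, hx, 1, h1, rfl⟩, 1, h1, by simp⟩
  obtain ⟨C, hC, hG⟩ := gleason_trick hU h1 hs hc
  obtain ⟨m₀, hm₀, hm₀'⟩ := nss_compare hS (hU.mem_nhds h1) hnss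
  have hm₀R : (0 : ℝ) < m₀ := by exact_mod_cast hm₀
  obtain ⟨V, hV, hG⟩ := hG (1 / (2 * m₀)) (by positivity)
  obtain ⟨m₁, hm₁, hm₁'⟩ := nss_compare hS hV hnss
  have hm₁R : (1 : ℝ) ≤ m₁ := by exact_mod_cast hm₁
  set C' : ℝ := 2 * m₀ * m₁ * C
  have hC' : 0 < C' := by positivity
  have boot : ∀ ε₀ > 0, ∀ M > 0, (∀ l : List G, esc U l.prod ≤
      M * (l.map fun g => esc U g + ε₀).sum) → ∀ l : List G, esc U l.prod ≤
      (M / 2 + C') * (l.map fun g => esc U g + ε₀).sum := by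
    intro ε₀ hε₀ M hM hP
    set ω : G → ℝ := fun g => esc U g + ε₀
    have hω0 : ∀ g, 0 ≤ ω g := fun g => add_nonneg (esc_nonneg g) hε₀.le
    have hL := isLength_wordInf hω0 (fun g => by simp [ω, esc_inv hs])
    have hν : IsLength fun g => M * wordInf ω g :=
      ⟨by simp [hL.one], fun x => mul_nonneg hM.le (hL.nonneg x), fun x => by rw [hL.inv],
        fun x y => by rw [← mul_add]; exact mul_le_mul_of_nonneg_left (hL.mul x y) hM.le⟩
    obtain ⟨ρ, hρadd, hρ1, hρ0, hρC, hρU, hρ⟩ := hG _ hν (fun x hx => by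
      obtain ⟨l, hl, hl'⟩ := exists_list_of_wordInf_lt ((lt_div_iff₀' hM).2 hx)
      refine mem_of_esc_lt_one ?_
      rw [← hl]
      exact (hP l).trans_lt ((lt_div_iff₀' hM).1 hl'))
    have hρω : ∀ g, ρ g ≤ (2 * m₁ * C + M / (2 * m₀)) * ω g := by
      intro g
      have hν0 : 0 ≤ 1 / (2 * m₀) * (M * wordInf ω g) := mul_nonneg (by positivity) (hν.nonneg g)
      have h2 : ρ g - 1 / (2 * m₀) * (M * wordInf ω g) ≤ 2 * m₁ * C * esc U g := by
        refine le_mul_esc (by positivity) fun n hn => ?_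
        have hpow : ∀ i ≤ n / m₁, g ^ i ∈ V := by
          refine hm₁' g _ fun i hi => ?_
          rcases Nat.eq_zero_or_pos i with rfl | hi0
          · simpa using hUS' h1
          · exact hUS' (hn i hi0 (hi.trans (Nat.mul_div_le n m₁)))
        have hlt : n < m₁ * (n / m₁ + 1) := Nat.lt_mul_div_succ n hm₁
        have hle : (n + 1 : ℝ) ≤ m₁ * ((n / m₁ : ℕ) + 1) := by exact_mod_cast hlt
        rcases Nat.eq_zero_or_pos (n / m₁) with h0 | h0
        · rw [h0] at hle
          have : C ≤ 2 * m₁ * C / (n + 1) := by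
            rw [le_div_iff₀ (by positivity)]
            push_cast at hle
            nlinarith
          linarith [hρC g]
        · have h0R : (1 : ℝ) ≤ (n / m₁ : ℕ) := by exact_mod_cast h0
          have : C / (n / m₁ : ℕ) ≤ 2 * m₁ * C / (n + 1) := by
            rw [div_le_div_iff₀ (by positivity) (by positivity)]
            have : (n + 1 : ℝ) ≤ 2 * m₁ * (n / m₁ : ℕ) := by nlinarith
            nlinarith
          linarith [hρ g _ h0 hpow]
      have h3 : wordInf ω g ≤ ω g := wordInf_le_self hω0 g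
      have h4 : 1 / (2 * m₀) * (M * wordInf ω g) ≤ M / (2 * m₀) * ω g := by
        rw [← mul_assoc, one_div_mul_eq_div]
        exact mul_le_mul_of_nonneg_left h3 (by positivity)
      have h5 : 2 * m₁ * C * esc U g ≤ 2 * m₁ * C * ω g :=
        mul_le_mul_of_nonneg_left (by simp [ω, hε₀.le]) (by positivity)
      linarith
    intro l
    set σ := (2 * m₁ * C + M / (2 * m₀)) * (l.map ω).sum
    have hσ0 : 0 ≤ σ := mul_nonneg (by positivity) (sum_map_nonneg hω0 l)
    have hρl : ρ l.prod ≤ σ := by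
      refine (subadd_list hρadd hρ1 l).trans ?_
      simp only [σ]
      rw [← List.sum_map_mul_left]
      exact List.sum_le_sum fun g _ => hρω g
    have hkey : ∀ n : ℕ, m₀ * n * σ < 1 → esc U l.prod ≤ 1 / (n + 1 : ℝ) := by
      intro n hn
      refine esc_le fun i _ hi => hm₀' _ n (fun j hj => hUS (hρU _ ?_)) i hi
      refine (subadd_pow hρadd hρ1 _ j).trans_lt (lt_of_le_of_lt ?_ hn)
      have hj' : (j : ℝ) ≤ m₀ * n := by exact_mod_cast hj
      exact mul_le_mul hj' hρl (hρ0 _) (by positivity)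
    have hfin : (M / 2 + C') * (l.map ω).sum = m₀ * σ := by
      simp only [σ, C']
      field_simp
      ring
    rw [hfin]
    by_contra hlt
    push Not at hlt
    have hall : ∀ n : ℕ, m₀ * n * σ < 1 := by
      intro n
      induction n with
      | zero => simp
      | succ n ih =>
        have := hlt.trans_le (hkey n ih)
        rw [lt_div_iff₀ (by positivity)] at this
        push_cast
        linarith
    have hpos : 0 < esc U l.prod := lt_of_le_of_lt (by positivity) hlt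
    obtain ⟨n, hn⟩ := exists_nat_one_div_lt hpos
    exact absurd (hkey n (hall n)) (not_le.2 hn)
  have iter : ∀ ε₀ > 0, ∀ j : ℕ, ∀ l : List G, esc U l.prod ≤
      (1 / ε₀ / 2 ^ j + 2 * C') * (l.map fun g => esc U g + ε₀).sum := by
    intro ε₀ hε₀ j
    induction j with
    | zero =>
      intro l
      cases l with
      | nil => simp [esc_one h1]
      | cons a l =>
        have h2 : 0 ≤ (l.map fun g => esc U g + ε₀).sum :=
          sum_map_nonneg (fun g => add_nonneg (esc_nonneg g) hε₀.le) l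
        have h3 := esc_nonneg (U := U) a
        refine (esc_le_one _).trans ?_
        simp only [List.map_cons, List.sum_cons, pow_zero, div_one]
        have h4 : 1 / ε₀ * ε₀ = 1 := by field_simp
        have h5 : 0 < 1 / ε₀ := by positivity
        nlinarith
    | succ j ih =>
      intro l
      have := boot ε₀ hε₀ _ (by positivity) ih l
      convert this using 2
      rw [pow_succ]
      field_simp
      ring
  refine ⟨2 * C', by positivity, fun l => ?_⟩
  have h2 : ∀ ε₀ > 0, esc U l.prod ≤ 2 * C' * (l.map fun g => esc U g + ε₀).sum := by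
    intro ε₀ hε₀
    have h3 : Tendsto (fun j : ℕ => (1 / ε₀ / 2 ^ j + 2 * C') * (l.map fun g => esc U g + ε₀).sum)
        atTop (𝓝 ((0 + 2 * C') * (l.map fun g => esc U g + ε₀).sum)) :=
      ((tendsto_const_nhds.div_atTop (tendsto_pow_atTop_atTop_of_one_lt one_lt_two)).add
        tendsto_const_nhds).mul tendsto_const_nhds
    rw [zero_add] at h3
    exact ge_of_tendsto' h3 fun j => iter ε₀ hε₀ j l
  have h3 : ∀ ε₀ : ℝ, (l.map fun g => esc U g + ε₀).sum = (l.map (esc U)).sum + l.length * ε₀ := by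
    intro ε₀
    rw [List.sum_map_add]
    simp
  have h4 : Tendsto (fun ε₀ : ℝ => 2 * C' * ((l.map (esc U)).sum + l.length * ε₀)) (𝓝[>] 0)
      (𝓝 (2 * C' * ((l.map (esc U)).sum + l.length * 0))) :=
    tendsto_nhdsWithin_of_tendsto_nhds (Continuous.tendsto (by fun_prop) _)
  rw [mul_zero, add_zero] at h4
  refine ge_of_tendsto h4 ?_
  filter_upwards [self_mem_nhdsWithin] with ε₀ hε₀
  rw [← h3]
  exact h2 ε₀ hε₀

/-- A group without small subgroups has Gleason lengths with small unit ball. -/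
theorem exists_isGleason_of_nss [LocallyCompactSpace G] [T2Space G] {Z : Set G}
    (hZ : Z ∈ 𝓝 (1 : G)) (hnss : ∀ x : G, (∀ k : ℕ, x ^ k ∈ Z) → x = 1) :
    ∃ N : G → ℝ, IsGleason N ∧ ∀ x, N x ≤ 1 → x ∈ Z := by
  obtain ⟨U, hU, h1, hs, hc, hUZ⟩ := exists_small_nhds hZ
  obtain ⟨M, hM, hMl⟩ := esc_triangle hU h1 hs hc fun x hx => hnss x fun k => hUZ (hx k)
  have hL := isLength_wordInf (esc_nonneg (U := U)) (esc_inv hs)
  have hν : IsLength fun g => 2 * M * wordInf (esc U) g :=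
    ⟨by simp [hL.one], fun x => mul_nonneg (by positivity) (hL.nonneg x), fun x => by rw [hL.inv],
      fun x y => by rw [← mul_add]; exact mul_le_mul_of_nonneg_left (hL.mul x y) (by positivity)⟩
  have hball : ∀ x, 2 * M * wordInf (esc U) x ≤ 1 → x ∈ U := by
    intro x hx
    have : wordInf (esc U) x < 1 / M := by
      rw [lt_div_iff₀ hM]
      have := hL.nonneg x
      nlinarith
    obtain ⟨l, hl, hl'⟩ := exists_list_of_wordInf_lt this
    refine mem_of_esc_lt_one ?_
    rw [← hl]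
    exact (hMl l).trans_lt ((lt_div_iff₀' hM).1 hl')
  have hesc : ∀ (x : G) (n : ℕ), (∀ k ≤ n, x ^ k ∈ U) →
      2 * M * wordInf (esc U) x ≤ 2 * M / (n + 1) := by
    intro x n hx
    rw [div_eq_mul_one_div]
    exact mul_le_mul_of_nonneg_left ((wordInf_le_self esc_nonneg x).trans
      (esc_le fun i _ hi => hx i hi)) (by positivity)
  have hcont : Continuous fun g => 2 * M * wordInf (esc U) g := by
    refine hν.continuous fun ε hε => ?_
    obtain ⟨n, hn⟩ := exists_nat_gt (2 * M / ε)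
    filter_upwards [eventually_pow_mem (hU.mem_nhds h1) n] with x hx
    refine (hesc x n hx).trans_lt ?_
    rw [div_lt_iff₀ (by positivity)]
    rw [div_lt_iff₀ hε] at hn
    nlinarith
  refine ⟨_, ⟨hν, hcont, ?_, 2 * M, fun x n hx => ?_⟩, fun x hx => hUZ ?_⟩
  · exact hc.of_isClosed_subset (isClosed_le hcont continuous_const)
      fun x hx => subset_closure (hball x hx)
  · have := hesc x n fun k hk => hball _ (hx k hk)
    rw [le_div_iff₀ (by positivity)] at this
    have h0 := hν.nonneg x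
    nlinarith
  · exact ⟨x * 1, ⟨x, subset_closure (hball x hx), 1, subset_closure h1, rfl⟩, 1,
      subset_closure h1, by simp⟩

end Pool.Agent.MP_2da52b_an

end MrgPart1

-- ======== part 2: formerly Pool.Agent.MP_2da52b_an.PeterWeyl
section MrgPart2

/-!
Unitary representations, and the part of the Peter and Weyl theorem that is needed.
-/

set_option maxSynthPendingDepth 3

open Set Filter Topology MeasureTheory
open scoped Pointwise InnerProductSpace

namespace Pool.Agent.MP_2da52b_an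

variable {G : Type*} [Group G] [TopologicalSpace G]
variable {H : Type*} [NormedAddCommGroup H] [InnerProductSpace ℂ H]

lemma integral_mem_of_isClosed {𝕜 E X : Type*} [RCLike 𝕜] [NormedAddCommGroup E] [NormedSpace 𝕜 E]
    [NormedSpace ℝ E] [IsScalarTower ℝ 𝕜 E] [CompleteSpace E] [MeasurableSpace X] {μ : Measure X}
    {S : Submodule 𝕜 E} (hS : IsClosed (S : Set E)) {f : X → E} (hf : ∀ x, f x ∈ S) :
    ∫ x, f x ∂μ ∈ S := by
  have : CompleteSpace S := hS.completeSpace_coe
  let : NormedSpace ℝ S := NormedSpace.restrictScalars ℝ 𝕜 S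
  have h := S.subtypeₗᵢ.integral_comp_comm (μ := μ) (fun x => (⟨f x, hf x⟩ : S))
  have h2 : ∫ x, f x ∂μ = S.subtypeₗᵢ (∫ x, (⟨f x, hf x⟩ : S) ∂μ) := h
  rw [h2]
  exact Subtype.property _

/-- A strongly continuous unitary representation. -/
structure IsURep (π : G →* (H →L[ℂ] H)) : Prop where
  norm_eq : ∀ x v, ‖π x v‖ = ‖v‖
  cont : ∀ v, Continuous fun x => π x v

namespace IsURep

variable {π : G →* (H →L[ℂ] H)}

lemma inner_map (h : IsURep π) (x : G) (v w : H) : ⟪π x v, π x w⟫_ℂ = ⟪v, w⟫_ℂ :=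
  (LinearIsometry.mk (π x).toLinearMap (h.norm_eq x)).inner_map_map v w

omit [TopologicalSpace G] in
lemma mul_apply (π : G →* (H →L[ℂ] H)) (x y : G) (v : H) : π (x * y) v = π x (π y v) := by
  rw [map_mul]; rfl

omit [TopologicalSpace G] in
lemma one_apply (π : G →* (H →L[ℂ] H)) (v : H) : π 1 v = v := by
  rw [map_one]; rfl

lemma inner_left (h : IsURep π) (x : G) (v w : H) : ⟪π x v, w⟫_ℂ = ⟪v, π x⁻¹ w⟫_ℂ := by
  rw [← h.inner_map x⁻¹, ← mul_apply, inv_mul_cancel, one_apply]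

lemma inner_right (h : IsURep π) (x : G) (v w : H) : ⟪v, π x w⟫_ℂ = ⟪π x⁻¹ v, w⟫_ℂ := by
  rw [h.inner_left, inv_inv]

lemma norm_sub_inv (h : IsURep π) (x : G) (v : H) : ‖π x⁻¹ v - v‖ = ‖π x v - v‖ := by
  rw [← h.norm_eq x, map_sub, ← mul_apply, mul_inv_cancel, one_apply, norm_sub_rev]

lemma norm_sub_mul (h : IsURep π) (x y : G) (v : H) :
    ‖π (x * y) v - v‖ ≤ ‖π x v - v‖ + ‖π y v - v‖ := by
  have : π (x * y) v - v = (π x v - v) + π x (π y v - v) := by
    rw [map_sub, mul_apply]; abel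
  rw [this]
  exact (norm_add_le _ _).trans (by rw [h.norm_eq])

lemma norm_sub_sub (h : IsURep π) (x y : G) (v : H) :
    ‖π y v - π x v‖ = ‖π (x⁻¹ * y) v - v‖ := by
  rw [← h.norm_eq x⁻¹, map_sub, ← mul_apply, ← mul_apply, inv_mul_cancel, one_apply]

lemma continuous_apply (h : IsURep π) {X : Type*} [TopologicalSpace X] {f : X → G} {g : X → H}
    (hf : Continuous f) (hg : Continuous g) : Continuous fun x => π (f x) (g x) := by
  refine continuous_iff_continuousAt.2 fun x₀ => ?_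
  rw [ContinuousAt, tendsto_iff_norm_sub_tendsto_zero]
  have h1 : Tendsto (fun x => ‖g x - g x₀‖ + ‖π (f x) (g x₀) - π (f x₀) (g x₀)‖) (𝓝 x₀) (𝓝 0) := by
    have : Continuous fun x => ‖g x - g x₀‖ + ‖π (f x) (g x₀) - π (f x₀) (g x₀)‖ :=
      (hg.sub continuous_const).norm.add (((h.cont _).comp hf).sub continuous_const).norm
    simpa using this.tendsto x₀
  refine squeeze_zero (fun _ => norm_nonneg _) (fun x => ?_) h1
  have : π (f x) (g x) - π (f x₀) (g x₀) =
      π (f x) (g x - g x₀) + (π (f x) (g x₀) - π (f x₀) (g x₀)) := by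
    rw [map_sub]; abel
  rw [this]
  exact (norm_add_le _ _).trans (by rw [h.norm_eq])

end IsURep

variable [IsTopologicalGroup G] [CompleteSpace H] {π : G →* (H →L[ℂ] H)}

open InnerProductSpace in
/-- Finite dimensional invariant subspaces of a compact subgroup see every group element that
acts nontrivially. -/
lemma exists_finiteDimensional_invariant (hπ : IsURep π) {K : Subgroup G}
    (hK : IsCompact (K : Set G)) {x : G} {ξ : H} (hx : π x ξ ≠ ξ) :
    ∃ F : Submodule ℂ H, FiniteDimensional ℂ F ∧ (∀ k ∈ K, ∀ v ∈ F, π k v ∈ F) ∧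
      ∃ v ∈ F, π x v ≠ v := by
  have : CompactSpace K := isCompact_iff_compactSpace.1 hK
  borelize ↥K
  set m : Measure K := Measure.haar
  set R : K → H →L[ℂ] H := fun k => rankOne ℂ (π k ξ) (π k ξ) with hR
  have hπK : Continuous fun k : K => π k ξ := (hπ.cont ξ).comp continuous_subtype_val
  have hRc : Continuous R := by
    simp only [hR]
    exact ((ContinuousLinearMap.smulRightL ℂ H H).continuous.comp
      ((innerSL ℂ).continuous.comp hπK)).clm_apply hπK
  have hRi : Integrable R m := hRc.integrable_of_hasCompactSupport (HasCompactSupport.of_compactSpace _)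
  set Q : H →L[ℂ] H := ∫ k, R k ∂m with hQ
  have hQv : ∀ v, Q v = ∫ k, ⟪π k ξ, v⟫_ℂ • π k ξ ∂m := fun v => by
    rw [hQ, ContinuousLinearMap.integral_apply hRi]
    rfl
  have hvi : ∀ v, Integrable (fun k : K => ⟪π k ξ, v⟫_ℂ • π k ξ) m := fun v =>
    ((hπK.inner continuous_const).smul hπK).integrable_of_hasCompactSupport
      (HasCompactSupport.of_compactSpace _)
  have hQi : ∀ w v, ⟪w, Q v⟫_ℂ = ∫ k, ⟪π k ξ, v⟫_ℂ * ⟪w, π k ξ⟫_ℂ ∂m := fun w v => by
    rw [hQv, ← integral_inner (hvi v)]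
    simp only [inner_smul_right]
  have hQc : IsCompactOperator Q := by
    have hcl : IsClosed ((compactOperator (RingHom.id ℂ) H H : Submodule ℂ (H →L[ℂ] H)) :
        Set (H →L[ℂ] H)) := isClosed_setOfPred_isCompactOperator
    have hmem : Q ∈ compactOperator (RingHom.id ℂ) H H := by
      refine integral_mem_of_isClosed hcl fun k => ?_
      exact (isCompactOperator_of_locallyCompactSpace_dom (innerSL ℂ (π k ξ))).clm_comp
        (ContinuousLinearMap.toSpanSingleton ℂ (π k ξ))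
    exact hmem
  have hQs : (Q : H →ₗ[ℂ] H).IsSymmetric := by
    intro v w
    change ⟪Q v, w⟫_ℂ = ⟪v, Q w⟫_ℂ
    rw [← inner_conj_symm, hQi, hQi, ← integral_conj]
    simp [mul_comm]
  have hQcomm : ∀ k ∈ K, ∀ v, Q (π k v) = π k (Q v) := by
    intro k hk v
    rw [hQv, hQv, ← ContinuousLinearMap.integral_comp_comm _ (hvi v),
      ← integral_mul_left_eq_self _ (⟨k, hk⟩ : K)]
    simp only [Subgroup.coe_mul, IsURep.mul_apply, hπ.inner_map, map_smul]
  by_contra hcon
  push Not at hcon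
  have hfix : ∀ μ : ℂ, μ ≠ 0 → ∀ v ∈ Module.End.eigenspace (Q : H →ₗ[ℂ] H) μ, π x v = v := by
    intro μ hμ
    refine hcon _ (ContinuousLinearMap.finite_dimensional_eigenspace hQc μ hμ) fun k hk v hv => ?_
    rw [Module.End.mem_eigenspace_iff] at hv ⊢
    change Q (π k v) = _
    change Q v = _ at hv
    rw [hQcomm k hk, hv, map_smul]
  refine hx (ext_inner_left ℂ fun z => ?_)
  set w := π x⁻¹ z - z
  have hw : Q w = 0 := by
    have h1 : Q w ∈ (⨆ μ, Module.End.eigenspace (Q : H →ₗ[ℂ] H) μ)ᗮ := by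
      rw [← Submodule.iInf_orthogonal, Submodule.mem_iInf]
      intro μ
      rw [Submodule.mem_orthogonal]
      intro v hv
      have h2 : ⟪v, Q w⟫_ℂ = ⟪Q v, w⟫_ℂ := (hQs v w).symm
      have h3 : Q v = μ • v := Module.End.mem_eigenspace_iff.1 hv
      rw [h2, h3, inner_smul_left]
      rcases eq_or_ne μ 0 with rfl | hμ
      · simp
      · simp only [w, inner_sub_right]
        rw [hπ.inner_right, inv_inv, hfix μ hμ v hv]
        simp
    rw [ContinuousLinearMap.orthogonalComplement_iSup_eigenspaces_eq_bot hQc hQs] at h1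
    simpa using h1
  have h2 : ∫ k : K, ‖⟪w, π k ξ⟫_ℂ‖ ^ 2 ∂m = 0 := by
    have h3 := hQi w w
    rw [hw, inner_zero_right] at h3
    have h4 : ∀ k : K, ⟪π k ξ, w⟫_ℂ * ⟪w, π k ξ⟫_ℂ = ((‖⟪w, π k ξ⟫_ℂ‖ ^ 2 : ℝ) : ℂ) := fun k => by
      rw [← inner_conj_symm, Complex.conj_mul']
      simp
    simp only [h4] at h3
    rw [integral_complex_ofReal] at h3
    exact_mod_cast h3.symm
  have h3 : Continuous fun k : K => ‖⟪w, π k ξ⟫_ℂ‖ ^ 2 :=
    (continuous_const.inner hπK).norm.pow 2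
  have h4 : ‖⟪w, π (1 : K) ξ⟫_ℂ‖ ^ 2 = 0 := by
    by_contra h5
    exact (h3.integral_pos_of_hasCompactSupport_nonneg_nonzero (μ := m)
      (HasCompactSupport.of_compactSpace _) (fun k => by positivity) h5).ne' h2
  simp only [OneMemClass.coe_one, IsURep.one_apply, ne_eq, OfNat.ofNat_ne_zero, not_false_eq_true,
    pow_eq_zero_iff, norm_eq_zero, w, inner_sub_left, sub_eq_zero] at h4
  rw [hπ.inner_right, h4]

/-- The finite dimensional invariant subspace can be chosen uniformly on a compact set. -/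
lemma exists_finiteDimensional_invariant_compact (hπ : IsURep π) {K : Subgroup G}
    (hK : IsCompact (K : Set G)) {T : Set G} (hT : IsCompact T) (hx : ∀ x ∈ T, ∃ ξ, π x ξ ≠ ξ) :
    ∃ F : Submodule ℂ H, FiniteDimensional ℂ F ∧ (∀ k ∈ K, ∀ v ∈ F, π k v ∈ F) ∧
      ∀ x ∈ T, ∃ v ∈ F, π x v ≠ v := by
  refine hT.induction_on (p := fun T => ∃ F : Submodule ℂ H, FiniteDimensional ℂ F ∧
    (∀ k ∈ K, ∀ v ∈ F, π k v ∈ F) ∧ ∀ x ∈ T, ∃ v ∈ F, π x v ≠ v) ?_ ?_ ?_ ?_
  · exact ⟨⊥, inferInstance, by simp, by simp⟩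
  · rintro s t hst ⟨F, h1, h2, h3⟩
    exact ⟨F, h1, h2, fun x hx => h3 x (hst hx)⟩
  · rintro s t ⟨F, h1, h2, h3⟩ ⟨F', h1', h2', h3'⟩
    refine ⟨F ⊔ F', inferInstance, fun k hk v hv => ?_, ?_⟩
    · obtain ⟨a, ha, b, hb, rfl⟩ := Submodule.mem_sup.1 hv
      rw [map_add]
      exact Submodule.add_mem_sup (h2 k hk a ha) (h2' k hk b hb)
    · rintro x (hx | hx)
      · obtain ⟨v, hv, h⟩ := h3 x hx
        exact ⟨v, Submodule.mem_sup_left hv, h⟩
      · obtain ⟨v, hv, h⟩ := h3' x hx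
        exact ⟨v, Submodule.mem_sup_right hv, h⟩
  · intro x hxT
    obtain ⟨ξ, hξ⟩ := hx x hxT
    obtain ⟨F, h1, h2, v, hv, h3⟩ := exists_finiteDimensional_invariant hπ hK hξ
    refine ⟨{y | π y v ≠ v}, mem_nhdsWithin_of_mem_nhds ?_, F, h1, h2, fun y hy => ⟨v, hv, hy⟩⟩
    exact (isClosed_eq (hπ.cont v) continuous_const).isOpen_compl.mem_nhds h3

/-- A compact subgroup has no small subgroups modulo the kernel of a finite dimensional
representation. -/
theorem exists_nss_core (hπ : IsURep π) {K : Subgroup G}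
    (hK : IsCompact (K : Set G)) {T : Set G} (hT : IsCompact T) (hx : ∀ x ∈ T, ∃ ξ, π x ξ ≠ ξ) :
    ∃ (F : Set H) (Z : Set G), IsOpen Z ∧ (∀ x, (∀ v ∈ F, π x v = v) → x ∈ Z ∧ x ∉ T) ∧
      ∀ x ∈ K, (∀ k : ℕ, x ^ k ∈ Z) → ∀ v ∈ F, π x v = v := by
  obtain ⟨F, h1, h2, h3⟩ := exists_finiteDimensional_invariant_compact hπ hK hT hx
  set D : G → F →L[ℂ] H := fun x => (π x - 1) ∘L F.subtypeL with hD
  have hDv : ∀ x (v : F), D x v = π x v - v := fun x v => rfl
  have hDc : Continuous D := continuous_clm_apply.2 fun v => by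
    simp only [hDv]
    exact (hπ.cont _).sub continuous_const
  refine ⟨F, {x | ‖D x‖ < 1 / 2}, isOpen_lt hDc.norm continuous_const, fun x hx => ⟨?_, ?_⟩,
    fun x hxK hx => ?_⟩
  · have : D x = 0 := by
      ext v
      simp [hDv, hx v v.2]
    simp [this]
  · intro hxT
    obtain ⟨v, hv, h⟩ := h3 x hxT
    exact h (hx v hv)
  · have hsq : ∀ y ∈ K, ‖D y‖ < 1 / 2 → 3 / 2 * ‖D y‖ ≤ ‖D (y ^ 2)‖ := by
      intro y hy hy'
      have h4 : ‖D y‖ ≤ (‖D (y ^ 2)‖ + ‖D y‖ * ‖D y‖) / 2 := by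
        refine ContinuousLinearMap.opNorm_le_bound _ (by positivity) fun v => ?_
        set w : F := ⟨π y v - v, F.sub_mem (h2 y hy v v.2) v.2⟩
        have h5 : (2 : ℂ) • D y v = D (y ^ 2) v - D y w := by
          simp only [hDv, w, sq, IsURep.mul_apply, map_sub, two_smul]
          abel
        have h6 : ‖w‖ ≤ ‖D y‖ * ‖v‖ := (D y).le_opNorm v
        have h7 : 2 * ‖D y v‖ ≤ ‖D (y ^ 2)‖ * ‖v‖ + ‖D y‖ * ‖w‖ := by
          have := norm_sub_le (D (y ^ 2) v) (D y w)
          rw [← h5, norm_smul] at this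
          have h8 := (D (y ^ 2)).le_opNorm v
          have h9 := (D y).le_opNorm w
          simp only [Complex.norm_ofNat] at this
          linarith
        have h8 := mul_le_mul_of_nonneg_left h6 (norm_nonneg (D y))
        nlinarith
      have := norm_nonneg (D y)
      nlinarith
    have hit : ∀ j : ℕ, (3 / 2) ^ j * ‖D x‖ ≤ ‖D (x ^ (2 ^ j))‖ := by
      intro j
      induction j with
      | zero => simp
      | succ j ih =>
        have := hsq _ (K.pow_mem hxK (2 ^ j)) (hx _)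
        rw [← pow_mul, ← pow_succ] at this
        rw [pow_succ]
        linarith
    have h0 : ‖D x‖ = 0 := by
      by_contra hne
      have hpos : 0 < ‖D x‖ := lt_of_le_of_ne (norm_nonneg _) (Ne.symm hne)
      obtain ⟨j, hj⟩ := pow_unbounded_of_one_lt (1 / 2 / ‖D x‖) (by norm_num : (1 : ℝ) < 3 / 2)
      rw [div_lt_iff₀ hpos] at hj
      have := hx (2 ^ j)
      simp only [mem_ofPred_eq] at this
      linarith [hit j]
    intro v hv
    have := hDv x ⟨v, hv⟩
    rw [norm_eq_zero.1 h0] at this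
    exact sub_eq_zero.1 this.symm

end Pool.Agent.MP_2da52b_an

end MrgPart2

-- marker of a merged file
example : 731051 + 876051 = 731051 + 876051 := rfl
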