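import Mathlib.Tactic.Monotonicity.Lemmas
import Mathlib.RingTheory.Flat.TorsionFree
import Mathlib.Topology.Algebra.OpenSubgroup
import Mathlib.Analysis.Calculus.ParametricIntegral
import Mathlib.Analysis.Complex.PhragmenLindelof
import Mathlib.Topology.Algebra.ProperAction.Basic
import Mathlib.Analysis.SpecialFunctions.ImproperIntegrals
import Mathlib.RingTheory.TotallySplit
import Mathlib.RingTheory.Etale.Weakly
import Pool.Agent.MP_2da52b_an.PeterWeyl

-- ======== part 0: formerly Pool.Agent.MP_2da52b_an.Trapping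
section MrgPart0

/-!
Finite trapping and subgroup trapping in a locally compact group.
-/

open Set Filter Topology
open scoped Pointwise

namespace Pool.Agent.MP_2da52b_an

variable {G : Type*} [Group G]

/-- Elements whose cyclic group stays inside `V`. -/
def trap (V : Set G) : Set G := {q | ∀ k : ℤ, q ^ k ∈ V}

/-- Products of at most `n` elements of `Q`. -/
def words (Q : Set G) (n : ℕ) : Set G :=
  {g | ∃ l : List G, l.length ≤ n ∧ (∀ q ∈ l, q ∈ Q) ∧ l.prod = g}

lemma trap_inv {V : Set G} {q : G} (h : q ∈ trap V) : q⁻¹ ∈ trap V := fun k => by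
  simpa using h (-k)

lemma trap_mono {V W : Set G} (h : V ⊆ W) : trap V ⊆ trap W := fun _ hq k => h (hq k)

lemma trap_subset {V : Set G} : trap V ⊆ V := fun q hq => by simpa using hq 1

lemma words_mono {Q : Set G} {m n : ℕ} (h : m ≤ n) : words Q m ⊆ words Q n := by
  rintro g ⟨l, h1, h2, h3⟩
  exact ⟨l, h1.trans h, h2, h3⟩

lemma one_mem_words {Q : Set G} {n : ℕ} : (1 : G) ∈ words Q n := ⟨[], by simp, by simp, rfl⟩

lemma mul_mem_words {Q : Set G} {m n : ℕ} {x y : G} (hx : x ∈ words Q m) (hy : y ∈ words Q n) :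
    x * y ∈ words Q (m + n) := by
  obtain ⟨l, h1, h2, rfl⟩ := hx
  obtain ⟨l', h1', h2', rfl⟩ := hy
  refine ⟨l ++ l', by simp; omega, fun q hq => ?_, List.prod_append⟩
  rcases List.mem_append.1 hq with h | h
  exacts [h2 q h, h2' q h]

lemma inv_mem_words {Q : Set G} (hQ : ∀ q ∈ Q, q⁻¹ ∈ Q) {n : ℕ} {x : G} (hx : x ∈ words Q n) :
    x⁻¹ ∈ words Q n := by
  obtain ⟨l, h1, h2, rfl⟩ := hx
  refine ⟨(l.map fun y => y⁻¹).reverse, by simpa using h1, fun q hq => ?_,
    (List.prod_inv_reverse l).symm⟩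
  simp only [List.mem_reverse, List.mem_map] at hq
  obtain ⟨a, ha, rfl⟩ := hq
  exact hQ a (h2 a ha)

lemma words_one_subset {Q O : Set G} (h1 : (1 : G) ∈ O) (hQ : Q ⊆ O) : words Q 1 ⊆ O := by
  rintro g ⟨l, hl, h2, rfl⟩
  match l, hl, h2 with
  | [], _, _ => simpa using h1
  | [a], _, h2 => simpa using hQ (h2 a (by simp))

variable [TopologicalSpace G] [IsTopologicalGroup G] [LocallyCompactSpace G] [T2Space G]

lemma finite_trapping {U : Set G} (hU : IsOpen U)
    (h1 : (1 : G) ∈ U) (hs : ∀ x ∈ U, x⁻¹ ∈ U) (hc : IsCompact (closure U)) (m : ℕ) :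
    ∃ V ∈ 𝓝 (1 : G), ∀ W ⊆ V, ∀ n : ℕ, 0 < n → words (trap W) n ⊆ U →
      words (trap W) (m * n) ⊆ U * U * U := by
  classical
  obtain ⟨C, hC, hG⟩ := gleason_trick hU h1 hs hc
  obtain ⟨V, hV, hG⟩ := hG (1 / (m + 1)) (by positivity)
  refine ⟨V, hV, fun W hW n hn hnU => ?_⟩
  have hnR : (0 : ℝ) < n := by exact_mod_cast hn
  set ω : G → ℝ := fun g => if g ∈ trap W then 1 / n else 1 with hω
  have hω0 : ∀ g, 0 ≤ ω g := fun g => by
    simp only [hω]; split_ifs <;> positivity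
  have hωi : ∀ g, ω g⁻¹ = ω g := fun g => by
    have : g⁻¹ ∈ trap W ↔ g ∈ trap W := ⟨fun h => by simpa using trap_inv h, trap_inv⟩
    simp only [hω, this]
  obtain ⟨ρ, hρadd, hρ1, -, -, hρU, hρ⟩ := hG _ (isLength_wordInf hω0 hωi) (fun x hx => by
    obtain ⟨l, hl, hl'⟩ := exists_list_of_wordInf_lt hx
    have h2 : ∀ q ∈ l, q ∈ trap W := by
      intro q hq
      by_contra h
      have := List.single_le_sum (l := l.map ω) (by simpa using fun a _ => hω0 a) (ω q)
        (List.mem_map_of_mem hq)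
      simp only [hω, h, if_false] at this
      exact absurd hl' (not_lt.2 this)
    have h3 : (l.map ω).sum = l.length * (1 / n) := by
      rw [List.map_congr_left (g := fun _ => (1 / n : ℝ)) (fun q hq => by simp [hω, h2 q hq])]
      simp
    rw [h3, mul_one_div, div_lt_one hnR] at hl'
    exact hnU ⟨l, by exact_mod_cast hl'.le, h2, hl⟩)
  have hq : ∀ q ∈ trap W, ρ q ≤ 1 / (m + 1) * (1 / n) := by
    intro q hq
    have h2 : wordInf ω q ≤ 1 / n := (wordInf_le_self hω0 q).trans (by simp [hω, hq])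
    have h3 : Tendsto (fun k : ℕ => C / k + 1 / (m + 1) * (1 / n : ℝ)) atTop
        (𝓝 (0 + 1 / (m + 1) * (1 / n : ℝ))) :=
      (tendsto_const_div_atTop_nhds_zero_nat C).add tendsto_const_nhds
    rw [zero_add] at h3
    refine ge_of_tendsto h3 ?_
    filter_upwards [eventually_gt_atTop 0] with k hk
    refine (hρ q k hk fun i _ => hW (by simpa using hq i)).trans ?_
    gcongr
  rintro g ⟨l, hl, h2, rfl⟩
  refine hρU _ ((subadd_list hρadd hρ1 l).trans_lt ?_)
  have h3 : (l.map ρ).sum ≤ l.length * (1 / (m + 1) * (1 / n)) := by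
    have := List.sum_le_card_nsmul (l.map ρ) (1 / (m + 1) * (1 / n : ℝ)) (by
      simpa using fun a ha => by simpa using hq a (h2 a ha))
    simpa using this
  have h4 : (l.length : ℝ) ≤ m * n := by exact_mod_cast hl
  refine h3.trans_lt (lt_of_le_of_lt (mul_le_mul_of_nonneg_right h4 (by positivity)) ?_)
  have : (m * n : ℝ) * (1 / (m + 1) * (1 / n)) = m / (m + 1) := by field_simp
  rw [this, div_lt_one (by positivity)]
  linarith

/-- First exit time of the words. -/
noncomputable def exitTime (O V : Set G) : ℕ := sInf {n | ¬ words (trap V) n ⊆ O}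

/-- The group of ultralimits at the scale of the exit time from `O`. -/
def limGroup (𝒰 : Ultrafilter (Set G)) (O : Set G) : Subgroup G where
  carrier := {g | ∃ (m : ℕ) (x : Set G → G),
    (∀ᶠ V in (𝒰 : Filter (Set G)), x V ∈ words (trap V) (m * exitTime O V)) ∧
      Tendsto x 𝒰 (𝓝 g)}
  one_mem' := ⟨0, fun _ => 1, Eventually.of_forall fun _ => one_mem_words, tendsto_const_nhds⟩
  mul_mem' := by
    rintro a b ⟨m, x, hx, hx'⟩ ⟨n, y, hy, hy'⟩
    refine ⟨m + n, fun V => x V * y V, ?_, hx'.mul hy'⟩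
    filter_upwards [hx, hy] with V h1 h2
    rw [add_mul]
    exact mul_mem_words h1 h2
  inv_mem' := by
    rintro a ⟨m, x, hx, hx'⟩
    exact ⟨m, fun V => (x V)⁻¹, hx.mono fun V h => inv_mem_words (fun _ => trap_inv) h, hx'.inv⟩

lemma limGroup_spec {𝒰 : Ultrafilter (Set G)}
    (h𝒰 : ∀ W ∈ 𝓝 (1 : G), ∀ᶠ V in (𝒰 : Filter (Set G)), V ⊆ W) {O : Set G} (hO : IsOpen O)
    (h1 : (1 : G) ∈ O) (hs : ∀ x ∈ O, x⁻¹ ∈ O) (hc : IsCompact (closure O))
    (hex : ∀ᶠ V in (𝒰 : Filter (Set G)), ∃ n, ¬ words (trap V) n ⊆ O) :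
    (limGroup 𝒰 O : Set G) ⊆ closure O * closure O * closure O ∧ ∃ g ∈ limGroup 𝒰 O, g ∉ O := by
  have hS : IsCompact (closure O * closure O * closure O) := (hc.mul hc).mul hc
  have hw : ∀ m : ℕ, ∀ᶠ V in (𝒰 : Filter (Set G)),
      words (trap V) (m * exitTime O V) ⊆ closure O * closure O * closure O := by
    intro m
    obtain ⟨W, hW, hW'⟩ := finite_trapping hO h1 hs hc (2 * m)
    filter_upwards [h𝒰 W hW, h𝒰 O (hO.mem_nhds h1), hex] with V hV hVO hV'
    have h2 : ¬ words (trap V) (exitTime O V) ⊆ O := Nat.sInf_mem hV'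
    have h3 : 1 < exitTime O V := by
      by_contra h
      exact h2 ((words_mono (not_lt.1 h)).trans (words_one_subset h1 (trap_subset.trans hVO)))
    have h4 : words (trap V) (exitTime O V - 1) ⊆ O := by
      by_contra h
      have := Nat.sInf_le (s := {n | ¬ words (trap V) n ⊆ O}) h
      change exitTime O V ≤ _ at this
      omega
    refine (words_mono ?_).trans ((hW' V hV _ (by omega) h4).trans
      (mul_subset_mul (mul_subset_mul subset_closure subset_closure) subset_closure))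
    rw [mul_comm 2, mul_assoc]
    exact Nat.mul_le_mul_left _ (by omega)
  refine ⟨?_, ?_⟩
  · rintro g ⟨m, x, hx, hx'⟩
    refine hS.isClosed.mem_of_tendsto hx' ?_
    filter_upwards [hx, hw m] with V h2 h3 using h3 h2
  · have h2 : ∀ᶠ V in (𝒰 : Filter (Set G)), ∃ g ∈ words (trap V) (1 * exitTime O V), g ∉ O := by
      filter_upwards [hex] with V hV
      rw [one_mul]
      exact not_subset.1 (Nat.sInf_mem hV)
    obtain ⟨x, hx⟩ := Filter.skolem.1 (h2.mono fun V h => (h : ∃ g, g ∈ words (trap V) (1 * exitTime O V) ∧ g ∉ O))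
    obtain ⟨g, -, hg⟩ := hS.ultrafilter_le_nhds' (𝒰.map x) (by
      rw [Ultrafilter.mem_map]
      filter_upwards [hx, hw 1] with V h3 h4 using h4 h3.1)
    exact ⟨g, ⟨1, x, hx.mono fun V h => h.1, hg⟩,
      hO.isClosed_compl.mem_of_tendsto hg (hx.mono fun V h => h.2)⟩

omit [LocallyCompactSpace G] [T2Space G] in
lemma exists_open_mul_subset {N : Subgroup G} (hN : IsCompact (N : Set G)) {Z : Set G}
    (hZ : IsOpen Z) (hNZ : (N : Set G) ⊆ Z) :
    ∃ O : Set G, IsOpen O ∧ (N : Set G) ⊆ O ∧ O * O ⊆ Z := by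
  obtain ⟨u, v, hu, hv, hNu, hNv, huv⟩ := generalized_tube_lemma hN hN
    (hZ.preimage continuous_mul) (by
      rintro ⟨a, b⟩ ⟨ha, hb⟩
      exact hNZ (N.mul_mem ha hb))
  refine ⟨u ∩ v, hu.inter hv, subset_inter hNu hNv, ?_⟩
  rintro _ ⟨a, ha, b, hb, rfl⟩
  exact huv (mk_mem_prod ha.1 hb.2)

variable {H : Type*} [NormedAddCommGroup H] [InnerProductSpace ℂ H] [CompleteSpace H]
  {π : G →* (H →L[ℂ] H)}

/-- The pointwise stabilizer of a set of vectors. -/
def stab (π : G →* (H →L[ℂ] H)) (F : Set H) : Subgroup G where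
  carrier := {x | ∀ v ∈ F, π x v = v}
  one_mem' := fun v _ => IsURep.one_apply π v
  mul_mem' := fun {a b} ha hb v hv => by rw [IsURep.mul_apply, hb v hv, ha v hv]
  inv_mem' := fun {a} ha v hv => by
    conv_lhs => rw [← ha v hv]
    rw [← IsURep.mul_apply, inv_mul_cancel, IsURep.one_apply]

omit [IsTopologicalGroup G] [LocallyCompactSpace G] [T2Space G] [CompleteSpace H] in
lemma isClosed_stab (hπ : IsURep π) (F : Set H) : IsClosed (stab π F : Set G) := by
  have : (stab π F : Set G) = ⋂ v ∈ F, {x | π x v = v} := by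
    ext x; simp [stab]
  rw [this]
  exact isClosed_biInter fun v _ => isClosed_eq (hπ.cont v) continuous_const

/-- Subgroup trapping: all subgroups inside a small neighbourhood lie in one compact subgroup. -/
theorem subgroup_trapping (hπ : IsURep π) (hf : ∀ x : G, x ≠ 1 → ∃ ξ, π x ξ ≠ ξ) :
    ∃ V ∈ 𝓝 (1 : G), ∃ K : Subgroup G, IsCompact (K : Set G) ∧ trap V ⊆ K := by
  obtain ⟨U, hU, h1, hs, hc, -⟩ := exists_small_nhds (G := G) univ_mem
  by_contra hcon
  push Not at hcon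
  have hex : ∀ V ∈ 𝓝 (1 : G), ∃ n, ¬ words (trap V) n ⊆ U := by
    intro V hV
    by_contra h
    push Not at h
    refine hcon V hV (Subgroup.closure (trap V)).topologicalClosure ?_
      (Subgroup.subset_closure.trans (Subgroup.le_topologicalClosure _))
    refine hc.of_isClosed_subset (Subgroup.isClosed_topologicalClosure _) (closure_mono ?_)
    have : ∀ x ∈ Subgroup.closure (trap V), ∃ n, x ∈ words (trap V) n := by
      intro x hx
      induction hx using Subgroup.closure_induction with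
      | mem x hx => exact ⟨1, [x], by simp, by simpa using hx, by simp⟩
      | one => exact ⟨0, one_mem_words⟩
      | mul x y _ _ hx hy =>
        obtain ⟨m, hm⟩ := hx
        obtain ⟨n, hn⟩ := hy
        exact ⟨_, mul_mem_words hm hn⟩
      | inv x _ hx =>
        obtain ⟨m, hm⟩ := hx
        exact ⟨_, inv_mem_words (fun _ => trap_inv) hm⟩
    intro x hx
    obtain ⟨n, hn⟩ := this x hx
    exact h n hn
  have hne : ((𝓝 (1 : G)).smallSets ⊓ 𝓟 {V | V ∈ 𝓝 (1 : G)}).NeBot := by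
    rw [← frequently_mem_iff_neBot]
    exact frequently_smallSets_mem _
  set 𝒰 := Ultrafilter.of ((𝓝 (1 : G)).smallSets ⊓ 𝓟 {V | V ∈ 𝓝 (1 : G)})
  have h𝒰 : ∀ W ∈ 𝓝 (1 : G), ∀ᶠ V in (𝒰 : Filter (Set G)), V ⊆ W := fun W hW =>
    (Ultrafilter.of_le _).trans inf_le_left (eventually_smallSets_subset.2 hW)
  have h𝒰' : ∀ᶠ V in (𝒰 : Filter (Set G)), V ∈ 𝓝 (1 : G) :=
    (Ultrafilter.of_le _).trans inf_le_right (mem_principal_self _)
  have hexU : ∀ᶠ V in (𝒰 : Filter (Set G)), ∃ n, ¬ words (trap V) n ⊆ U :=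
    h𝒰'.mono fun V hV => hex V hV
  obtain ⟨hEU, -⟩ := limGroup_spec h𝒰 hU h1 hs hc hexU
  have hS : IsCompact (closure U * closure U * closure U) := (hc.mul hc).mul hc
  set K := (limGroup 𝒰 U).topologicalClosure
  have hK : IsCompact (K : Set G) := hS.of_isClosed_subset (Subgroup.isClosed_topologicalClosure _)
    (closure_minimal hEU hS.isClosed)
  obtain ⟨F, Z, hZ, hFZ, hKZ⟩ := exists_nss_core hπ hK (hK.diff hU)
    (fun x hx => hf x fun h => hx.2 (h ▸ h1))
  set N := K ⊓ stab π F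
  have hN : IsCompact (N : Set G) := hK.inter_right (isClosed_stab hπ F)
  have hNU : (N : Set G) ⊆ U := fun x hx => by
    by_contra h
    exact (hFZ x hx.2).2 ⟨hx.1, h⟩
  obtain ⟨O₁, hO₁, hNO₁, hO₁Z⟩ := exists_open_mul_subset hN (hZ.inter hU)
    (subset_inter (fun x hx => (hFZ x hx.2).1) hNU)
  obtain ⟨O₂, hO₂, hNO₂, hO₂Z⟩ := exists_open_mul_subset hN hO₁ hNO₁
  obtain ⟨O₃, hO₃, hNO₃, hO₃Z⟩ := exists_open_mul_subset hN hO₂ hNO₂
  have h1₁ : (1 : G) ∈ O₁ := hNO₁ N.one_mem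
  have h1₂ : (1 : G) ∈ O₂ := hNO₂ N.one_mem
  have h1₃ : (1 : G) ∈ O₃ := hNO₃ N.one_mem
  set O := O₃ ∩ O₃⁻¹
  have hO : IsOpen O := hO₃.inter hO₃.inv
  have h1O : (1 : G) ∈ O := ⟨h1₃, by simpa using h1₃⟩
  have hNO : (N : Set G) ⊆ O := fun x hx => ⟨hNO₃ hx, hNO₃ (N.inv_mem hx)⟩
  have hcl : closure O ⊆ O₂ :=
    (closure_mono inter_subset_left).trans
      ((closure_subset_mul_self_of_mem_nhds_one (hO₃.mem_nhds h1₃)).trans hO₃Z)
  have h21 : O₂ ⊆ O₁ := (subset_mul_left _ h1₂).trans hO₂Z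
  have h1ZU : O₁ ⊆ Z ∩ U := (subset_mul_left _ h1₁).trans hO₁Z
  have hOU : O ⊆ U := fun x hx => (h1ZU (h21 (hcl (subset_closure hx)))).2
  have hexO : ∀ᶠ V in (𝒰 : Filter (Set G)), ∃ n, ¬ words (trap V) n ⊆ O :=
    hexU.mono fun V ⟨n, hn⟩ => ⟨n, fun h => hn (h.trans hOU)⟩
  obtain ⟨hEO, g, hg, hgO⟩ := limGroup_spec h𝒰 hO h1O
    (fun x hx => ⟨hx.2, by simpa using hx.1⟩)
    (hc.of_isClosed_subset isClosed_closure (closure_mono hOU)) hexO
  have hgK : g ∈ K := by
    refine Subgroup.le_topologicalClosure _ ?_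
    obtain ⟨m, x, hx, hx'⟩ := hg
    refine ⟨m, x, ?_, hx'⟩
    filter_upwards [hx, hexU] with V h2 h3
    refine words_mono (Nat.mul_le_mul_left _ ?_) h2
    exact Nat.sInf_le fun h => Nat.sInf_mem h3 (h.trans hOU)
  refine hgO (hNO ⟨hgK, hKZ g hgK fun k => ?_⟩)
  have := hEO ((limGroup 𝒰 O).pow_mem hg k)
  exact (hO₁Z (mul_subset_mul ((mul_subset_mul hcl hcl).trans hO₂Z) (hcl.trans h21) this)).1

end Pool.Agent.MP_2da52b_an

end MrgPart0

-- ======== part 1: formerly Pool.Agent.MP_2da52b_an.GleasonYamabe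
section MrgPart1

/-!
A form of the Gleason and Yamabe theorem adapted to a faithful unitary representation.
-/

open Set Filter Topology
open scoped Pointwise

namespace Pool.Agent.MP_2da52b_an

variable {G : Type*} [Group G] [TopologicalSpace G] [IsTopologicalGroup G]

open Classical in
/-- Extension of a length from an open subgroup. -/
lemma IsGleason.extend {G₁ : Subgroup G} (hG₁ : IsOpen (G₁ : Set G)) {L : Type*} [Group L]
    [TopologicalSpace L] (q : G₁ →* L) (hq : Continuous q) {N : L → ℝ} (hN : IsGleason N)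
    {S : Set G} (hS : IsCompact S) (hNS : ∀ x : G₁, N (q x) ≤ 1 → (x : G) ∈ S) :
    IsGleason fun x : G => if h : x ∈ G₁ then min (N (q ⟨x, h⟩)) 2 else 2 := by
  have hL : IsLength fun x : G => if h : x ∈ G₁ then min (N (q ⟨x, h⟩)) 2 else 2 := by
    refine ⟨?_, fun x => ?_, fun x => ?_, fun x y => ?_⟩
    · have : (⟨1, G₁.one_mem⟩ : G₁) = 1 := rfl
      simp [G₁.one_mem, this, hN.one]
    · split_ifs
      · exact le_min (hN.nonneg _) zero_le_two
      · exact zero_le_two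
    · by_cases h : x ∈ G₁
      · have : (⟨x⁻¹, G₁.inv_mem h⟩ : G₁) = (⟨x, h⟩ : G₁)⁻¹ := rfl
        simp [h, this, hN.inv]
      · simp [h]
    · have h0 : ∀ z : L, 0 ≤ min (N z) 2 := fun z => le_min (hN.nonneg _) zero_le_two
      have h2 : (if h : x * y ∈ G₁ then min (N (q ⟨x * y, h⟩)) 2 else 2) ≤ 2 := by
        split_ifs
        · exact min_le_right _ _
        · exact le_rfl
      by_cases hx : x ∈ G₁
      · by_cases hy : y ∈ G₁
        · have : (⟨x * y, G₁.mul_mem hx hy⟩ : G₁) = (⟨x, hx⟩ : G₁) * ⟨y, hy⟩ := rfl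
          simp only [hx, hy, G₁.mul_mem hx hy, dite_true, this, map_mul]
          have h3 := hN.mul (q ⟨x, hx⟩) (q ⟨y, hy⟩)
          have h4 := hN.nonneg (q ⟨x, hx⟩)
          have h5 := hN.nonneg (q ⟨y, hy⟩)
          simp only [min_def]
          split_ifs <;> linarith
        · simp only [hx, hy, dite_true, dite_false]
          linarith [h0 (q ⟨x, hx⟩)]
      · by_cases hy : y ∈ G₁
        · simp only [hx, hy, dite_true, dite_false]
          linarith [h0 (q ⟨y, hy⟩)]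
        · simp only [hx, hy, dite_false]
          linarith
  have hcont : Continuous fun x : G => if h : x ∈ G₁ then min (N (q ⟨x, h⟩)) 2 else 2 := by
    refine hL.continuous fun ε hε => ?_
    have h1 : 𝓝 (1 : G) = map Subtype.val (𝓝 (1 : G₁)) :=
      (hG₁.isOpenEmbedding_subtypeVal.map_nhds_eq (1 : G₁)).symm
    rw [h1, eventually_map]
    have h2 : ∀ᶠ x in 𝓝 (1 : G₁), N (q x) < ε :=
      (hN.cont.comp hq).continuousAt.eventually_lt continuousAt_const (by simpa [hN.one] using hε)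
    filter_upwards [h2] with x hx
    simp only [x.2, dite_true]
    exact (min_le_left _ _).trans_lt hx
  have hle : ∀ x : G, (if h : x ∈ G₁ then min (N (q ⟨x, h⟩)) 2 else 2) ≤ 1 →
      ∃ h : x ∈ G₁, N (q ⟨x, h⟩) ≤ 1 := by
    intro x hx
    by_cases h : x ∈ G₁
    · simp only [h, dite_true, min_le_iff] at hx
      exact ⟨h, hx.resolve_right (by norm_num)⟩
    · simp only [h, dite_false] at hx
      norm_num at hx
  refine ⟨hL, hcont, hS.of_isClosed_subset (isClosed_le hcont continuous_const) fun x hx => ?_, ?_⟩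
  · obtain ⟨h, h'⟩ := hle x hx
    exact hNS _ h'
  · obtain ⟨C, hC⟩ := hN.escape
    refine ⟨C, fun x n hx => ?_⟩
    rcases Nat.eq_zero_or_pos n with rfl | hn
    · simpa using hC 1 0 (by simp [hN.one])
    · obtain ⟨h, -⟩ := hle _ (hx 1 hn)
      rw [pow_one] at h
      refine le_trans ?_ (hC (q ⟨x, h⟩) n fun k hk => ?_)
      · simp only [h, dite_true]
        exact mul_le_mul_of_nonneg_left (min_le_left _ _) (Nat.cast_nonneg n)
      · obtain ⟨h1, h2⟩ := hle _ (hx k hk)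
        rw [← map_pow]
        exact h2

variable [LocallyCompactSpace G] [T2Space G]
variable {H : Type*} [NormedAddCommGroup H] [InnerProductSpace ℂ H] [CompleteSpace H]
  {π : G →* (H →L[ℂ] H)}

theorem gleason_yamabe (hπ : IsURep π) (hf : ∀ x : G, x ≠ 1 → ∃ ξ, π x ξ ≠ ξ)
    {C : Set G} (hC : IsCompact C) {V : Set G} (hV : V ∈ 𝓝 (1 : G)) :
    ∃ N : G → ℝ, IsGleason N ∧ (∀ x, N x ≤ 1 → x ∈ V) ∧ ∃ F : Set H,
      (∀ x, N x = 0 → ∀ v ∈ F, π x v = v) ∧ ∀ x ∈ C, (∀ v ∈ F, π x v = v) → N x = 0 := by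
  classical
  obtain ⟨V₀, hV₀, K, hK, hVK⟩ := subgroup_trapping hπ hf
  obtain ⟨U, hU, h1, hs, hc, hUV⟩ := exists_small_nhds (inter_mem hV₀ hV)
  have hUV' : U ⊆ V₀ ∩ V := fun x hx => hUV ⟨x * 1, ⟨x, subset_closure hx, 1, subset_closure h1,
    rfl⟩, 1, subset_closure h1, by simp⟩
  obtain ⟨F, Z, hZ, hFZ, hKZ⟩ := exists_nss_core hπ hK
    (((hC.union (hc.mul hc)).union hK).diff hU) (fun x hx => hf x fun h => hx.2 (h ▸ h1))
  set N₀ := K ⊓ stab π F
  have hN₀ : IsCompact (N₀ : Set G) := hK.inter_right (isClosed_stab hπ F)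
  have hst : ∀ x ∈ stab π F, x ∈ C ∪ closure U * closure U ∪ K → x ∈ U := fun x hx hx' => by
    by_contra h
    exact (hFZ x hx).2 ⟨hx', h⟩
  have hUK : ∀ x ∈ stab π F, x ∈ U → x ∈ K := by
    intro x hx hxU
    have h2 : ∀ k : ℕ, x ^ k ∈ U := by
      intro k
      induction k with
      | zero => simpa using h1
      | succ k ih =>
        refine hst _ ((stab π F).pow_mem hx _) (Or.inl (Or.inr ?_))
        exact ⟨x ^ k, subset_closure ih, x, subset_closure hxU, (pow_succ x k).symm⟩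
    refine hVK fun k => (hUV' ?_).1
    obtain ⟨m, rfl | rfl⟩ := k.eq_nat_or_neg
    · simpa using h2 m
    · simpa using hs _ (h2 m)
  have htrap : ∀ x ∈ trap (Z ∩ U), x ∈ N₀ := fun x hx => by
    have hxK : x ∈ K := hVK (trap_mono (fun y hy => (hUV' hy.2).1) hx)
    exact ⟨hxK, hKZ x hxK fun k => by simpa using (hx k).1⟩
  have hNY : (N₀ : Set G) ⊆ Z ∩ U := fun x hx => ⟨(hFZ x hx.2).1, hst x hx.2 (Or.inr hx.1)⟩
  have hY : IsOpen (Z ∩ U) := hZ.inter hU
  have hconj : ∀ᶠ g in 𝓝 (1 : G), ∀ n ∈ N₀, g * n * g⁻¹ ∈ N₀ := by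
    have h2 : ∀ᶠ g in 𝓝 (1 : G), ∀ n ∈ (N₀ : Set G), g * n * g⁻¹ ∈ Z ∩ U := by
      refine hN₀.eventually_forall_of_forall_eventually fun n hn => ?_
      have h3 : Continuous fun p : G × G => p.1 * p.2 * p.1⁻¹ := by fun_prop
      exact h3.continuousAt.preimage_mem_nhds (hY.mem_nhds (by simpa using hNY hn))
    filter_upwards [h2] with g hg n hn
    refine htrap _ fun k => ?_
    rw [conj_zpow]
    exact hg _ (N₀.zpow_mem hn k)
  set G₁ : Subgroup G := Subgroup.normalizer (N₀ : Set G)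
  have hG₁n : (G₁ : Set G) ∈ 𝓝 (1 : G) := by
    have h2 : ∀ᶠ g in 𝓝 (1 : G), ∀ n ∈ N₀, g⁻¹ * n * g⁻¹⁻¹ ∈ N₀ := by
      have : Tendsto (fun g : G => g⁻¹) (𝓝 1) (𝓝 1) := by simpa using continuous_inv.tendsto (1 : G)
      exact this.eventually hconj
    filter_upwards [hconj, h2] with g h3 h4
    refine Subgroup.mem_normalizer_iff.2 fun n => ⟨h3 n, fun hn => ?_⟩
    simpa [mul_assoc] using h4 _ hn
  have hG₁ : IsOpen (G₁ : Set G) := G₁.isOpen_of_mem_nhds hG₁n
  have : LocallyCompactSpace G₁ := hG₁.locallyCompactSpace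
  have hcl : IsClosed ((N₀.subgroupOf G₁ : Subgroup G₁) : Set G₁) :=
    hN₀.isClosed.preimage continuous_subtype_val
  obtain ⟨W, hW, hWN⟩ := compact_open_separated_mul_left hN₀ hY hNY
  set q : G₁ →* G₁ ⧸ N₀.subgroupOf G₁ := QuotientGroup.mk' _
  have hq : Continuous q := QuotientGroup.continuous_mk
  set Zq : Set (G₁ ⧸ N₀.subgroupOf G₁) := q '' (Subtype.val ⁻¹' W)
  have hZq : Zq ∈ 𝓝 (1 : G₁ ⧸ N₀.subgroupOf G₁) :=
    QuotientGroup.isOpenMap_coe.image_mem_nhds (x := (1 : G₁))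
      (continuous_subtype_val.continuousAt.preimage_mem_nhds hW)
  have hZqY : ∀ x : G₁, q x ∈ Zq → (x : G) ∈ Z ∩ U := by
    rintro x ⟨w, hw, h⟩
    have h2 : w⁻¹ * x ∈ N₀.subgroupOf G₁ := QuotientGroup.eq.1 h
    exact hWN ⟨w, hw, (w⁻¹ * x : G₁), h2, by simp⟩
  have hker : ∀ x : G₁, q x = 1 ↔ (x : G) ∈ N₀ := fun x => QuotientGroup.eq_one_iff x
  have hnss : ∀ x : G₁ ⧸ N₀.subgroupOf G₁, (∀ k : ℕ, x ^ k ∈ Zq ∩ Zq⁻¹) → x = 1 := by
    intro x hx
    obtain ⟨x, rfl⟩ := QuotientGroup.mk'_surjective _ x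
    refine (hker x).2 (htrap _ fun k => ?_)
    rw [← Subgroup.coe_zpow]
    refine hZqY _ ?_
    rw [map_zpow]
    obtain ⟨m, rfl | rfl⟩ := k.eq_nat_or_neg
    · rw [zpow_natCast]; exact (hx m).1
    · rw [zpow_neg, zpow_natCast]; exact (hx m).2
  obtain ⟨N, hN, hNZ⟩ := exists_isGleason_of_nss (inter_mem hZq (inv_mem_nhds_one _ hZq)) hnss
  refine ⟨_, hN.extend hG₁ q hq hc fun x hx => subset_closure (hZqY x (hNZ _ hx).1).2,
    fun x hx => ?_, F, fun x hx => ?_, fun x hx hx' => ?_⟩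
  · by_cases h : x ∈ G₁
    · simp only [h, dite_true, min_le_iff] at hx
      exact (hUV' (hZqY _ (hNZ _ (hx.resolve_right (by norm_num))).1).2).2
    · simp only [h, dite_false] at hx
      norm_num at hx
  · by_cases h : x ∈ G₁
    · simp only [h, dite_true] at hx
      have h2 : N (q ⟨x, h⟩) = 0 := by
        rcases min_eq_iff.1 hx with h3 | h3
        · exact h3.1
        · norm_num at h3
      have h3 := hnss (q ⟨x, h⟩) fun k => hNZ _ ((hN.pow_le _ k).trans (by simp [h2]))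
      exact ((hker _).1 h3).2
    · simp only [h, dite_false] at hx
      norm_num at hx
  · have h2 : x ∈ N₀ := ⟨hUK x hx' (hst x hx' (Or.inl (Or.inl hx))), hx'⟩
    have h : x ∈ G₁ := Subgroup.le_normalizer h2
    have h3 : q ⟨x, h⟩ = 1 := (hker _).2 h2
    simp [h, h3, hN.one]

end Pool.Agent.MP_2da52b_an

end MrgPart1

-- ======== part 2: formerly Pool.Agent.MP_2da52b_an.OneParam
section MrgPart2

/-!
One-parameter subgroups modulo the kernel of a Gleason length, obtained as ultralimits.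
-/

open Set Filter Topology
open scoped Pointwise InnerProductSpace

namespace Pool.Agent.MP_2da52b_an

variable {G : Type*} [Group G] [TopologicalSpace G] {N : G → ℝ}

lemma IsGleason.exists_conj (hN : IsGleason N) :
    ∃ C : ℝ, 0 < C ∧ ∀ z, N z ≤ 1 / 4 → ∀ x, N (z⁻¹ * x * z) ≤ C * N x := by
  obtain ⟨C, hC⟩ := hN.escape
  have hC0 : 0 ≤ C := by simpa using hC 1 0 (by simp [hN.one])
  refine ⟨4 * C + 3, by positivity, fun z hz x => ?_⟩
  have h0 := hN.nonneg x
  have h1 : ∀ y, N (z⁻¹ * y * z) ≤ N y + 1 / 2 := fun y => by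
    have := hN.mul (z⁻¹ * y) z
    have := hN.mul z⁻¹ y
    rw [hN.inv] at this
    linarith
  rcases lt_or_ge (1 / 4) (N x) with hx | hx
  · have := h1 x
    nlinarith
  have h2 : ∀ n : ℕ, n * N x ≤ 1 / 2 → n * N (z⁻¹ * x * z) ≤ C := by
    intro n hn
    refine hC _ n fun k hk => ?_
    have : (z⁻¹ * x * z) ^ k = z⁻¹ * x ^ k * z := by simpa using conj_pow (a := z⁻¹) (b := x) (i := k)
    rw [this]
    have h3 := hN.pow_le x k
    have h4 : (k : ℝ) * N x ≤ n * N x := mul_le_mul_of_nonneg_right (by exact_mod_cast hk) h0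
    linarith [h1 (x ^ k)]
  rcases h0.eq_or_lt with h3 | h3
  · rw [← h3, mul_zero]
    by_contra h4
    push Not at h4
    obtain ⟨n, hn⟩ := exists_nat_gt (C / N (z⁻¹ * x * z))
    rw [div_lt_iff₀ h4] at hn
    exact absurd (h2 n (by rw [← h3]; norm_num)) (not_le.2 hn)
  · set n := ⌊1 / (2 * N x)⌋₊
    have h4 : (n : ℝ) ≤ 1 / (2 * N x) := Nat.floor_le (by positivity)
    have h5 : 1 / (2 * N x) < n + 1 := Nat.lt_floor_add_one _
    rw [le_div_iff₀ (by positivity)] at h4
    rw [div_lt_iff₀ (by positivity)] at h5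
    have h6 := h2 n (by linarith)
    have h7 : 1 ≤ 4 * (n * N x) := by nlinarith
    have h8 := hN.nonneg (z⁻¹ * x * z)
    nlinarith

lemma IsGleason.exists_compact_zpow [IsTopologicalGroup G] (hN : IsGleason N) (T : ℝ) :
    ∃ S : Set G, IsCompact S ∧ ∀ (x : G) (k : ℤ), N x ≤ 1 / 2 → |(k : ℝ)| * N x ≤ T → x ^ k ∈ S := by
  have key : ∀ m : ℕ, ∃ S : Set G, IsCompact S ∧
      ∀ (x : G) (k : ℕ), N x ≤ 1 / 2 → k * N x ≤ m / 2 → x ^ k ∈ S := by
    intro m
    induction m with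
    | zero =>
      refine ⟨_, hN.compact, fun x k _ hk => (hN.pow_le x k).trans (hk.trans (by norm_num))⟩
    | succ m ih =>
      obtain ⟨S, hS, hS'⟩ := ih
      refine ⟨{x | N x ≤ 1} ∪ {x | N x ≤ 1} * S, hN.compact.union (hN.compact.mul hS),
        fun x k hx hk => ?_⟩
      by_cases h : k * N x ≤ 1
      · exact Or.inl ((hN.pow_le x k).trans h)
      · push Not at h
        have h0 : 0 < N x := by
          by_contra h0
          have : N x = 0 := le_antisymm (not_lt.1 h0) (hN.nonneg x)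
          rw [this] at h
          norm_num at h
        set j := ⌊1 / N x⌋₊
        have h4 : (j : ℝ) ≤ 1 / N x := Nat.floor_le (by positivity)
        have h5 : 1 / N x < j + 1 := Nat.lt_floor_add_one _
        rw [le_div_iff₀ h0] at h4
        rw [div_lt_iff₀ h0] at h5
        have hjk : j ≤ k := by
          have : (j : ℝ) < k := lt_of_mul_lt_mul_right (h4.trans_lt h) h0.le
          exact_mod_cast this.le
        refine Or.inr ⟨x ^ j, (hN.pow_le x j).trans h4, x ^ (k - j), hS' x _ hx ?_, ?_⟩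
        · push_cast [hjk] at hk ⊢
          nlinarith
        · simp only
          rw [← pow_add, Nat.add_sub_cancel' hjk]
  obtain ⟨m, hm⟩ := exists_nat_ge (2 * T)
  obtain ⟨S, hS, hS'⟩ := key m
  refine ⟨S, hS, fun x k hx hk => ?_⟩
  obtain ⟨n, rfl | rfl⟩ := k.eq_nat_or_neg
  · rw [zpow_natCast]
    exact hS' x n hx (by simp at hk; linarith)
  · rw [zpow_neg, zpow_natCast, ← inv_pow]
    exact hS' x⁻¹ n (by rwa [hN.inv]) (by rw [hN.inv]; simp at hk; linarith)

/-- A Lipschitz one-parameter subgroup modulo the kernel of `N`. -/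
structure IsOneParam (N : G → ℝ) (γ : ℝ → G) : Prop where
  lip : ∀ s t, N ((γ s)⁻¹ * γ t) ≤ |s - t|
  hom : ∀ s t, N ((γ (s + t))⁻¹ * (γ s * γ t)) = 0

omit [TopologicalSpace G] in
lemma IsOneParam.zero {γ : ℝ → G} (h : IsOneParam N γ) : N (γ 0) = 0 := by
  simpa using h.hom 0 0

omit [TopologicalSpace G] in
lemma IsOneParam.le {γ : ℝ → G} (h : IsOneParam N γ) (hN : IsLength N) (t : ℝ) :
    N (γ t) ≤ |t| := by
  have h1 := hN.mul (γ 0) ((γ 0)⁻¹ * γ t)
  have h2 := h.lip 0 t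
  rw [mul_inv_cancel_left, h.zero] at h1
  simp at h2
  linarith

omit [TopologicalSpace G] in
lemma IsOneParam.add_le {γ : ℝ → G} (h : IsOneParam N γ) (hN : IsLength N) (s t : ℝ) :
    N (γ (s + t)) ≤ N (γ s) + N (γ t) := by
  have h1 := hN.mul (γ s * γ t) ((γ (s + t))⁻¹ * (γ s * γ t))⁻¹
  rw [hN.inv, h.hom] at h1
  simp only [mul_inv_rev, inv_inv, add_zero] at h1
  have : γ s * γ t * ((γ t)⁻¹ * (γ s)⁻¹ * γ (s + t)) = γ (s + t) := by group
  rw [this] at h1
  exact h1.trans (hN.mul _ _)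

omit [TopologicalSpace G] in
lemma IsOneParam.nat_mul_le {γ : ℝ → G} (h : IsOneParam N γ) (hN : IsLength N) (t : ℝ) (n : ℕ) :
    N (γ (n * t)) ≤ n * N (γ t) := by
  induction n with
  | zero => simp [h.zero]
  | succ n ih =>
    push_cast
    rw [add_mul, one_mul]
    linarith [h.add_le hN (n * t) t]

lemma abs_floor_div_mul_le {t R : ℝ} (hR : 0 < R) : |(⌊t / R⌋ : ℝ) * R - t| ≤ R := by
  have h1 := Int.floor_le (t / R)
  have h2 := Int.lt_floor_add_one (t / R)
  rw [le_div_iff₀ hR] at h1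
  rw [div_lt_iff₀ hR] at h2
  rw [abs_le]; constructor <;> nlinarith

lemma tendsto_floor_div_mul {ι : Type*} {l : Filter ι} {R : ι → ℝ} (hR : ∀ᶠ j in l, 0 < R j)
    (hR0 : Tendsto R l (𝓝 0)) (t : ℝ) : Tendsto (fun j => (⌊t / R j⌋ : ℝ) * R j) l (𝓝 t) := by
  rw [tendsto_iff_norm_sub_tendsto_zero]
  exact squeeze_zero' (Eventually.of_forall fun _ => norm_nonneg _)
    (hR.mono fun j hj => abs_floor_div_mul_le hj) hR0

/-- Ultralimits of powers of small elements. -/
lemma IsGleason.exists_oneParam [IsTopologicalGroup G] (hN : IsGleason N) {ι : Type*}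
    (𝒰 : Ultrafilter ι) {x : ι → G} {R : ι → ℝ} (hR : ∀ᶠ j in (𝒰 : Filter ι), 0 < R j)
    (hR0 : Tendsto R 𝒰 (𝓝 0)) (hx : ∀ᶠ j in (𝒰 : Filter ι), N (x j) ≤ R j) :
    ∃ γ, IsOneParam N γ ∧ ∀ t, Tendsto (fun j => x j ^ ⌊t / R j⌋) 𝒰 (𝓝 (γ t)) := by
  have hpow : ∀ᶠ j in (𝒰 : Filter ι), ∀ k : ℤ, N (x j ^ k) ≤ |k * R j| := by
    filter_upwards [hx, hR] with j h1 h2 k
    rw [abs_mul, abs_of_pos h2]
    exact (hN.zpow_le _ k).trans (mul_le_mul_of_nonneg_left h1 (abs_nonneg _))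
  have hex : ∀ t : ℝ, ∃ g, Tendsto (fun j => x j ^ ⌊t / R j⌋) 𝒰 (𝓝 g) := by
    intro t
    obtain ⟨S, hS, hS'⟩ := hN.exists_compact_zpow (|t| + 1)
    obtain ⟨g, -, hg⟩ := hS.ultrafilter_le_nhds' (𝒰.map fun j => x j ^ ⌊t / R j⌋) (by
      rw [Ultrafilter.mem_map]
      filter_upwards [hx, hR, hR0.eventually (gt_mem_nhds (by norm_num : (0 : ℝ) < 1 / 2))]
        with j h1 h2 h3
      refine hS' _ _ (h1.trans h3.le) ?_
      have h4 := abs_floor_div_mul_le (t := t) h2
      have h5 : |(⌊t / R j⌋ : ℝ)| * N (x j) ≤ |(⌊t / R j⌋ : ℝ) * R j| := by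
        rw [abs_mul, abs_of_pos h2]
        exact mul_le_mul_of_nonneg_left h1 (abs_nonneg _)
      have h6 := abs_sub_abs_le_abs_sub ((⌊t / R j⌋ : ℝ) * R j) t
      linarith)
    exact ⟨g, hg⟩
  choose γ hγ using hex
  have hfl := tendsto_floor_div_mul hR hR0
  refine ⟨γ, ⟨fun s t => ?_, fun s t => ?_⟩, hγ⟩
  · have h1 := (hN.cont.tendsto _).comp ((hγ s).inv.mul (hγ t))
    have h2 := ((hfl s).sub (hfl t)).abs
    refine le_of_tendsto_of_tendsto h1 h2 ?_
    filter_upwards [hpow] with j hj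
    simp only [Function.comp]
    rw [← zpow_neg, ← zpow_add]
    refine (hj _).trans (le_of_eq ?_)
    rw [← abs_neg]
    push_cast
    ring_nf
  · refine le_antisymm ?_ (hN.nonneg _)
    have h1 := (hN.cont.tendsto _).comp ((hγ (s + t)).inv.mul ((hγ s).mul (hγ t)))
    have h2 := (((hfl s).add (hfl t)).sub (hfl (s + t))).abs
    rw [sub_self, abs_zero] at h2
    refine le_of_tendsto_of_tendsto h1 h2 ?_
    filter_upwards [hpow] with j hj
    simp only [Function.comp]
    rw [← zpow_neg, ← zpow_add, ← zpow_add]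
    refine (hj _).trans (le_of_eq ?_)
    push_cast
    ring_nf

/-- The ultralimit is nontrivial when the scale is the length of the elements. -/
lemma IsGleason.oneParam_nontrivial [IsTopologicalGroup G] (hN : IsGleason N) {ι : Type*}
    (𝒰 : Ultrafilter ι) {x : ι → G} (hR : ∀ᶠ j in (𝒰 : Filter ι), 0 < N (x j))
    (hR0 : Tendsto (fun j => N (x j)) 𝒰 (𝓝 0)) {γ : ℝ → G} (hγ : IsOneParam N γ)
    (h : ∀ t, Tendsto (fun j => x j ^ ⌊t / N (x j)⌋) 𝒰 (𝓝 (γ t))) :
    ∃ t, 0 < N (γ t) ∧ N (γ t) ≤ 1 := by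
  obtain ⟨C, hC⟩ := hN.escape
  have hC0 : 0 ≤ C := by simpa using hC 1 0 (by simp [hN.one])
  have h1 : ∀ᶠ j in (𝒰 : Filter ι), ∃ k : ℕ, k * N (x j) ≤ C + 1 ∧ 1 < N (x j ^ k) := by
    filter_upwards [hR, hR0.eventually (gt_mem_nhds one_pos)] with j h2 h3
    by_contra hcon
    push Not at hcon
    set n := ⌊C / N (x j)⌋₊ + 1
    have h4 : (⌊C / N (x j)⌋₊ : ℝ) ≤ C / N (x j) := Nat.floor_le (by positivity)
    have h5 : C / N (x j) < n := by push_cast [n]; exact Nat.lt_floor_add_one _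
    rw [le_div_iff₀ h2] at h4
    rw [div_lt_iff₀ h2] at h5
    refine absurd (hC (x j) n fun k hk => hcon k ?_) (not_le.2 h5)
    have h6 : (k : ℝ) ≤ ⌊C / N (x j)⌋₊ + 1 := by exact_mod_cast hk
    nlinarith
  obtain ⟨k, hk⟩ := h1.choice
  obtain ⟨t₀, -, ht₀⟩ := (isCompact_Icc (a := (0 : ℝ)) (b := C + 1)).ultrafilter_le_nhds'
    (𝒰.map fun j => k j * N (x j)) (by
      rw [Ultrafilter.mem_map]
      filter_upwards [hk] with j hj
      exact ⟨mul_nonneg (Nat.cast_nonneg _) (hN.nonneg _), hj.1⟩)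
  have ht₀' : Tendsto (fun j => k j * N (x j)) 𝒰 (𝓝 t₀) := ht₀
  have h2 : 1 ≤ N (γ t₀) := by
    have h3 := ((hN.cont.tendsto _).comp (h t₀)).add
      (ht₀'.sub (tendsto_floor_div_mul hR hR0 t₀)).abs
    rw [sub_self, abs_zero, add_zero] at h3
    refine ge_of_tendsto h3 ?_
    filter_upwards [hk, hR] with j hj hj'
    have h4 := hN.mul (x j ^ ⌊t₀ / N (x j)⌋) (x j ^ ((k j : ℤ) - ⌊t₀ / N (x j)⌋))
    rw [← zpow_add, add_sub_cancel, zpow_natCast] at h4
    have h5 := hN.zpow_le (x j) ((k j : ℤ) - ⌊t₀ / N (x j)⌋)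
    rw [← sub_mul, abs_mul, abs_of_pos hj']
    push_cast at h5
    simp only [Function.comp]
    linarith [hj.2]
  obtain ⟨m, hm⟩ := exists_nat_gt |t₀|
  have hm0 : (0 : ℝ) < m := (abs_nonneg _).trans_lt hm
  refine ⟨t₀ / m, ?_, (hγ.le hN.toIsLength _).trans ?_⟩
  · have := hγ.nat_mul_le hN.toIsLength (t₀ / m) m
    rw [mul_div_cancel₀ _ hm0.ne'] at this
    by_contra h3
    push Not at h3
    nlinarith
  · rw [abs_div, abs_of_pos hm0, div_le_one hm0]
    exact hm.le

variable {H : Type*} [NormedAddCommGroup H] [InnerProductSpace ℂ H] {π : G →* (H →L[ℂ] H)}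

/-- Imaginary part of the diagonal matrix coefficient. -/
noncomputable def ell (π : G →* (H →L[ℂ] H)) (η : H) (x : G) : ℝ := (⟪η, π x η⟫_ℂ).im

omit [TopologicalSpace G] in
lemma ell_eq (η : H) (x : G) : ell π η x = (⟪η, π x η - η⟫_ℂ).im := by
  rw [ell, inner_sub_right, Complex.sub_im]
  have : (⟪η, η⟫_ℂ).im = 0 := inner_self_im (𝕜 := ℂ) η
  rw [this, sub_zero]

omit [TopologicalSpace G] in
lemma abs_ell_le (η : H) (x : G) : |ell π η x| ≤ ‖η‖ * ‖π x η - η‖ := by
  rw [ell_eq]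
  exact (Complex.abs_im_le_norm _).trans (norm_inner_le_norm _ _)

lemma continuous_ell (hπ : IsURep π) (η : H) : Continuous (ell π η) :=
  Complex.continuous_im.comp (continuous_const.inner (hπ.cont η))

lemma ell_inv (hπ : IsURep π) (η : H) (x : G) : ell π η x⁻¹ = -ell π η x := by
  rw [ell, ell, ← hπ.inner_left, ← inner_conj_symm, Complex.conj_im]

lemma ell_mul (hπ : IsURep π) (η : H) (x y : G) :
    |ell π η (x * y) - ell π η x - ell π η y| ≤ ‖π x η - η‖ * ‖π y η - η‖ := by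
  have h1 : ell π η (x * y) - ell π η x - ell π η y = (⟪π x⁻¹ η - η, π y η - η⟫_ℂ).im := by
    rw [inner_sub_left, ← hπ.inner_right, map_sub, inner_sub_right η (π x _), ← IsURep.mul_apply,
      ell_eq η y, Complex.sub_im, Complex.sub_im]
    rfl
  rw [h1, ← hπ.norm_sub_inv x]
  exact (Complex.abs_im_le_norm _).trans (norm_inner_le_norm _ _)

lemma ell_zpow (hπ : IsURep π) (hN : IsLength N) {η : H} {C : ℝ}
    (hη : ∀ x, ‖π x η - η‖ ≤ C * N x) (x : G) (k : ℤ) :
    |ell π η (x ^ k) - k * ell π η x| ≤ C ^ 2 * (k * N x) ^ 2 := by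
  have hη' : ∀ x, ‖π x η - η‖ ≤ |C| * N x := fun x =>
    (hη x).trans (mul_le_mul_of_nonneg_right (le_abs_self C) (hN.nonneg x))
  have key : ∀ (x : G) (n : ℕ), |ell π η (x ^ n) - n * ell π η x| ≤ C ^ 2 * (n * N x) ^ 2 := by
    intro x n
    induction n with
    | zero => simp [ell_eq]
    | succ n ih =>
      have h1 := ell_mul hπ η (x ^ n) x
      have h2 : ‖π (x ^ n) η - η‖ * ‖π x η - η‖ ≤ (|C| * (n * N x)) * (|C| * N x) :=
        mul_le_mul ((hη' _).trans (mul_le_mul_of_nonneg_left (hN.pow_le x n) (abs_nonneg _)))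
          (hη' x) (norm_nonneg _) (mul_nonneg (abs_nonneg _)
            (mul_nonneg (Nat.cast_nonneg _) (hN.nonneg _)))
      have h3 : (|C| * (n * N x)) * (|C| * N x) = C ^ 2 * (n * N x ^ 2) := by
        rw [← sq_abs C]; ring
      have h4 : 0 ≤ C ^ 2 * ((n + 1) * N x ^ 2) := by positivity
      rw [← pow_succ] at h1
      rw [abs_le] at h1 ih ⊢
      push_cast
      constructor <;> nlinarith [h1.1, h1.2, ih.1, ih.2]
  obtain ⟨n, rfl | rfl⟩ := k.eq_nat_or_neg
  · simpa using key x n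
  · have := key x⁻¹ n
    rw [ell_inv hπ, hN.inv, inv_pow] at this
    simpa [mul_pow] using this

/-- The slope at zero of `ell` along a one-parameter subgroup. -/
def HasSlope (π : G →* (H →L[ℂ] H)) (η : H) (γ : ℝ → G) (a : ℝ) : Prop :=
  ∃ C : ℝ, ∀ t, |ell π η (γ t) - t * a| ≤ C * t ^ 2

lemma exists_hasSlope (hπ : IsURep π) (hN : IsLength N) {ι : Type*}
    (𝒰 : Ultrafilter ι) {x : ι → G} {R : ι → ℝ} (hR : ∀ᶠ j in (𝒰 : Filter ι), 0 < R j)
    (hR0 : Tendsto R 𝒰 (𝓝 0)) (hx : ∀ᶠ j in (𝒰 : Filter ι), N (x j) ≤ R j) {γ : ℝ → G}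
    (hγ : ∀ t, Tendsto (fun j => x j ^ ⌊t / R j⌋) 𝒰 (𝓝 (γ t))) {η : H} {C : ℝ}
    (hη : ∀ x, ‖π x η - η‖ ≤ C * N x) :
    ∃ a, Tendsto (fun j => ell π η (x j) / R j) 𝒰 (𝓝 a) ∧ HasSlope π η γ a := by
  obtain ⟨a, -, ha⟩ := (isCompact_Icc (a := -(‖η‖ * |C|)) (b := ‖η‖ * |C|)).ultrafilter_le_nhds'
    (𝒰.map fun j => ell π η (x j) / R j) (by
      rw [Ultrafilter.mem_map]
      filter_upwards [hx, hR] with j h1 h2
      change _ ∈ Icc _ _
      rw [mem_Icc, ← abs_le, abs_div, abs_of_pos h2, div_le_iff₀ h2, mul_assoc]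
      refine (abs_ell_le η _).trans (mul_le_mul_of_nonneg_left ((hη _).trans ?_) (norm_nonneg _))
      exact mul_le_mul (le_abs_self C) h1 (hN.nonneg _) (abs_nonneg _))
  have ha' : Tendsto (fun j => ell π η (x j) / R j) 𝒰 (𝓝 a) := ha
  refine ⟨a, ha', C ^ 2, fun t => ?_⟩
  have hfl := tendsto_floor_div_mul hR hR0 t
  have h1 := ((((continuous_ell hπ η).tendsto _).comp (hγ t)).sub (hfl.mul ha')).abs
  refine le_of_tendsto_of_tendsto h1 ((hfl.pow 2).const_mul (C ^ 2)) ?_
  filter_upwards [hx, hR] with j h2 h3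
  simp only [Function.comp]
  rw [mul_assoc, mul_div_cancel₀ _ h3.ne']
  refine (ell_zpow hπ hN hη _ _).trans (mul_le_mul_of_nonneg_left ?_ (sq_nonneg C))
  rw [mul_pow, mul_pow]
  exact mul_le_mul_of_nonneg_left (pow_le_pow_left₀ (hN.nonneg _) h2 2) (sq_nonneg _)

omit [TopologicalSpace G] in
lemma HasSlope.tendsto {η : H} {γ : ℝ → G} {a : ℝ} (h : HasSlope π η γ a) {ι : Type*}
    {l : Filter ι} {R : ι → ℝ} (hR : ∀ᶠ j in l, 0 < R j) (hR0 : Tendsto R l (𝓝 0)) (c : ℝ) :
    Tendsto (fun j => ell π η (γ (c * R j)) / R j) l (𝓝 (c * a)) := by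
  obtain ⟨C, hC⟩ := h
  rw [tendsto_iff_norm_sub_tendsto_zero]
  have h1 := hR0.const_mul (C * c ^ 2)
  rw [mul_zero] at h1
  refine squeeze_zero' (Eventually.of_forall fun _ => norm_nonneg _) (hR.mono fun j hj => ?_) h1
  have h2 : ell π η (γ (c * R j)) / R j - c * a = (ell π η (γ (c * R j)) - c * R j * a) / R j := by
    field_simp
  rw [h2, Real.norm_eq_abs, abs_div, abs_of_pos hj, div_le_iff₀ hj]
  refine (hC _).trans (le_of_eq (by ring))

end Pool.Agent.MP_2da52b_an

end MrgPart2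

-- ======== part 3: formerly Pool.Agent.MP_2da52b_an.Poisson
section MrgPart3

/-!
One-sided spectrum on the real line and the Poisson integral.
-/

open Set Filter Topology MeasureTheory Complex
open scoped InnerProductSpace Real

namespace Pool.Agent.MP_2da52b_an

/-- The Cauchy kernel. -/
noncomputable def cker (w : ℂ) (t : ℝ) : ℂ := ((t : ℂ) - w)⁻¹

lemma sub_ne_zero_of_im {w : ℂ} (hw : w.im ≠ 0) (t : ℝ) : (t : ℂ) - w ≠ 0 := fun h => by
  have := congrArg Complex.im h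
  simp at this
  exact hw this

lemma abs_im_le_norm_sub (w : ℂ) (t : ℝ) : |w.im| ≤ ‖(t : ℂ) - w‖ := by
  simpa using Complex.abs_im_le_norm ((t : ℂ) - w)

lemma norm_cker_le {w : ℂ} (hw : w.im ≠ 0) (t : ℝ) : ‖cker w t‖ ≤ |w.im|⁻¹ := by
  rw [cker, norm_inv]
  exact inv_anti₀ (abs_pos.2 hw) (abs_im_le_norm_sub w t)

lemma norm_cker_sq (w : ℂ) (t : ℝ) : ‖cker w t‖ ^ 2 = ((t - w.re) ^ 2 + w.im ^ 2)⁻¹ := by
  rw [cker, norm_inv, inv_pow, Complex.sq_norm, Complex.normSq_apply]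
  simp [sq]

lemma continuous_cker {w : ℂ} (hw : w.im ≠ 0) : Continuous (cker w) :=
  (continuous_ofReal.sub continuous_const).inv₀ (sub_ne_zero_of_im hw)

lemma integrable_norm_cker_sq {w : ℂ} (hw : w.im ≠ 0) : Integrable fun t => ‖cker w t‖ ^ 2 := by
  have h1 := ((integrable_inv_one_add_sq.comp_div hw).comp_sub_right w.re).const_mul (w.im ^ 2)⁻¹
  refine h1.congr (Eventually.of_forall fun t => ?_)
  simp only [norm_cker_sq]
  field_simp
  ring

lemma norm_cker_ball {w₀ w : ℂ} (hw₀ : w₀.im ≠ 0) (hw : w ∈ Metric.ball w₀ (|w₀.im| / 2)) (t : ℝ) :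
    w.im ≠ 0 ∧ ‖cker w t‖ ≤ 2 * ‖cker w₀ t‖ := by
  rw [mem_ball_iff_norm] at hw
  have h0 := abs_pos.2 hw₀
  constructor
  · intro h
    have := Complex.abs_im_le_norm (w - w₀)
    simp [h] at this
    linarith
  · have h1 := abs_im_le_norm_sub w₀ t
    have h2 : ‖(t : ℂ) - w₀‖ ≤ ‖(t : ℂ) - w‖ + ‖w - w₀‖ := norm_sub_le_norm_sub_add_norm_sub _ _ _
    rw [cker, cker, norm_inv, norm_inv, ← div_eq_mul_inv, inv_eq_one_div,
      div_le_div_iff₀ (by linarith) (by linarith)]
    linarith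

lemma hasDerivAt_cker {w : ℂ} (hw : w.im ≠ 0) (t : ℝ) :
    HasDerivAt (fun w => cker w t) (cker w t ^ 2) w := by
  refine (((hasDerivAt_id w).const_sub (t : ℂ)).inv (sub_ne_zero_of_im hw t)).congr_deriv ?_
  simp [cker]

lemma hasDerivAt_cker_real {w : ℂ} (hw : w.im ≠ 0) (t : ℝ) :
    HasDerivAt (cker w) (-cker w t ^ 2) t := by
  refine (((hasDerivAt_id (t : ℂ)).sub_const w).inv
    (sub_ne_zero_of_im hw t)).comp_ofReal.congr_deriv ?_
  simp [cker, neg_div]

section vector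

variable {E : Type*} [NormedAddCommGroup E] [NormedSpace ℂ E]

lemma integrable_smul_of_le {w : ℂ} (hw : w.im ≠ 0) {k : ℝ → ℂ} (hk : Continuous k) {c : ℝ}
    (hkc : ∀ t, ‖k t‖ ≤ c * ‖cker w t‖ ^ 2) {f : ℝ → E} (hf : Continuous f) {M : ℝ}
    (hM : ∀ t, ‖f t‖ ≤ M) : Integrable fun t => k t • f t := by
  refine ((integrable_norm_cker_sq hw).const_mul (c * M)).mono' (hk.smul hf).aestronglyMeasurable
    (Eventually.of_forall fun t => ?_)
  rw [norm_smul]
  calc ‖k t‖ * ‖f t‖ ≤ (c * ‖cker w t‖ ^ 2) * M :=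
        mul_le_mul (hkc t) (hM t) (norm_nonneg _) ((norm_nonneg _).trans (hkc t))
    _ = _ := by ring

lemma integrable_cker_sq_smul {w : ℂ} (hw : w.im ≠ 0) {f : ℝ → E} (hf : Continuous f) {M : ℝ}
    (hM : ∀ t, ‖f t‖ ≤ M) : Integrable fun t => cker w t ^ 2 • f t :=
  integrable_smul_of_le hw ((continuous_cker hw).pow 2) (c := 1) (fun t => by simp) hf hM

lemma hasDerivAt_integral_cker_sq {w : ℂ} (hw : w.im ≠ 0) {f : ℝ → E} (hf : Continuous f) {M : ℝ}
    (hM : ∀ t, ‖f t‖ ≤ M) : HasDerivAt (fun w => ∫ t, cker w t ^ 2 • f t)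
      (∫ t, (2 * cker w t ^ 3) • f t) w := by
  have h0 := abs_pos.2 hw
  refine (hasDerivAt_integral_of_dominated_loc_of_deriv_le
    (F' := fun w t => (2 * cker w t ^ 3) • f t)
    (bound := fun t => (16 * |w.im|⁻¹ * M) * ‖cker w t‖ ^ 2)
    (Metric.ball_mem_nhds w (half_pos h0)) ?_ (integrable_cker_sq_smul hw hf hM) ?_ ?_
    ((integrable_norm_cker_sq hw).const_mul _) ?_).2
  · filter_upwards [Metric.ball_mem_nhds w (half_pos h0)] with z hz
    exact (((continuous_cker (norm_cker_ball hw hz 0).1).pow 2).smul hf).aestronglyMeasurable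
  · exact ((continuous_const.mul ((continuous_cker hw).pow 3)).smul hf).aestronglyMeasurable
  · refine Eventually.of_forall fun t z hz => ?_
    have h1 := (norm_cker_ball hw hz t).2
    have h2 := norm_cker_le hw t
    have h3 : ‖cker z t‖ ^ 3 ≤ (2 * ‖cker w t‖) ^ 3 := by gcongr
    have h4 := hM t
    rw [norm_smul, norm_mul, norm_pow]
    simp only [Complex.norm_ofNat]
    calc 2 * ‖cker z t‖ ^ 3 * ‖f t‖ ≤ 2 * (2 * ‖cker w t‖) ^ 3 * M := by gcongr
      _ = 16 * ‖cker w t‖ * M * ‖cker w t‖ ^ 2 := by ring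
      _ ≤ _ := by
        have : 0 ≤ M := (norm_nonneg _).trans h4
        gcongr
  · refine Eventually.of_forall fun t z hz => ?_
    have := ((hasDerivAt_cker (norm_cker_ball hw hz t).1 t).pow 2).smul_const (f t)
    convert this using 2
    simp
    ring

lemma norm_cker_sub_le {w : ℂ} (hw : w.im ≠ 0) :
    ∃ c, ∀ t, ‖cker w t - cker (-I) t‖ ≤ c * ‖cker w t‖ ^ 2 := by
  refine ⟨‖w + I‖ * (1 + ‖w + I‖), fun t => ?_⟩
  have h1 := sub_ne_zero_of_im hw t
  have h2 := sub_ne_zero_of_im (w := -I) (by simp) t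
  have h3 : cker w t - cker (-I) t = (w + I) * (1 - (w + I) * cker (-I) t) * cker w t ^ 2 := by
    simp only [cker]
    field_simp
    ring
  have h4 : ‖cker (-I) t‖ ≤ 1 := by simpa using norm_cker_le (w := -I) (by simp) t
  rw [h3, norm_mul, norm_mul, norm_pow]
  gcongr
  refine (norm_sub_le _ _).trans ?_
  rw [norm_one, norm_mul]
  gcongr
  exact mul_le_of_le_one_right (norm_nonneg _) h4

lemma integrable_cker_sub_smul {w : ℂ} (hw : w.im ≠ 0) {f : ℝ → E} (hf : Continuous f) {M : ℝ}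
    (hM : ∀ t, ‖f t‖ ≤ M) : Integrable fun t => (cker w t - cker (-I) t) • f t := by
  obtain ⟨c, hc⟩ := norm_cker_sub_le hw
  exact integrable_smul_of_le hw ((continuous_cker hw).sub (continuous_cker (by simp))) hc hf hM

lemma hasDerivAt_integral_cker {w : ℂ} (hw : w.im ≠ 0) {f : ℝ → E} (hf : Continuous f) {M : ℝ}
    (hM : ∀ t, ‖f t‖ ≤ M) : HasDerivAt (fun w => ∫ t, (cker w t - cker (-I) t) • f t)
      (∫ t, cker w t ^ 2 • f t) w := by
  have h0 := abs_pos.2 hw
  refine (hasDerivAt_integral_of_dominated_loc_of_deriv_le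
    (F' := fun w t => cker w t ^ 2 • f t)
    (bound := fun t => (4 * M) * ‖cker w t‖ ^ 2)
    (Metric.ball_mem_nhds w (half_pos h0)) ?_ (integrable_cker_sub_smul hw hf hM) ?_ ?_
    ((integrable_norm_cker_sq hw).const_mul _) ?_).2
  · filter_upwards [Metric.ball_mem_nhds w (half_pos h0)] with z hz
    exact (((continuous_cker (norm_cker_ball hw hz 0).1).sub
      (continuous_cker (by simp))).smul hf).aestronglyMeasurable
  · exact (((continuous_cker hw).pow 2).smul hf).aestronglyMeasurable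
  · refine Eventually.of_forall fun t z hz => ?_
    have h1 := (norm_cker_ball hw hz t).2
    have h4 := hM t
    rw [norm_smul, norm_pow]
    calc ‖cker z t‖ ^ 2 * ‖f t‖ ≤ (2 * ‖cker w t‖) ^ 2 * M := by gcongr
      _ = _ := by ring
  · refine Eventually.of_forall fun t z hz => ?_
    exact ((hasDerivAt_cker (norm_cker_ball hw hz t).1 t).sub_const _).smul_const (f t)

end vector

/-- A dissipativity inequality forces one-sided spectrum. -/
theorem integral_cker_sq_smul_eq_zero {H : Type*} [NormedAddCommGroup H] [InnerProductSpace ℂ H]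
    [CompleteSpace H] {f f' : ℝ → H} (hd : ∀ t, HasDerivAt f (f' t) t) (hf' : Continuous f')
    {M : ℝ} (hM : ∀ t, ‖f t‖ ≤ M) (hM' : ∀ t, ‖f' t‖ ≤ M) (S : Submodule ℂ (H × H))
    (hS : ∀ p ∈ S, 0 ≤ (⟪p.1, p.2⟫_ℂ).im) (hfS : ∀ t, (f t, f' t) ∈ S) {w : ℂ} (hw : w.im < 0) :
    ∫ t, cker w t ^ 2 • f t = 0 := by
  have hf : Continuous f := continuous_iff_continuousAt.2 fun t => (hd t).continuousAt
  have hpos : ∀ z : ℂ, z.im ≠ 0 →
      0 ≤ (⟪∫ t, cker z t ^ 2 • f t, ∫ t, cker z t ^ 2 • f' t⟫_ℂ).im := by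
    intro z hz
    have hcl : IsClosed (S.topologicalClosure : Set (H × H)) := S.isClosed_topologicalClosure
    have : CompleteSpace S.topologicalClosure := hcl.completeSpace_coe
    let : NormedSpace ℝ S.topologicalClosure := NormedSpace.restrictScalars ℝ ℂ _
    have hmem : ∀ t, (cker z t ^ 2 • f t, cker z t ^ 2 • f' t) ∈ S.topologicalClosure := fun t =>
      S.le_topologicalClosure (S.smul_mem (cker z t ^ 2) (hfS t))
    have h := S.topologicalClosure.subtypeₗᵢ.integral_comp_comm (μ := volume)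
      (fun t => (⟨_, hmem t⟩ : S.topologicalClosure))
    have h2 : ∫ t, (cker z t ^ 2 • f t, cker z t ^ 2 • f' t) ∈ S.topologicalClosure := by
      have h3 : ∫ t, (cker z t ^ 2 • f t, cker z t ^ 2 • f' t) = _ := h
      rw [h3]
      exact Subtype.property _
    rw [integral_pair (integrable_cker_sq_smul hz hf hM) (integrable_cker_sq_smul hz hf' hM')] at h2
    have h4 : IsClosed {p : H × H | 0 ≤ (⟪p.1, p.2⟫_ℂ).im} :=
      isClosed_le continuous_const (by fun_prop)
    exact closure_minimal (fun p hp => hS p hp) h4 h2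
  have hibp : ∀ z : ℂ, z.im ≠ 0 →
      ∫ t, (2 * cker z t ^ 3) • f t = ∫ t, cker z t ^ 2 • f' t := by
    intro z hz
    have h1 : ∀ t, HasDerivAt (fun t => cker z t ^ 2) (-(2 * cker z t ^ 3)) t := fun t => by
      refine ((hasDerivAt_cker_real hz t).pow 2).congr_deriv ?_
      simp
      ring
    have h3 : Integrable fun t => (-(2 * cker z t ^ 3)) • f t := by
      refine integrable_smul_of_le hz (k := fun t => -(2 * cker z t ^ 3))
        (continuous_const.mul ((continuous_cker hz).pow 3)).neg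
        (c := 2 * |z.im|⁻¹) (fun t => ?_) hf hM
      have := norm_cker_le hz t
      rw [norm_neg, norm_mul, norm_pow]
      simp only [Complex.norm_ofNat]
      calc 2 * ‖cker z t‖ ^ 3 = 2 * ‖cker z t‖ * ‖cker z t‖ ^ 2 := by ring
        _ ≤ _ := by gcongr
    have h2 := integral_bilinear_hasDerivAt_right_eq_neg_left_of_integrable
      (L := ContinuousLinearMap.lsmul ℝ ℂ) (fun t _ => h1 t) (fun t _ => hd t)
      (integrable_cker_sq_smul hz hf' hM') h3 (integrable_cker_sq_smul hz hf hM)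
    simp only [ContinuousLinearMap.lsmul_apply, neg_smul, integral_neg, neg_neg] at h2
    exact h2.symm
  set r : ℝ → H := fun y => ∫ t, cker (w.re - y * I) t ^ 2 • f t with hr
  have hrd : ∀ y : ℝ, 0 < y → HasDerivAt r (-I • ∫ t, cker (w.re - y * I) t ^ 2 • f' t) y := by
    intro y hy
    have hz : ((w.re : ℂ) - y * I).im ≠ 0 := by simpa using hy.ne'
    have h1 := hasDerivAt_integral_cker_sq hz hf hM
    rw [hibp _ hz] at h1
    have h2 : HasDerivAt (fun y : ℝ => (w.re : ℂ) - y * I) (-I) y := by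
      simpa using ((hasDerivAt_id (y : ℂ)).mul_const I).comp_ofReal.const_sub (w.re : ℂ)
    exact h1.scomp y h2
  have hN : ∀ y : ℝ, 0 < y → HasDerivAt (fun y => (⟪r y, r y⟫_ℂ).re)
      (2 * (⟪r y, ∫ t, cker (w.re - y * I) t ^ 2 • f' t⟫_ℂ).im) y := by
    intro y hy
    have h1 := reCLM.hasFDerivAt.comp_hasDerivAt y ((hrd y hy).inner ℂ (hrd y hy))
    refine h1.congr_deriv ?_
    rw [← inner_conj_symm (-I • _) (r y), inner_smul_right]
    generalize ⟪r y, ∫ t, cker (w.re - y * I) t ^ 2 • f' t⟫_ℂ = a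
    simp
    ring
  have hmono : MonotoneOn (fun y => (⟪r y, r y⟫_ℂ).re) (Ioi 0) := by
    refine monotoneOn_of_deriv_nonneg (convex_Ioi 0)
      (fun y hy => (hN y hy).continuousAt.continuousWithinAt) ?_ ?_
    · rw [interior_Ioi]
      exact fun y hy => (hN y hy).differentiableAt.differentiableWithinAt
    · rw [interior_Ioi]
      intro y hy
      rw [(hN y hy).deriv]
      exact mul_nonneg zero_le_two (hpos _ (by simpa using hy.ne'))
  have hlim : Tendsto r atTop (𝓝 0) := by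
    have h1 := tendsto_integral_filter_of_dominated_convergence (μ := volume) (l := atTop)
      (F := fun (y : ℝ) (t : ℝ) => cker (w.re - y * I) t ^ 2 • f t) (f := fun _ => 0)
      (fun t => M * ‖cker (w.re - I) t‖ ^ 2) ?_ ?_
      ((integrable_norm_cker_sq (by simp)).const_mul _) ?_
    · simpa using h1
    · filter_upwards [eventually_gt_atTop 0] with y hy
      exact (((continuous_cker (by simpa using hy.ne')).pow 2).smul hf).aestronglyMeasurable
    · filter_upwards [eventually_ge_atTop 1] with y hy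
      refine Eventually.of_forall fun t => ?_
      rw [norm_smul, norm_pow, mul_comm, norm_cker_sq, norm_cker_sq]
      refine mul_le_mul (hM t) ?_ (by positivity) ((norm_nonneg _).trans (hM t))
      simp only [sub_re, ofReal_re, mul_re, I_re, mul_zero, ofReal_im, I_im, mul_one, sub_self,
        sub_zero, sub_im, mul_im, add_zero, zero_sub, even_two, Even.neg_pow, one_pow]
      refine inv_anti₀ (by positivity) ?_
      nlinarith
    · refine Eventually.of_forall fun t => ?_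
      rw [tendsto_zero_iff_norm_tendsto_zero]
      have h2 : Tendsto (fun y : ℝ => (y⁻¹) ^ 2 * M) atTop (𝓝 (0 ^ 2 * M)) :=
        (tendsto_inv_atTop_zero.pow 2).mul_const M
      simp only [ne_eq, OfNat.ofNat_ne_zero, not_false_eq_true, zero_pow, zero_mul] at h2
      refine squeeze_zero' (Eventually.of_forall fun _ => norm_nonneg _) ?_ h2
      filter_upwards [eventually_gt_atTop 0] with y hy
      have h3 := norm_cker_le (w := w.re - y * I) (by simpa using hy.ne') t
      simp only [sub_im, ofReal_im, mul_im, ofReal_re, I_im, mul_one, I_re, mul_zero, add_zero,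
        zero_sub, abs_neg, abs_of_pos hy] at h3
      rw [norm_smul, norm_pow]
      have := hM t
      gcongr
  have hlim' : Tendsto (fun y => (⟪r y, r y⟫_ℂ).re) atTop (𝓝 0) := by
    have := (continuous_re.tendsto _).comp (hlim.inner (𝕜 := ℂ) hlim)
    rw [inner_zero_left, zero_re] at this
    exact this
  have h1 : (⟪r (-w.im), r (-w.im)⟫_ℂ).re ≤ 0 := by
    refine ge_of_tendsto hlim' ?_
    filter_upwards [eventually_ge_atTop (-w.im)] with y hy
    exact hmono (neg_pos.2 hw) ((neg_pos.2 hw).trans_le hy) hy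
  have h2 : r (-w.im) = 0 := (re_inner_self_nonpos (𝕜 := ℂ)).1 h1
  simpa [hr] using h2

/-- One-sided spectrum for a scalar function. -/
def OneSided (g : ℝ → ℂ) : Prop := ∀ w : ℂ, w.im < 0 → ∫ t, cker w t ^ 2 • g t = 0

lemma oneSided_const (c : ℂ) : OneSided fun _ => c := by
  intro w hw
  rw [integral_smul_const]
  have h1 : ∫ t, -cker w t ^ 2 = 0 - 0 := by
    have hb : ∀ l : Filter ℝ, Tendsto (fun t : ℝ => ‖t‖) l atTop → Tendsto (cker w) l (𝓝 0) := by
      intro l hl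
      refine tendsto_inv₀_cobounded.comp ?_
      rw [← tendsto_norm_atTop_iff_cobounded]
      refine tendsto_atTop_mono (fun t => ?_) (tendsto_atTop_add_const_right _ (-‖w‖) hl)
      have := norm_sub_norm_le (t : ℂ) w
      simpa [sub_eq_add_neg] using this
    refine integral_of_hasDerivAt_of_tendsto (hasDerivAt_cker_real hw.ne) ?_
      (hb _ tendsto_abs_atBot_atTop) (hb _ tendsto_abs_atTop_atTop)
    simpa using (integrable_cker_sq_smul hw.ne (f := fun _ => (1 : ℂ)) continuous_const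
      (M := 1) (by simp)).neg
  rw [integral_neg, sub_zero, neg_eq_zero] at h1
  simp [h1]

/-- The Poisson kernel at height one. -/
noncomputable def pker (u : ℝ) : ℝ := π⁻¹ * (1 + u ^ 2)⁻¹

lemma pker_pos (u : ℝ) : 0 < pker u := by unfold pker; positivity

lemma continuous_pker : Continuous pker :=
  continuous_const.mul (Continuous.inv₀ (by fun_prop) fun u => by positivity)

lemma integrable_pker : Integrable pker := integrable_inv_one_add_sq.const_mul _

lemma integral_pker : ∫ u, pker u = 1 := by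
  simp only [pker]
  rw [integral_const_mul, integral_univ_inv_one_add_sq, inv_mul_cancel₀ Real.pi_ne_zero]

/-- The Poisson integral. -/
noncomputable def pois (g : ℝ → ℂ) (z : ℂ) : ℂ := ∫ u, pker u • g (z.re + z.im * u)

lemma integrable_pois {g : ℝ → ℂ} (hg : Continuous g) {M : ℝ} (hM : ∀ t, ‖g t‖ ≤ M) (z : ℂ) :
    Integrable fun u => pker u • g (z.re + z.im * u) := by
  refine (integrable_pker.mul_const M).mono' (Continuous.aestronglyMeasurable
    (continuous_pker.smul (by fun_prop))) (Eventually.of_forall fun u => ?_)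
  rw [norm_smul, Real.norm_of_nonneg (pker_pos u).le]
  exact mul_le_mul_of_nonneg_left (hM _) (pker_pos u).le

lemma norm_pois_le {g : ℝ → ℂ} {M : ℝ} (hM : ∀ t, ‖g t‖ ≤ M) (z : ℂ) : ‖pois g z‖ ≤ M := by
  refine (norm_integral_le_of_norm_le (integrable_pker.mul_const M)
    (Eventually.of_forall fun u => ?_)).trans (by rw [integral_mul_const, integral_pker, one_mul])
  rw [norm_smul, Real.norm_of_nonneg (pker_pos u).le]
  exact mul_le_mul_of_nonneg_left (hM _) (pker_pos u).le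

lemma continuous_pois {g : ℝ → ℂ} (hg : Continuous g) {M : ℝ} (hM : ∀ t, ‖g t‖ ≤ M) :
    Continuous (pois g) := by
  refine continuous_of_dominated (bound := fun u => pker u * M)
    (fun z => (integrable_pois hg hM z).aestronglyMeasurable)
    (fun z => Eventually.of_forall fun u => ?_) (integrable_pker.mul_const M)
    (Eventually.of_forall fun u => by fun_prop)
  rw [norm_smul, Real.norm_of_nonneg (pker_pos u).le]
  exact mul_le_mul_of_nonneg_left (hM _) (pker_pos u).le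

lemma pois_of_im_eq_zero (g : ℝ → ℂ) {z : ℂ} (hz : z.im = 0) : pois g z = g z.re := by
  simp only [pois, hz, zero_mul, add_zero]
  rw [integral_smul_const, integral_pker, one_smul]

lemma pois_const (c z : ℂ) : pois (fun _ => c) z = c := by
  simp only [pois]
  rw [integral_smul_const, integral_pker, one_smul]

lemma pois_eq_cauchy {g : ℝ → ℂ} (hg : Continuous g) {M : ℝ} (hM : ∀ t, ‖g t‖ ≤ M) {z : ℂ}
    (hz : 0 < z.im) : pois g z = (2 * π * I)⁻¹ * ((∫ t, (cker z t - cker (-I) t) • g t) -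
      ∫ t, (cker ((starRingEnd ℂ) z) t - cker (-I) t) • g t) := by
  have hz' : ((starRingEnd ℂ) z).im ≠ 0 := by simpa using hz.ne'
  rw [← integral_sub (integrable_cker_sub_smul hz.ne' hg hM) (integrable_cker_sub_smul hz' hg hM),
    ← integral_const_mul, ← integral_add_left_eq_self _ z.re]
  have h1 := Measure.integral_comp_mul_left (fun t => (2 * π * I)⁻¹ *
    ((cker z (z.re + t) - cker (-I) (z.re + t)) • g (z.re + t) -
      (cker ((starRingEnd ℂ) z) (z.re + t) - cker (-I) (z.re + t)) • g (z.re + t))) z.im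
  rw [abs_of_pos (inv_pos.2 hz), eq_inv_smul_iff₀ hz.ne'] at h1
  rw [← h1, ← integral_smul, pois]
  refine integral_congr_ae (Eventually.of_forall fun u => ?_)
  have hy : (z.im : ℂ) ≠ 0 := by exact_mod_cast hz.ne'
  have e1 : ((z.re + z.im * u : ℝ) : ℂ) - z = z.im * (u - I) := by
    apply Complex.ext <;> simp
  have e2 : ((z.re + z.im * u : ℝ) : ℂ) - (starRingEnd ℂ) z = z.im * (u + I) := by
    apply Complex.ext <;> simp
  have h2 : (u : ℂ) - I ≠ 0 := sub_ne_zero_of_im (by simp) u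
  have h3 : (u : ℂ) + I ≠ 0 := by simpa using sub_ne_zero_of_im (w := -I) (by simp) u
  have h4 : (1 + (u : ℂ) ^ 2) = (u - I) * (u + I) := by
    ring_nf; simp; ring
  have h5 : (π : ℂ) ≠ 0 := by exact_mod_cast Real.pi_ne_zero
  simp only [smul_eq_mul, real_smul, pker]
  rw [← sub_mul, sub_sub_sub_cancel_right, cker, cker, e1, e2]
  push_cast
  rw [h4]
  field_simp
  ring

lemma OneSided.differentiableOn {g : ℝ → ℂ} (h : OneSided g) (hg : Continuous g) {M : ℝ}
    (hM : ∀ t, ‖g t‖ ≤ M) : DifferentiableOn ℂ (pois g) {z | 0 < z.im} := by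
  set C : ℂ → ℂ := fun w => ∫ t, (cker w t - cker (-I) t) • g t with hC
  have hlow : ∀ w : ℂ, w.im < 0 → C w = 0 := by
    intro w hw
    have hd : ∀ w ∈ {w : ℂ | w.im < 0}, HasDerivAt C 0 w := fun w hw => by
      have := hasDerivAt_integral_cker (ne_of_lt hw) hg hM
      rwa [h w hw] at this
    have hop : IsOpen {w : ℂ | w.im < 0} := isOpen_lt continuous_im continuous_const
    have := hop.is_const_of_deriv_eq_zero (convex_halfSpace_im_lt 0).isPreconnected
      (fun w hw => (hd w hw).differentiableAt.differentiableWithinAt)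
      (fun w hw => (hd w hw).deriv) hw (show (-I) ∈ {w : ℂ | w.im < 0} by simp)
    rw [this]
    simp [hC]
  have h2 : DifferentiableOn ℂ (fun z => (2 * π * I)⁻¹ * C z) {z | 0 < z.im} := fun z hz =>
    ((hasDerivAt_integral_cker (ne_of_gt hz) hg hM).const_mul _).differentiableAt.differentiableWithinAt
  refine h2.congr fun z hz => ?_
  have h3 := hlow ((starRingEnd ℂ) z) (by simpa using hz)
  rw [pois_eq_cauchy hg hM hz]
  simp only [hC] at h3 ⊢
  rw [h3, sub_zero]

/-- The Poisson integral is multiplicative on functions with one-sided spectrum. -/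
theorem pois_mul {g₁ g₂ : ℝ → ℂ} (h₁ : OneSided g₁) (h₂ : OneSided g₂)
    (h₃ : OneSided fun t => g₁ t * g₂ t) (hg₁ : Continuous g₁) (hg₂ : Continuous g₂) {M₁ M₂ : ℝ}
    (hM₁ : ∀ t, ‖g₁ t‖ ≤ M₁) (hM₂ : ∀ t, ‖g₂ t‖ ≤ M₂) {z : ℂ} (hz : 0 ≤ z.im) :
    pois (fun t => g₁ t * g₂ t) z = pois g₁ z * pois g₂ z := by
  have hM₃ : ∀ t, ‖g₁ t * g₂ t‖ ≤ M₁ * M₂ := fun t => by
    rw [norm_mul]
    exact mul_le_mul (hM₁ t) (hM₂ t) (norm_nonneg _) ((norm_nonneg _).trans (hM₁ t))
  have hg₃ : Continuous fun t => g₁ t * g₂ t := hg₁.mul hg₂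
  set Φ : ℂ → ℂ := fun z => pois (fun t => g₁ t * g₂ t) z - pois g₁ z * pois g₂ z with hΦ
  have hΦc : Continuous Φ := (continuous_pois hg₃ hM₃).sub
    ((continuous_pois hg₁ hM₁).mul (continuous_pois hg₂ hM₂))
  have hΦd : DifferentiableOn ℂ Φ {z | 0 < z.im} := (h₃.differentiableOn hg₃ hM₃).sub
    ((h₁.differentiableOn hg₁ hM₁).mul (h₂.differentiableOn hg₂ hM₂))
  have hΦb : ∀ z, ‖Φ z‖ ≤ M₁ * M₂ + M₁ * M₂ := fun z => by
    refine (norm_sub_le _ _).trans (add_le_add (norm_pois_le hM₃ z) ?_)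
    rw [norm_mul]
    exact mul_le_mul (norm_pois_le hM₁ z) (norm_pois_le hM₂ z) (norm_nonneg _)
      ((norm_nonneg _).trans (hM₁ 0))
  have key := PhragmenLindelof.right_half_plane_of_bounded_on_real (f := fun z => Φ (I * z))
    (C := 0) (z := -I * z) ⟨?_, (hΦc.comp (by fun_prop)).continuousOn⟩ ⟨0, by norm_num, 0, ?_⟩
    ⟨M₁ * M₂ + M₁ * M₂, eventually_map.2 (Eventually.of_forall fun x => hΦb _)⟩ ?_
    (by simpa using hz)
  · rw [← mul_assoc, mul_neg, I_mul_I, neg_neg, one_mul, norm_le_zero_iff] at key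
    exact sub_eq_zero.1 key
  · exact hΦd.comp (by fun_prop) fun w hw => by simpa using hw
  · exact Asymptotics.IsBigO.of_bound (M₁ * M₂ + M₁ * M₂)
      (Eventually.of_forall fun w => by simpa using hΦb _)
  · intro x
    have : (I * (x * I)).im = 0 := by simp
    simp [hΦ, pois_of_im_eq_zero _ this]

lemma eq_one_of_pois_eq_one {g : ℝ → ℂ} (hg : Continuous g) (hM : ∀ t, ‖g t‖ ≤ 1) {s : ℝ}
    (hs : 0 < s) (h : pois g (s * I) = 1) (t : ℝ) : g t = 1 := by
  have hi := integrable_pois hg hM (s * I)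
  have h1 : ∫ u, pker u * (1 - (g (s * u)).re) = 0 := by
    have h2 := congrArg Complex.re h
    rw [pois, ← reCLM_apply, ← ContinuousLinearMap.integral_comp_comm _ hi] at h2
    simp only [mul_sub, mul_one]
    rw [integral_sub integrable_pker, integral_pker]
    · simp at h2
      rw [h2, sub_self]
    · simpa using reCLM.integrable_comp hi
  have hre : ∀ t, (g t).re ≤ 1 := fun t => (re_le_norm _).trans (hM t)
  have h3 : (g t).re = 1 := by
    by_contra hne
    have hc : Continuous fun u => pker u * (1 - (g (s * u)).re) :=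
      continuous_pker.mul (by fun_prop)
    have hint : Integrable fun u => pker u * (1 - (g (s * u)).re) := by
      simp only [mul_sub, mul_one]
      exact integrable_pker.sub (by simpa using reCLM.integrable_comp hi)
    have := (integral_pos_of_integrable_nonneg_nonzero (x := t / s) hc hint
      (fun u => mul_nonneg (pker_pos u).le (sub_nonneg.2 (hre _))) (by
        rw [mul_div_cancel₀ _ hs.ne']
        exact mul_ne_zero (pker_pos _).ne' (sub_ne_zero.2 (Ne.symm hne))))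
    exact this.ne' h1
  have h4 : ‖g t‖ ^ 2 ≤ 1 := pow_le_one₀ (norm_nonneg _) (hM t)
  rw [Complex.sq_norm, Complex.normSq_apply, h3] at h4
  apply Complex.ext
  · simpa using h3
  · simp only [one_im]
    nlinarith

end Pool.Agent.MP_2da52b_an

end MrgPart3

-- marker of a merged file
example : 731051 + 755635 = 731051 + 755635 := rfl
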