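import Pool.Agent.MP_2da52b_an.Final

/-! Right convolution operators on the space of square integrable functions. -/

set_option linter.unusedSectionVars false

open Set Filter Topology MeasureTheory
open scoped Pointwise InnerProductSpace ENNReal ComplexConjugate

namespace Pool.Agent.MP_2da52b_an.Nt

variable {G : Type*} [Group G] [TopologicalSpace G] [IsTopologicalGroup G]
variable [MeasurableSpace G] [BorelSpace G] {μ : Measure G} [μ.IsHaarMeasure]
variable [LocallyCompactSpace G] [T2Space G] [μ.Regular]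

/-- Vectors represented by a continuous compactly supported function. -/
def IsCC (ξ : Lp ℂ 2 μ) : Prop := ∃ f : G → ℂ, Continuous f ∧ HasCompactSupport f ∧ ξ =ᵐ[μ] f

lemma exists_approx {f : G → ℂ} (hf : MemLp f 2 μ) {ε : ℝ≥0∞} (hε : ε ≠ 0) :
    ∃ g : G → ℂ, eLpNorm (f - g) 2 μ ≤ ε ∧ Continuous g ∧ HasCompactSupport g := by
  refine hf.induction_dense (by simp) (fun g => Continuous g ∧ HasCompactSupport g) ?_ ?_
    (fun f hf => hf.1.aestronglyMeasurable) hε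
  swap
  · rintro f g ⟨h1, h2⟩ ⟨h3, h4⟩
    exact ⟨h1.add h3, h2.add h4⟩
  intro c t ht htμ δ hδ
  obtain ⟨r, hr, hη⟩ := exists_eLpNorm_indicator_le (μ := μ) (p := 2) (by simp) c hδ
  have hr2 : (r : ℝ≥0∞) / 2 ≠ 0 := by simp [hr.ne']
  obtain ⟨s, st, hs, hs', μs⟩ := ht.exists_isCompact_isClosed_sdiff_lt htμ.ne hr2
  obtain ⟨U, sU, hU, -, μU⟩ := hs'.measurableSet.exists_isOpen_sdiff_lt (μ := μ)
    hs.measure_lt_top.ne hr2
  obtain ⟨u, u1, u0, uc, ur⟩ := exists_continuous_one_zero_of_isCompact hs hU.isClosed_compl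
    (disjoint_compl_right_iff_subset.2 sU)
  refine ⟨fun x => (u x : ℂ) * c, ?_, by fun_prop,
    (uc.comp_left (g := Complex.ofReal) (by simp)).mul_right⟩
  refine le_trans (eLpNorm_mono fun x => ?_) (hη ((t \ s) ∪ (U \ s))
    ((measure_union_le _ _).trans ((add_le_add μs.le μU.le).trans (ENNReal.add_halves _).le)))
  have h0 := (ur x).1
  have h1 := (ur x).2
  by_cases hx : x ∈ s
  · simp [st hx, u1 hx]
  by_cases hxt : x ∈ t
  · rw [indicator_of_mem (show x ∈ (t \ s) ∪ (U \ s) from Or.inl ⟨hxt, hx⟩), Pi.sub_apply,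
      indicator_of_mem hxt, ← norm_neg, neg_sub, show c - u x * c = ((1 - u x : ℝ) : ℂ) * c by
        push_cast; ring, norm_mul, Complex.norm_real, Real.norm_of_nonneg (by linarith)]
    exact mul_le_of_le_one_left (norm_nonneg _) (by linarith)
  by_cases hxU : x ∈ U
  · rw [indicator_of_mem (show x ∈ (t \ s) ∪ (U \ s) from Or.inr ⟨hxU, hx⟩), Pi.sub_apply,
      indicator_of_notMem hxt, sub_zero, norm_mul, Complex.norm_real, Real.norm_of_nonneg h0]
    exact mul_le_of_le_one_left (norm_nonneg _) h1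
  · simp [hxt, u0 hxU]

lemma dense_isCC : Dense {ξ : Lp ℂ 2 μ | IsCC ξ} := by
  refine Metric.dense_iff.2 fun ξ ε hε => ?_
  obtain ⟨g, h2, h3, h1⟩ := exists_approx (Lp.memLp ξ)
    (ε := ENNReal.ofReal (ε / 2)) (by simpa using hε)
  have h4 : MemLp g 2 μ := h3.memLp_of_hasCompactSupport h1
  refine ⟨h4.toLp g, ?_, g, h3, h1, h4.coeFn_toLp⟩
  have e : (ξ : G → ℂ) - (h4.toLp g : G → ℂ) =ᵐ[μ] (ξ : G → ℂ) - g := by
    filter_upwards [h4.coeFn_toLp] with x hx
    simp [hx]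
  rw [Metric.mem_ball, dist_comm, Lp.dist_def, eLpNorm_congr_ae e]
  exact (ENNReal.toReal_le_of_le_ofReal (half_pos hε).le h2).trans_lt (half_lt_self hε)

lemma norm_sq_eq {v : Lp ℂ 2 μ} {g : G → ℂ} (h : v =ᵐ[μ] g) : ‖v‖ ^ 2 = ∫ x, ‖g x‖ ^ 2 ∂μ := by
  have e : ((‖v‖ ^ 2 : ℝ) : ℂ) = ((∫ x, ‖g x‖ ^ 2 ∂μ : ℝ) : ℂ) := by
    rw [← integral_complex_ofReal]
    push_cast
    rw [← show ⟪v, v⟫_ℂ = (‖v‖ : ℂ) ^ 2 from inner_self_eq_norm_sq_to_K v, L2.inner_def]
    refine integral_congr_ae ?_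
    filter_upwards [h] with x hx
    rw [hx]
    exact inner_self_eq_norm_sq_to_K _
  exact_mod_cast e

/-- The coefficient function at the inverse. -/
noncomputable def cfn (f β : Lp ℂ 2 μ) (s : G) : ℂ := ⟪lam μ s f, β⟫_ℂ

lemma cfn_eq (f β : Lp ℂ 2 μ) (s : G) : cfn f β s = coeff (leftReg μ) β f s⁻¹ := by
  rw [coeff_eq, cfn, isURep_lam.inner_left]

lemma continuous_cfn (f β : Lp ℂ 2 μ) : Continuous (cfn f β) :=
  (isURep_lam.cont f).inner continuous_const

lemma schur {f b : G → ℂ} (hf : Continuous f) (hfc : HasCompactSupport f) (hb : Continuous b)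
    (hbc : HasCompactSupport b) {F : G → ℂ} (hF : Integrable (fun s => ‖F s‖ ^ 2) μ)
    (h : ∀ s, ‖F s‖ ≤ ∫ y, ‖f (s⁻¹ * y)‖ * ‖b y‖ ∂μ) :
    ∫ s, ‖F s‖ ^ 2 ∂μ ≤ ((∫ y, ‖f y‖ ∂μ + 1) * ∫ t, ‖f t⁻¹‖ ∂μ) * ∫ y, ‖b y‖ ^ 2 ∂μ := by
  set m := ∫ y, ‖f y‖ ∂μ
  have hm : 0 ≤ m := integral_nonneg fun _ => norm_nonneg _
  let k : G → G → ℝ := fun s y => ‖f (s⁻¹ * y)‖ * ‖b y‖ ^ 2
  have kc : Continuous k.uncurry := by
    show Continuous fun p : G × G => ‖f (p.1⁻¹ * p.2)‖ * ‖b p.2‖ ^ 2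
    fun_prop
  have ks : HasCompactSupport k.uncurry := by
    refine HasCompactSupport.intro ((IsCompact.mul hbc (IsCompact.inv hfc)).prod hbc) ?_
    rintro ⟨s, y⟩ hp
    by_contra h0
    have h1 : y ∈ tsupport b := subset_tsupport _ fun e => h0 (by simp [k, e])
    have h2 : s⁻¹ * y ∈ tsupport f := subset_tsupport _ fun e => h0 (by simp [k, e])
    exact hp ⟨⟨y, h1, (s⁻¹ * y)⁻¹, by simpa using h2, by simp⟩, h1⟩
  have h1 : ∀ s, ‖F s‖ ^ 2 ≤ (m + 1) * ∫ y, k s y ∂μ := fun s => by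
    have w : Continuous fun y => ‖f (s⁻¹ * y)‖ := by fun_prop
    have wc : HasCompactSupport fun y => ‖f (s⁻¹ * y)‖ :=
      (hfc.comp_homeomorph (Homeomorph.mulLeft s⁻¹)).norm
    set I := ∫ y, ‖f (s⁻¹ * y)‖ * ‖b y‖ ∂μ
    have i1 : Integrable (fun y => ‖f (s⁻¹ * y)‖ * ‖b y‖) μ :=
      (w.mul hb.norm).integrable_of_hasCompactSupport wc.mul_right
    have i2 : Integrable (k s) μ :=
      (w.mul (hb.norm.pow 2)).integrable_of_hasCompactSupport wc.mul_right
    have i3 := w.integrable_of_hasCompactSupport (μ := μ) wc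
    set t := I / (m + 1)
    have e : 2 * t * I ≤ ∫ y, k s y ∂μ + t ^ 2 * m := by
      rw [show m = ∫ y, ‖f (s⁻¹ * y)‖ ∂μ from
        (integral_mul_left_eq_self (fun y => ‖f y‖) s⁻¹).symm, ← integral_const_mul,
        ← integral_const_mul, ← integral_add i2 (i3.const_mul _)]
      refine integral_mono (i1.const_mul _) (i2.add (i3.const_mul _)) fun y => ?_
      have := mul_nonneg (norm_nonneg (f (s⁻¹ * y))) (sq_nonneg (‖b y‖ - t))
      simp only [k]
      nlinarith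
    have e2 : I = t * (m + 1) := by simp only [t]; field_simp
    refine (pow_le_pow_left₀ (norm_nonneg _) (h s) 2).trans ?_
    show I ^ 2 ≤ _
    rw [e2] at e ⊢
    nlinarith [sq_nonneg t]
  have h2 : Integrable (fun s => ∫ y, k s y ∂μ) μ := by
    refine Continuous.integrable_of_hasCompactSupport (continuousOn_univ.1
      (continuousOn_integral_of_compact_support hbc kc.continuousOn fun s y _ hy => by
        simp [k, image_eq_zero_of_notMem_tsupport hy])) ?_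
    refine HasCompactSupport.intro (IsCompact.image ks continuous_fst) fun s hs => ?_
    refine integral_eq_zero_of_ae (Eventually.of_forall fun y => ?_)
    by_contra e
    exact hs ⟨(s, y), subset_tsupport _ e, rfl⟩
  refine (integral_mono hF (h2.const_mul _) h1).trans (le_of_eq ?_)
  rw [integral_const_mul, integral_integral_swap_of_hasCompactSupport kc ks, mul_assoc]
  congr 1
  rw [← integral_const_mul]
  refine integral_congr_ae (Eventually.of_forall fun y => ?_)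
  simp only [k]
  rw [integral_mul_const, ← integral_mul_left_eq_self (fun s => ‖f (s⁻¹ * y)‖) y]
  simp

lemma exists_bound {f : Lp ℂ 2 μ} (hf : IsCC f) :
    ∃ C : ℝ, ∀ β, eLpNorm (cfn f β) 2 μ ≤ ENNReal.ofReal (C * ‖β‖) := by
  obtain ⟨f₀, h1, h2, h3⟩ := hf
  set D := (∫ y, ‖f₀ y‖ ∂μ + 1) * ∫ t, ‖f₀ t⁻¹‖ ∂μ
  refine ⟨√D, fun β => ?_⟩
  have hd : ∀ b, IsCC b → eLpNorm (cfn f b) 2 μ ≤ ENNReal.ofReal (√D * ‖b‖) := by
    rintro b ⟨b₀, k1, k2, k3⟩
    have hc : HasCompactSupport (cfn f b) := by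
      rw [funext (cfn_eq f b)]
      exact (hasCompactSupport_coeff ⟨b₀, k2, k3⟩ ⟨f₀, h2, h3⟩).comp_homeomorph (Homeomorph.inv G)
    have hm : MemLp (cfn f b) 2 μ := (continuous_cfn f b).memLp_of_hasCompactSupport hc
    have h4 := schur h1 h2 k1 k2 ((memLp_two_iff_integrable_sq_norm hm.1).1 hm) fun s => by
      rw [cfn, ← inner_conj_symm, RCLike.norm_conj, inner_of_ae h3 k3]
      refine (norm_integral_le_integral_norm _).trans (le_of_eq ?_)
      simp [mul_comm]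
    rw [← norm_sq_eq hm.coeFn_toLp, ← norm_sq_eq k3] at h4
    rw [← eLpNorm_congr_ae hm.coeFn_toLp, ← Lp.enorm_def, ← ofReal_norm]
    refine ENNReal.ofReal_le_ofReal ((Real.le_sqrt (norm_nonneg _) ((sq_nonneg _).trans h4)).2
      h4 |>.trans (le_of_eq ?_))
    rw [Real.sqrt_mul' _ (sq_nonneg _), Real.sqrt_sq (norm_nonneg _)]
  obtain ⟨b, hb, hl⟩ := mem_closure_iff_seq_limit.1 (dense_isCC β)
  refine (Lp.eLpNorm_lim_le_liminf_eLpNorm (f := fun n => cfn f (b n))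
    (fun n => (continuous_cfn _ _).aestronglyMeasurable) _
    (Eventually.of_forall fun s => tendsto_const_nhds.inner hl)).trans ?_
  refine (liminf_le_liminf (Eventually.of_forall fun n => hd _ (hb n))).trans (le_of_eq ?_)
  exact (ENNReal.tendsto_ofReal (hl.norm.const_mul _)).liminf_eq

lemma memLp_cfn {f : Lp ℂ 2 μ} (hf : IsCC f) (β : Lp ℂ 2 μ) : MemLp (cfn f β) 2 μ :=
  ⟨(continuous_cfn _ _).aestronglyMeasurable,
    ((exists_bound hf).choose_spec β).trans_lt ENNReal.ofReal_lt_top⟩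

/-- The convolution operator commutes with left translations. -/
lemma exists_op {f : Lp ℂ 2 μ} (hf : IsCC f) : ∃ T : Lp ℂ 2 μ →L[ℂ] Lp ℂ 2 μ,
    (∀ β, T β =ᵐ[μ] cfn f β) ∧ ∀ x β, T (lam μ x β) = lam μ x (T β) := by
  obtain ⟨C, hC⟩ := exists_bound hf
  let T : Lp ℂ 2 μ →L[ℂ] Lp ℂ 2 μ := LinearMap.mkContinuous
    { toFun := fun β => (memLp_cfn hf β).toLp _
      map_add' := fun a b => by
        rw [← MemLp.toLp_add]
        exact MemLp.toLp_congr _ _ (Eventually.of_forall fun s => inner_add_right _ _ _)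
      map_smul' := fun c a => by
        rw [RingHom.id_apply, ← MemLp.toLp_const_smul]
        exact MemLp.toLp_congr _ _ (Eventually.of_forall fun s => inner_smul_right _ _ _) }
    |C| fun β => by
      show ‖(memLp_cfn hf β).toLp _‖ ≤ _
      rw [Lp.norm_toLp]
      exact ENNReal.toReal_le_of_le_ofReal (by positivity) ((hC β).trans
        (ENNReal.ofReal_le_ofReal (mul_le_mul_of_nonneg_right (le_abs_self _) (norm_nonneg _))))
  have h : ∀ β, T β =ᵐ[μ] cfn f β := fun β => (memLp_cfn hf β).coeFn_toLp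
  refine ⟨T, h, fun x β => Lp.ext ((h _).trans (EventuallyEq.symm ?_))⟩
  refine (leftReg_ae (h β) x).trans (Eventually.of_forall fun s => ?_)
  simp only [cfn, IsURep.mul_apply]
  exact (isURep_lam.inner_right x _ _).symm

/-- Coefficients vanish at infinity. -/
lemma exists_compact_small (η : Lp ℂ 2 μ) {ε : ℝ} (hε : 0 < ε) :
    ∃ K, IsCompact K ∧ ∀ x ∉ K, ‖⟪η, lam μ x η⟫_ℂ‖ ≤ ε := by
  set r := min 1 (ε / (2 * ‖η‖ + 1))
  have hr : 0 < r := by positivity
  obtain ⟨b, h1, h2⟩ := Metric.mem_closure_iff.1 (dense_isCc η) r hr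
  rw [dist_eq_norm] at h2
  refine ⟨_, hasCompactSupport_coeff h1 h1, fun x hx => ?_⟩
  have h3 : ⟪b, lam μ x b⟫_ℂ = 0 := image_eq_zero_of_notMem_tsupport (f := coeff (leftReg μ) b b) hx
  have e : ⟪η, lam μ x η⟫_ℂ = ⟪η, lam μ x (η - b)⟫_ℂ + ⟪η - b, lam μ x b⟫_ℂ := by
    rw [map_sub, inner_sub_right, inner_sub_left, h3]; ring
  have h4 : ‖b‖ ≤ ‖η‖ + 1 := by
    have := norm_sub_norm_le b η
    rw [norm_sub_rev] at this
    linarith [min_le_left 1 (ε / (2 * ‖η‖ + 1))]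
  have h5 : r * (2 * ‖η‖ + 1) ≤ ε := (le_div_iff₀ (by positivity)).1 (min_le_right _ _)
  have h6 := norm_inner_le_norm (𝕜 := ℂ) η (lam μ x (η - b))
  have h7 := norm_inner_le_norm (𝕜 := ℂ) (η - b) (lam μ x b)
  rw [norm_lam] at h6 h7
  rw [e]
  refine (norm_add_le _ _).trans ?_
  nlinarith [norm_nonneg η, norm_nonneg (η - b), norm_nonneg b]

end Pool.Agent.MP_2da52b_an.Nt
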