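import Pool.Agent.MP_2da52b_an.Final

/-! The peaking estimate for integrable functions and representations vanishing at infinity. -/

set_option linter.unusedSectionVars false

open Set Filter Topology MeasureTheory
open scoped Pointwise InnerProductSpace

namespace Pool.Agent.MP_2da52b_an.Nt

variable {G : Type*} [Group G] [TopologicalSpace G] [IsTopologicalGroup G] {N : G → ℝ}
variable [MeasurableSpace G] [BorelSpace G] [T2Space G] {μ : Measure G} [μ.IsHaarMeasure]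

section

variable {H : Type*} [NormedAddCommGroup H] [InnerProductSpace ℂ H] [CompleteSpace H]
  {π : G →* (H →L[ℂ] H)}
variable {ι : Type*} [Fintype ι] {η : ι → H} {C δ : ℝ}

lemma peak (h : IsCoord π N η C δ) (hπ : IsURep π) (hN : IsGleason N)
    {φ₀ : G → ℂ} (hφi : Integrable φ₀ μ) (hφ1 : ∀ x, N x ≤ 1 → ‖φ₀ x - 1‖ ≤ 1 / 10)
    {K : Set G} (hK : IsCompact K) (hsep : ∀ x ∈ K, δ ≤ N x → ∃ i, π x (η i) ≠ η i)
    {i₀ : ι} {b : ℝ} (hb : 0 < b) (hout : ∀ x ∉ K, b ≤ ‖π x (η i₀) - η i₀‖) :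
    ∃ c : ι → ℝ, (∀ i, 0 < c i) ∧ ∃ s : ℝ, 0 < s ∧ ∃ k : ℕ,
      0 < (∫ x, φ₀ x * (s + negDef π η c x)⁻¹ ^ k ∂μ).re := by
  obtain ⟨c, hc, hsmall⟩ := h.exists_weights_small hπ hN
  obtain ⟨v, hv, hvol⟩ := h.volume_lower (μ := μ) hπ hN
  refine ⟨c, hc, ?_⟩
  set ψ := negDef π η c
  set m := Fintype.card ι
  have hδ := h.pos
  have hterm : ∀ x i, 0 ≤ c i * (‖π x (η i) - η i‖ ^ 2 / 2) := fun x i =>
    mul_nonneg (hc i).le (by positivity)
  have hre0 : ∀ x, 0 ≤ (ψ x).re := fun x => by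
    rw [negDef_re hπ]; exact Finset.sum_nonneg fun i _ => hterm x i
  have hsingle : ∀ x i, c i * (‖π x (η i) - η i‖ ^ 2 / 2) ≤ (ψ x).re := fun x i => by
    rw [negDef_re hπ]
    exact Finset.single_le_sum (fun i _ => hterm x i) (Finset.mem_univ i)
  -- lower bound for the real part
  set S := 2 * (∑ i, ‖η i‖ ^ 2 / c i) + 1
  have hS0 : 0 ≤ ∑ i, ‖η i‖ ^ 2 / c i :=
    Finset.sum_nonneg fun i _ => div_nonneg (sq_nonneg _) (hc i).le
  have hS : 0 < S := by positivity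
  have hlow : ∀ x, N x < δ → δ ^ 2 / S * N x ^ 2 ≤ (ψ x).re := by
    intro x hx
    rcases (hN.nonneg x).eq_or_lt with h0 | h0
    · rw [← h0]; simpa using hre0 x
    obtain ⟨i, hi⟩ := h.coord x h0 hx
    have h1 : δ * N x ≤ ‖η i‖ * ‖π x (η i) - η i‖ := by
      have := abs_ell_le (π := π) (η i) x
      rw [abs_le] at this
      linarith [this.1]
    have h2 := pow_le_pow_left₀ (by positivity) h1 2
    have h3 : ‖η i‖ ^ 2 / c i ≤ ∑ i, ‖η i‖ ^ 2 / c i :=
      Finset.single_le_sum (f := fun i => ‖η i‖ ^ 2 / c i)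
        (fun i _ => div_nonneg (sq_nonneg _) (hc i).le) (Finset.mem_univ i)
    have h4 : (‖η i‖ * ‖π x (η i) - η i‖) ^ 2 =
        2 * (‖η i‖ ^ 2 / c i) * (c i * (‖π x (η i) - η i‖ ^ 2 / 2)) := by
      have := (hc i).ne'
      field_simp
    rw [div_mul_eq_mul_div, div_le_iff₀' hS, ← mul_pow]
    refine h2.trans (h4.le.trans (mul_le_mul (by simp only [S]; linarith) (hsingle x i)
      (hterm x i) hS.le))
  -- upper bound for the real part
  set A := (∑ i, c i) * C ^ 2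
  have hA : 0 ≤ A := mul_nonneg (Finset.sum_nonneg fun i _ => (hc i).le) (sq_nonneg _)
  have hup : ∀ x, (ψ x).re ≤ A * N x ^ 2 := by
    intro x
    rw [negDef_re hπ]
    simp only [A, Finset.sum_mul]
    refine Finset.sum_le_sum fun i _ => ?_
    rw [mul_assoc, ← mul_pow]
    refine mul_le_mul_of_nonneg_left ?_ (hc i).le
    have := pow_le_pow_left₀ (norm_nonneg _) ((h.smooth i).lip x) 2
    nlinarith [sq_nonneg ‖π x (η i) - η i‖]
  set ε : ℝ := 1 / (20 * (m + 1))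
  have hε : 0 < ε := by positivity
  have hε1 : ε ≤ 1 := by
    rw [div_le_one (by positivity)]
    have : (0 : ℝ) ≤ m := Nat.cast_nonneg m
    linarith
  obtain ⟨r₀, hr₀, hr₀'⟩ := hsmall (ε * (δ ^ 2 / S)) (by positivity)
  set r := min (min 1 δ) r₀
  have hr : 0 < r := by positivity
  have hr1 : r ≤ 1 := (min_le_left _ _).trans (min_le_left _ _)
  have hrδ : r ≤ δ := (min_le_left _ _).trans (min_le_right _ _)
  have him : ∀ x, N x < r → |(ψ x).im| ≤ ε * (ψ x).re := by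
    intro x hx
    rw [negDef_im, abs_neg]
    refine (hr₀' x (hx.trans_le (min_le_right _ _))).trans ?_
    rw [mul_assoc]
    exact mul_le_mul_of_nonneg_left (hlow x (hx.trans_le hrδ)) hε.le
  -- far region
  have hψc : Continuous ψ := continuous_negDef hπ c
  obtain ⟨a₀, ha₀, ha₀'⟩ : ∃ a₀ > 0, ∀ x, r ≤ N x → a₀ ≤ (ψ x).re := by
    have hT : IsCompact (K ∩ {x | r ≤ N x}) := hK.inter_right (isClosed_le continuous_const hN.cont)
    obtain ⟨a₀, ha₀, h1⟩ := hT.exists_forall_le' (f := fun x => (ψ x).re)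
      (Complex.continuous_re.comp hψc).continuousOn (a := 0) (fun x hx => by
        rcases lt_or_ge (N x) δ with h1 | h1
        · have : 0 < N x := hr.trans_le hx.2
          exact lt_of_lt_of_le (by positivity) (hlow x h1)
        · obtain ⟨i, hi⟩ := hsep x hx.1 h1
          have : 0 < ‖π x (η i) - η i‖ := norm_pos_iff.2 (sub_ne_zero.2 hi)
          exact lt_of_lt_of_le (mul_pos (hc i) (by positivity)) (hsingle x i))
    have := hc i₀
    refine ⟨min a₀ (c i₀ * (b ^ 2 / 2)), by positivity, fun x hx' => ?_⟩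
    by_cases hx : x ∈ K
    · exact (min_le_left _ _).trans (h1 x ⟨hx, hx'⟩)
    · refine (min_le_right _ _).trans (le_trans ?_ (hsingle x i₀))
      have := hout x hx
      gcongr
  set W := ∫ x, ‖φ₀ x‖ ∂μ
  have hW : 0 ≤ W := integral_nonneg fun _ => norm_nonneg _
  set M₀ := a₀⁻¹ ^ (m + 1)
  have hM₀ : 0 ≤ M₀ := by positivity
  set P := 1 / 2 * (1 + 2 * A)⁻¹ ^ (m + 1) * v
  have hP : 0 < P := by positivity
  have hQ : 0 ≤ M₀ * W := mul_nonneg hM₀ hW
  set ρ := min r (P / (M₀ * W + 1))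
  have hρ : 0 < ρ := by positivity
  have hρr : ρ ≤ r := min_le_left _ _
  have hρ1 : ρ ≤ 1 := hρr.trans hr1
  have hρP : M₀ * W < P / ρ := by
    have h1 : ρ ≤ P / (M₀ * W + 1) := min_le_right _ _
    rw [le_div_iff₀ (by positivity)] at h1
    rw [lt_div_iff₀ hρ]
    nlinarith
  refine ⟨ρ ^ 2, by positivity, m + 1, ?_⟩
  have hwre : ∀ x, (((ρ ^ 2 : ℝ) : ℂ) + ψ x).re = ρ ^ 2 + (ψ x).re := fun x => by
    rw [Complex.add_re, Complex.ofReal_re]
  have hwim : ∀ x, (((ρ ^ 2 : ℝ) : ℂ) + ψ x).im = (ψ x).im := fun x => by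
    rw [Complex.add_im, Complex.ofReal_im, zero_add]
  have hwpos : ∀ x, 0 < (((ρ ^ 2 : ℝ) : ℂ) + ψ x).re := fun x => by
    rw [hwre]; have := hre0 x; positivity
  have hgc : Continuous fun x => (((ρ ^ 2 : ℝ) : ℂ) + ψ x)⁻¹ ^ (m + 1) :=
    ((continuous_const.add hψc).inv₀ fun x hx => by
      have := hwpos x
      rw [show ((ρ ^ 2 : ℝ) : ℂ) + ψ x = 0 from hx] at this
      simp at this).pow _
  have hgi : Integrable (fun x => φ₀ x * (((ρ ^ 2 : ℝ) : ℂ) + ψ x)⁻¹ ^ (m + 1)) μ := by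
    refine hφi.mul_bdd (c := (ρ ^ 2)⁻¹ ^ (m + 1)) hgc.aestronglyMeasurable
      (Eventually.of_forall fun x => ?_)
    have h1 : ρ ^ 2 ≤ ‖((ρ ^ 2 : ℝ) : ℂ) + ψ x‖ := by
      refine le_trans ?_ (Complex.re_le_norm _)
      rw [hwre]
      linarith [hre0 x]
    rw [norm_pow, norm_inv]
    gcongr
  have hnear : ∀ x, N x < r → 1 / 2 * ‖((ρ ^ 2 : ℝ) : ℂ) + ψ x‖⁻¹ ^ (m + 1) ≤
      (φ₀ x * (((ρ ^ 2 : ℝ) : ℂ) + ψ x)⁻¹ ^ (m + 1)).re := by
    intro x hx
    refine re_mul_inv_pow (hφ1 x (hx.le.trans hr1)) (hwpos x) hε.le ?_ (le_of_eq ?_)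
    · rw [hwim, hwre]
      exact (him x hx).trans (mul_le_mul_of_nonneg_left (by nlinarith) hε.le)
    · simp only [ε]
      push_cast
      field_simp
  set a := 1 / 2 * ((1 + 2 * A) * ρ ^ 2)⁻¹ ^ (m + 1)
  have hBm : MeasurableSet {x | N x < ρ} := (isOpen_lt hN.cont continuous_const).measurableSet
  have hi1 : Integrable (({x | N x < ρ}).indicator fun _ => a) μ :=
    (integrable_indicator_iff hBm).2 (integrableOn_const (hN.measure_ball_ne_top hρ1))
  have hi2 : Integrable (fun x => M₀ * ‖φ₀ x‖) μ := hφi.norm.const_mul _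
  have hle : ∀ x, ({x | N x < ρ}).indicator (fun _ => a) x - M₀ * ‖φ₀ x‖ ≤
      (φ₀ x * (((ρ ^ 2 : ℝ) : ℂ) + ψ x)⁻¹ ^ (m + 1)).re := by
    intro x
    have h0 : 0 ≤ M₀ * ‖φ₀ x‖ := by positivity
    by_cases hx : N x < ρ
    · rw [indicator_of_mem (show x ∈ {x | N x < ρ} from hx)]
      refine le_trans ((sub_le_self _ h0).trans ?_) (hnear x (hx.trans_le hρr))
      have h1 : ‖((ρ ^ 2 : ℝ) : ℂ) + ψ x‖ ≤ (1 + 2 * A) * ρ ^ 2 := by
        refine (Complex.norm_le_abs_re_add_abs_im _).trans ?_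
        rw [abs_of_pos (hwpos x), hwre, hwim]
        have h2 := him x (hx.trans_le hρr)
        have h3 : ε * (ψ x).re ≤ (ψ x).re := mul_le_of_le_one_left (hre0 x) hε1
        have h4 : A * N x ^ 2 ≤ A * ρ ^ 2 :=
          mul_le_mul_of_nonneg_left (pow_le_pow_left₀ (hN.nonneg _) hx.le 2) hA
        linarith [hup x]
      have h2 : 0 < ‖((ρ ^ 2 : ℝ) : ℂ) + ψ x‖ := (hwpos x).trans_le (Complex.re_le_norm _)
      simp only [a]
      gcongr
    · rw [indicator_of_notMem (show x ∉ {x | N x < ρ} from hx), zero_sub]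
      by_cases hxr : N x < r
      · exact le_trans ((neg_nonpos.2 h0).trans (by positivity)) (hnear x hxr)
      · refine neg_le_of_abs_le ((Complex.abs_re_le_norm _).trans ?_)
        rw [norm_mul, norm_pow, norm_inv, mul_comm]
        have h1 : a₀ ≤ ‖((ρ ^ 2 : ℝ) : ℂ) + ψ x‖ := by
          refine le_trans ?_ (Complex.re_le_norm _)
          rw [hwre]
          linarith [ha₀' x (not_lt.1 hxr), sq_nonneg ρ]
        simp only [M₀]
        gcongr
  have h1 := integral_mono (hi1.sub hi2) hgi.re hle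
  rw [integral_re hgi] at h1
  refine lt_of_lt_of_le ?_ h1
  simp only [Pi.sub_apply]
  rw [integral_sub hi1 hi2, integral_indicator_const _ hBm, integral_const_mul, smul_eq_mul,
    sub_pos]
  refine hρP.trans_le (le_trans ?_ (mul_le_mul_of_nonneg_right (hvol ρ hρ hρ1) (by positivity)))
  have e : v * ρ ^ m * a = P / ρ ^ (m + 2) := by
    simp only [a, P, mul_inv, mul_pow, inv_pow, ← pow_mul]
    rw [show 2 * (m + 1) = m + (m + 2) by ring, pow_add ρ m]
    field_simp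
  rw [e]
  exact div_le_div_of_nonneg_left hP.le (by positivity) (pow_le_of_le_one hρ.le hρ1 (by omega))

end

universe u

theorem exists_peak' [LocallyCompactSpace G] {H : Type u} [NormedAddCommGroup H]
    [InnerProductSpace ℂ H] [CompleteSpace H] {π : G →* (H →L[ℂ] H)}
    (hπ : IsURep π) (hf : ∀ x : G, x ≠ 1 → ∃ ξ, π x ξ ≠ ξ)
    (hno : ∀ N, IsGleason N → NoOneSided π N) {η₀ : H} {K : Set G} (hK : IsCompact K) {b : ℝ}
    (hb : 0 < b) (hout : ∀ x ∉ K, 5 * b ≤ ‖π x η₀ - η₀‖)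
    {φ₀ : G → ℂ} (hφc : Continuous φ₀) (hφi : Integrable φ₀ μ) (hφ1 : φ₀ 1 = 1) :
    ∃ (ι : Type u) (_ : Fintype ι) (η : ι → H) (c : ι → ℝ), (∀ i, 0 < c i) ∧ ∃ s : ℝ, 0 < s ∧
      ∃ k : ℕ, 0 < (∫ x, φ₀ x * (s + negDef π η c x)⁻¹ ^ k ∂μ).re := by
  obtain ⟨K₀, hK₀, hK₀1⟩ := exists_compact_mem_nhds (1 : G)
  have hV : {x | ‖φ₀ x - 1‖ < 1 / 10} ∈ 𝓝 (1 : G) :=
    (isOpen_lt (hφc.sub continuous_const).norm continuous_const).mem_nhds (by simp [hφ1])
  have hV' : {x | ‖π x η₀ - η₀‖ < b} ∈ 𝓝 (1 : G) :=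
    (isOpen_lt ((hπ.cont _).sub continuous_const).norm continuous_const).mem_nhds (by simp [hb])
  obtain ⟨N, hN, hNV, F, hF, hF'⟩ := gleason_yamabe hπ hf (hK₀.union hK)
    (inter_mem (inter_mem hV hV') hK₀1)
  obtain ⟨F₀, C, δ, h, hsep⟩ := exists_isCoord hπ hN (hno N hN) hK (fun x h0 hx => by
    by_contra hcon
    push Not at hcon
    refine h0.ne' (hF' x (hx.imp (fun h => (hNV x h).2) id) fun v hv => ?_)
    exact closure_minimal (s := (smooth π N : Set H)) (t := {v | π x v = v}) hcon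
      (isClosed_eq (π x).continuous continuous_id)
      (mem_closure_smooth hπ hN fun y hy => hF y hy v hv))
  obtain ⟨φ, hφ⟩ := hN.exists_isBump μ (r := 1 / 4) (by norm_num) (by norm_num)
  obtain ⟨D, hD⟩ := hφ.conv_conv_mem hπ hN le_rfl η₀
  have h1 : ‖conv π μ φ η₀ - η₀‖ ≤ b :=
    hφ.norm_integral_sub_le (hπ.cont η₀) fun z hz => (hNV z (by linarith)).1.2.le
  have h2 := hφ.norm_conv_sub_conv_le hπ (conv π μ φ η₀) η₀
  have h3 := norm_sub_le_norm_sub_add_norm_sub (conv π μ φ (conv π μ φ η₀)) (conv π μ φ η₀) η₀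
  generalize conv π μ φ (conv π μ φ η₀) = η₁ at hD h2 h3
  have h' : IsCoord π N (fun o : Option F₀ => o.elim η₁ fun i => (i : H)) (max C D) δ :=
    ⟨fun o => by
      cases o with
      | none => exact hD.mono hN.toIsLength (le_max_right _ _)
      | some i => exact (h.smooth i).mono hN.toIsLength (le_max_left _ _),
    h.nonneg.trans (le_max_left _ _), h.pos, fun x a a' =>
      (h.coord x a a').elim fun i hi => ⟨some i, hi⟩⟩
  obtain ⟨c, hc, s, hs, k, hk⟩ := peak h' hπ hN hφi (fun x hx => (hNV x hx).1.1.le) hK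
    (fun x a a' => (hsep x a a').elim fun i hi => ⟨some i, hi⟩) (i₀ := none) hb fun x hx => by
      have h4 := hout x hx
      have h5 := hπ.norm_eq x (η₀ - η₁)
      rw [map_sub, norm_sub_rev η₀] at h5
      have h6 := norm_sub_le_norm_sub_add_norm_sub (π x η₀) (π x η₁) η₀
      have h7 := norm_sub_le_norm_sub_add_norm_sub (π x η₁) η₁ η₀
      show b ≤ ‖π x η₁ - η₁‖
      linarith
  exact ⟨Option F₀, inferInstance, _, c, hc, s, hs, k, hk⟩

end Pool.Agent.MP_2da52b_an.Nt
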