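import Pool.Agent.MP_2da52b_an.NtConv
import Pool.Agent.MP_2da52b_an.NtPeak

/-! A closed bi-invariant subalgebra of the Fourier algebra with full spectrum is everything. -/

set_option linter.unusedSectionVars false

open Set Filter Topology MeasureTheory
open scoped Pointwise InnerProductSpace BoundedContinuousFunction ENNReal ComplexConjugate

namespace Pool.Agent.MP_2da52b_an.Nt

variable {G : Type*} [Group G] [TopologicalSpace G] [IsTopologicalGroup G]
variable [MeasurableSpace G] [BorelSpace G] {μ : Measure G} [μ.IsHaarMeasure]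
variable [LocallyCompactSpace G] [T2Space G] [μ.Regular]
variable {A : NonUnitalSubalgebra ℂ (G → ℂ)}

lemma proj_comm {S : Submodule ℂ (Lp ℂ 2 μ)} [S.HasOrthogonalProjection]
    (hS : ∀ x, ∀ v ∈ S, lam μ x v ∈ S) (x : G) (v : Lp ℂ 2 μ) :
    S.starProjection (lam μ x v) = lam μ x (S.starProjection v) := by
  refine Submodule.eq_starProjection_of_mem_orthogonal (hS _ _ (S.starProjection_apply_mem v)) ?_
  rw [← map_sub, Submodule.mem_orthogonal]
  intro u hu
  rw [isURep_lam.inner_right]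
  exact Submodule.inner_right_of_mem_orthogonal (hS _ _ hu) (S.sub_starProjection_mem_orthogonal v)

variable (μ A) in
/-- The vectors all of whose coefficients lie in `A`. -/
noncomputable def Msp : Submodule ℂ (Lp ℂ 2 μ) := ⨅ η, slot₁ A η

lemma mem_Msp {ξ : Lp ℂ 2 μ} : ξ ∈ Msp μ A ↔ ∀ η, coeff (leftReg μ) ξ η ∈ A :=
  Submodule.mem_iInf _

lemma closed_Msp (h : IsInv μ A) : IsClosed (Msp μ A : Set (Lp ℂ 2 μ)) := by
  rw [Msp, Submodule.coe_iInf]
  exact isClosed_iInter h.isClosed_slot₁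

lemma lam_Msp (h : IsInv μ A) (x : G) : ∀ v ∈ Msp μ A, lam μ x v ∈ Msp μ A := fun v hv =>
  mem_Msp.2 fun η => by
    have : coeff (leftReg μ) (lam μ x v) η = fun y => coeff (leftReg μ) v η (y * x) := by
      ext y; simp only [coeff_eq, IsURep.mul_apply]
    exact this ▸ h.right _ (mem_Msp.1 hv η) x

lemma exists_rep (h : IsInv μ A) {a : G → ℂ} (ha : a ∈ A) :
    ∃ ξ ∈ Msp μ A, ∃ η ∈ Msp μ A, a = coeff (leftReg μ) ξ η := by
  obtain ⟨ξ, η, rfl⟩ := h.sub ha
  have := (h.isClosed_slot₂ ξ).completeSpace_coe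
  have := (closed_Msp h).completeSpace_coe
  have hS : ∀ x, ∀ v ∈ slot₂ A ξ, lam μ x v ∈ slot₂ A ξ := fun w v hv => by
    have : coeff (leftReg μ) ξ (lam μ w v) = fun x => coeff (leftReg μ) ξ v (w⁻¹ * x) := by
      ext x; simp only [coeff_eq, IsURep.mul_apply, isURep_lam.inner_left]
    change coeff (leftReg μ) ξ (lam μ w v) ∈ A
    exact this ▸ h.left _ hv w⁻¹
  have e : ∀ ζ, coeff (leftReg μ) ((slot₂ A ξ).starProjection ξ) ζ =
      coeff (leftReg μ) ξ ((slot₂ A ξ).starProjection ζ) := fun ζ => by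
    ext x
    rw [coeff_eq, coeff_eq, ← proj_comm hS, Submodule.inner_starProjection_left_eq_right]
  have hm : (slot₂ A ξ).starProjection ξ ∈ Msp μ A :=
    mem_Msp.2 fun ζ => e ζ ▸ (slot₂ A ξ).starProjection_apply_mem ζ
  refine ⟨_, hm, _, (Msp μ A).starProjection_apply_mem η, ?_⟩
  ext x
  rw [coeff_eq _ ((Msp μ A).starProjection η), Submodule.inner_starProjection_left_eq_right,
    Submodule.starProjection_eq_self_iff.2 (lam_Msp h x _ hm), ← coeff_eq, e,
    Submodule.starProjection_eq_self_iff.2 (show η ∈ slot₂ A ξ from ha)]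

lemma toLp_mem (h : IsInv μ A) {c : G → ℂ} (hc : c ∈ A) {v : Lp ℂ 2 μ}
    (hv : v =ᵐ[μ] fun s => c s⁻¹) : v ∈ Msp μ A := mem_Msp.2 fun η => by
  refine closure_minimal (s := {η | IsCC η}) ?_ (h.isClosed_slot₂ v) (dense_isCC η)
  rintro η ⟨g, h1, h2, h3⟩
  have := h.conv_left hc (φ := fun y => conj (g y)) (Complex.continuous_conj.comp h1)
    (h2.comp_left (g := conj) (by simp))
  change coeff (leftReg μ) v η ∈ A
  have e : coeff (leftReg μ) v η = fun x => ∫ y, conj (g y) * c (y⁻¹ * x) ∂μ := by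
    ext x
    rw [coeff_eq, inner_of_ae hv h3]
    simp
  exact e ▸ this

variable (A) in
/-- The bounded continuous functions whose reflection lies in `A`. -/
def chk : NonUnitalSubalgebra ℂ (G →ᵇ ℂ) where
  carrier := {f | (fun x => f x⁻¹) ∈ A}
  zero_mem' := A.zero_mem
  add_mem' := fun ha hb => A.add_mem ha hb
  mul_mem' := fun ha hb => A.mul_mem ha hb
  smul_mem' := fun c _ ha => A.smul_mem c ha

/-- Reflection. -/
noncomputable def toChk (h : IsInv μ A) : A →ₙₐ[ℂ] chk A where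
  toFun a := ⟨BoundedContinuousFunction.ofNormedAddCommGroup (fun x => (a : G → ℂ) x⁻¹)
    ((h.cont a.2).comp continuous_inv) _ fun x => (h.bound a.2).choose_spec x⁻¹, by
      show (fun x => (a : G → ℂ) x⁻¹⁻¹) ∈ A
      simp⟩
  map_smul' _ _ := by ext; rfl
  map_zero' := by ext; rfl
  map_add' _ _ := by ext; rfl
  map_mul' _ _ := by ext; rfl

lemma char_chk (h : IsInv μ A)
    (hchar : ∀ χ : A →ₙₐ[ℂ] ℂ, χ ≠ 0 → ∃ x, ∀ a : A, χ a = (a : G → ℂ) x)
    (χ : chk A →ₙₐ[ℂ] ℂ) (hχ : χ ≠ 0) : ∃ x, ∀ a : chk A, χ a = (a : G →ᵇ ℂ) x := by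
  have e : ∀ a : chk A, toChk h ⟨fun x => (a : G →ᵇ ℂ) x⁻¹, a.2⟩ = a := fun a => by
    ext x
    show (a : G →ᵇ ℂ) x⁻¹⁻¹ = _
    rw [inv_inv]
  obtain ⟨x, hx⟩ := hchar (χ.comp (toChk h)) fun h0 => hχ (by
    ext a
    rw [← e a]
    exact congrArg (fun f : A →ₙₐ[ℂ] ℂ => f ⟨_, a.2⟩) h0)
  exact ⟨x⁻¹, fun a => (congrArg χ (e a)).symm.trans (hx _)⟩

theorem eq_fourierAlgebra (h : IsInv μ A)
    (hchar : ∀ χ : A →ₙₐ[ℂ] ℂ, χ ≠ 0 → ∃ x, ∀ a : A, χ a = (a : G → ℂ) x)
    (hne : ∃ a ∈ A, a ≠ 0) (hsep : ∀ x y, (∀ a ∈ A, a x = a y) → x = y) :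
    (A : Set (G → ℂ)) = fourierAlgebra μ := by
  refine h.sub.antisymm ?_
  have := (closed_Msp h).completeSpace_coe
  suffices hM : Msp μ A = ⊤ by
    rintro _ ⟨ξ, η, rfl⟩
    exact mem_Msp.1 (hM ▸ Submodule.mem_top : ξ ∈ Msp μ A) η
  rw [← Submodule.orthogonal_eq_bot_iff, Submodule.eq_bot_iff]
  intro ζ hζ
  by_contra hζ0
  obtain ⟨β, hβ, hβ0⟩ : ∃ β ∈ Msp μ A, β ≠ 0 := by
    obtain ⟨a, ha, ha0⟩ := hne
    obtain ⟨ξ, hξ, η, -, rfl⟩ := exists_rep h ha
    exact ⟨ξ, hξ, fun e => ha0 (by ext x; simp [e, coeff])⟩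
  have hd : ∀ v : Lp ℂ 2 μ, v ≠ 0 → ∃ f, IsCC f ∧ ⟪f, v⟫_ℂ ≠ 0 := fun v hv =>
    dense_isCC.exists_mem_open (U := {f | ⟪f, v⟫_ℂ ≠ 0})
      (isOpen_ne_fun (continuous_id.inner continuous_const) continuous_const)
      ⟨v, inner_self_ne_zero.2 hv⟩
  obtain ⟨f, hf, hf0⟩ := hd β hβ0
  obtain ⟨g, hg, hg0⟩ := hd ζ hζ0
  obtain ⟨T, hT, hTc⟩ := exists_op hg
  have hz : ∀ c ∈ A, MemLp (fun s => c s⁻¹) 2 μ → ∫ s, conj (c s⁻¹) * cfn g ζ s ∂μ = 0 := by
    intro c hc hm
    have h1 := toLp_mem h hc hm.coeFn_toLp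
    have h2 : ContinuousLinearMap.adjoint T (hm.toLp _) ∈ Msp μ A := mem_Msp.2 fun η => by
      have e : coeff (leftReg μ) (ContinuousLinearMap.adjoint T (hm.toLp _)) η =
          coeff (leftReg μ) (hm.toLp _) (T η) := by
        ext x
        rw [coeff_eq, coeff_eq, isURep_lam.inner_right, ContinuousLinearMap.adjoint_inner_right,
          hTc, ← isURep_lam.inner_right]
      exact e ▸ mem_Msp.1 h1 _
    have h3 := Submodule.inner_right_of_mem_orthogonal h2 hζ
    rw [ContinuousLinearMap.adjoint_inner_left, ← IsURep.one_apply (lam μ) (T ζ),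
      inner_of_ae (hT ζ) hm.coeFn_toLp] at h3
    simpa using h3
  let φ : G → ℂ := fun s => (conj ⟪f, β⟫_ℂ * ⟪g, ζ⟫_ℂ)⁻¹ * (conj (cfn f β s) * cfn g ζ s)
  have hφc : Continuous φ := continuous_const.mul
    ((Complex.continuous_conj.comp (continuous_cfn _ _)).mul (continuous_cfn _ _))
  have hφi : Integrable φ μ := by
    refine Integrable.const_mul ?_ _
    exact MemLp.integrable_mul (q := 2) (f := fun s => conj (cfn f β s))
      ((memLp_cfn hf β).of_le (Complex.continuous_conj.comp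
        (continuous_cfn _ _)).aestronglyMeasurable (by simp)) (memLp_cfn hg ζ)
  have hφ1 : φ 1 = 1 := by
    simp only [φ, cfn, IsURep.one_apply]
    exact inv_mul_cancel₀ (mul_ne_zero ((map_ne_zero _).2 hf0) hg0)
  have hπ : IsURep (restrictRep (lam μ) _ (lam_Msp h)) := isURep_lam.restrict _ _
  have hcf : ∀ η ξ : Msp μ A, hπ.cf η ξ ∈ closure (chk A : Set (G →ᵇ ℂ)) := fun η ξ =>
    subset_closure (by
      show (fun x => hπ.cf η ξ x⁻¹) ∈ A
      simp only [hπ.cf_apply, inv_inv]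
      exact mem_Msp.1 η.2 ξ)
  have hn : 0 < ‖β‖ := norm_pos_iff.2 hβ0
  obtain ⟨K, hK, hKs⟩ := exists_compact_small β (ε := ‖β‖ ^ 2 / 2) (by positivity)
  obtain ⟨ι, _, η, c, hc, s, hs, k, hk⟩ := exists_peak' (μ := μ) hπ (fun x hx => by
      by_contra hcon
      push Not at hcon
      refine hx (hsep _ _ fun a ha => ?_)
      obtain ⟨ξ, hξ, η, -, rfl⟩ := exists_rep h ha
      rw [coeff_eq, coeff_eq, IsURep.one_apply]
      exact congrArg (fun v : Msp μ A => ⟪η, (v : Lp ℂ 2 μ)⟫_ℂ) (hcon ⟨ξ, hξ⟩))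
    (noOneSided hπ hcf (fun a ha => subset_closure (by
      obtain ⟨ξ, hξ, η, hη, e⟩ := exists_rep h ha
      refine ⟨⟨ξ, hξ⟩, ⟨η, hη⟩, ?_⟩
      ext x
      exact (congrArg a (inv_inv x).symm).trans (congrFun e x⁻¹))) (char_chk h hchar))
    (η₀ := ⟨β, hβ⟩) hK (b := ‖β‖ / 5) (by positivity) (fun x hx => by
      show _ ≤ ‖lam μ x β - β‖
      have h1 := norm_sub_sq (𝕜 := ℂ) β (lam μ x β)
      have h2 := (RCLike.re_le_norm _).trans (hKs x hx)
      rw [norm_lam, norm_sub_rev] at h1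
      refine le_of_sq_le_sq ?_ (norm_nonneg _)
      nlinarith) hφc hφi hφ1
  obtain ⟨u, hu, hux⟩ := hπ.exists_inv_mem (Subalgebra.isClosed_topologicalClosure _) hc hs
    fun i => mem_unitize_closure (hcf (η i) (η i))
  have hint : ∀ u : G →ᵇ ℂ, Integrable (fun s => conj (φ s) * u s) μ := fun u =>
    Integrable.mul_bdd (c := ‖u‖) (hφi.mono (Complex.continuous_conj.comp hφc).aestronglyMeasurable
      (by simp)) u.continuous.aestronglyMeasurable (Eventually.of_forall u.norm_coe_le_norm)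
  let L : (G →ᵇ ℂ) →L[ℂ] ℂ := LinearMap.mkContinuous
    { toFun := fun u => ∫ s, conj (φ s) * u s ∂μ
      map_add' := fun u v => by
        simp only [BoundedContinuousFunction.add_apply, mul_add]
        exact integral_add (hint u) (hint v)
      map_smul' := fun c u => by
        simp only [BoundedContinuousFunction.smul_apply, smul_eq_mul, RingHom.id_apply]
        rw [← integral_const_mul]
        simp only [mul_left_comm] } (∫ s, ‖φ s‖ ∂μ) fun u => by
      rw [← integral_mul_const]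
      refine norm_integral_le_of_norm_le (hφi.norm.mul_const _) (Eventually.of_forall fun s => ?_)
      rw [norm_mul, RCLike.norm_conj]
      exact mul_le_mul_of_nonneg_left (u.norm_coe_le_norm _) (norm_nonneg _)
  have hb : coeff (leftReg μ) β f ∈ A := mem_Msp.1 hβ f
  have hL : ∀ a : G →ᵇ ℂ, (fun x => a x⁻¹ * coeff (leftReg μ) β f x) ∈ A → L a = 0 := fun a ha => by
    have h1 := hz _ ha (by
      simp only [inv_inv, ← cfn_eq]
      exact (memLp_cfn hf β).of_le_mul (c := ‖a‖)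
        (a.continuous.mul (continuous_cfn _ _)).aestronglyMeasurable (Eventually.of_forall fun x =>
          (norm_mul_le _ _).trans (mul_le_mul_of_nonneg_right (a.norm_coe_le_norm _)
            (norm_nonneg _))))
    show ∫ s, conj (φ s) * a s ∂μ = 0
    rw [← map_eq_zero (starRingEnd ℂ), ← integral_conj, ← mul_zero (conj ⟪f, β⟫_ℂ * ⟪g, ζ⟫_ℂ)⁻¹,
      ← h1, ← integral_const_mul]
    refine integral_congr_ae (Eventually.of_forall fun s => ?_)
    simp only [φ, inv_inv, ← cfn_eq, map_mul, Complex.conj_conj]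
    ring
  have h0 : u ^ k ∈ L.ker :=
    unitize_closure_induction _ L.isClosed_ker (hL 1 (by simpa using hb))
      (fun a ha => hL a (mul_mem ha hb)) (pow_mem hu k)
  have h1 : ∫ s, conj (φ s) * (u ^ k) s ∂μ = 0 := h0
  have h2 : ∫ x, φ x * (s + negDef (restrictRep (lam μ) _ (lam_Msp h)) η c x)⁻¹ ^ k ∂μ = 0 := by
    rw [← map_eq_zero (starRingEnd ℂ), ← integral_conj, ← h1]
    refine integral_congr_ae (Eventually.of_forall fun x => ?_)
    have := hux x⁻¹
    rw [inv_inv] at this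
    simp only [BoundedContinuousFunction.pow_apply, this, map_mul, map_pow, map_inv₀, map_add,
      Complex.conj_ofReal, negDef, map_sum, inner_conj_symm, inner_sub_right, hπ.inner_left,
      map_sub]
  rw [h2] at hk
  simp at hk

end Pool.Agent.MP_2da52b_an.Nt
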