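import Mathlib
import Pool.Agent.MP_2da52b_an.Final

/-!
A closed, translation-invariant, Tauberian subalgebra of the Fourier algebra with full spectrum is
the whole Fourier algebra, for every locally compact group.
-/

open MeasureTheory Pool.Agent.MP_2da52b_an

namespace Pool.Agent.MP_2da52b_an.OldTauberian

theorem result {G : Type*} [Group G] [TopologicalSpace G] [IsTopologicalGroup G]
    [LocallyCompactSpace G] [T2Space G] [MeasurableSpace G] [BorelSpace G]
    (μ : Measure G) [μ.IsHaarMeasure] [μ.Regular]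
    (A : NonUnitalSubalgebra ℂ (G → ℂ))
    (hclosed : IsFourierClosed μ (A : Set (G → ℂ)))
    (hinv : IsBiInvariant (A : Set (G → ℂ)))
    (htaub : IsTauberian μ (A : Set (G → ℂ)))
    (hchar : CharsArePoints A)
    (hsep : SeparatesStrongly (A : Set (G → ℂ))) :
    (A : Set (G → ℂ)) = fourierAlgebra μ := by
  refine IsInv.eq_fourierAlgebra ⟨hclosed.1, hclosed.2, fun a ha g => (hinv a ha g).1,
    fun a ha g => (hinv a ha g).2⟩ (fun a ha ε hε => ?_) hchar hsep.1 hsep.2
  obtain ⟨b, hb, hc, hab⟩ := htaub a ha (ENNReal.ofReal ε) (ENNReal.ofReal_pos.2 hε)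
  refine ⟨b, hb, hc, fun x => ?_⟩
  have h := ((enorm_le_fourierNorm (μ := μ) (a - b) x).trans_lt hab).le
  rwa [← ofReal_norm, ENNReal.ofReal_le_ofReal_iff hε.le] at h

end Pool.Agent.MP_2da52b_an.OldTauberian
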